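import Pool.Agent.X75C.Mid

/-!
The peak attains its maximum over Mosco compact sets of domains.
-/

set_option autoImplicit false
set_option linter.unusedSectionVars false

open MeasureTheory Set Filter Topology
open scoped InnerProductSpace NNReal ENNReal ContDiff

namespace Pool.Agent.X75C

open H772R2.NS H772R2.NS.Pub
open H772R2.NSR (Frame exists_frame exists_pair grad_unique exists_weak_limit mem_of_weak_limit
  rellich_W prim_cont)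
open H772R2.NSG (ii_of_int)
open Pool.Agent.Y303.RA (Hom hom_tensL)
open Pool.Agent.W795.TQ

variable {D : ℕ → Set E3} {Ω B : Set E3} {ν T M N : ℝ} {Φ Φ' : ℕ → ℝ → L2M univ}
  {Φ0 : ℝ → L2M univ} {F : ∀ n, ℝ → L2M (D n)} {F0 : ℝ → L2M Ω} {x : ∀ n, L2V (D n)}
  {y : ∀ n, L2M (D n)} {g : ∀ n, L2V (D n)} {x0 : L2V Ω}

theorem mosco_sub (Mo : Mosco D Ω) {φ : ℕ → ℕ} (hφ : StrictMono φ) :
    Mosco (fun n => D (φ n)) Ω := by
  constructor
  · intro p hp ε hε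
    exact hφ.tendsto_atTop.eventually (Mo.lower p hp ε hε)
  · intro k hk p hp hM v hv
    exact Mo.upper (fun n => φ (k n)) (hφ.comp hk) p hp hM v hv

/-- the public form of the compatibility condition -/
theorem pub_compat {D : Set E3} (hD : IsOpen D) {ν : ℝ} {x g : L2V D} {y F : L2M D}
    (hxy : (x, y) ∈ graphW D)
    (hc : ∀ p ∈ graphW D, ⟪F - ν • y + tensL x, p.2⟫_ℝ = ⟪g, p.1⟫_ℝ) :
    ∀ φ : E3 → E3, Pub.IsTest D φ → Pub.rhs (Ω := D) ν x y F φ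
      = ∫ z in (show Set R3 from D), ⟪L2.fn (Ω := D) (E := R3) g z, (φ : R3 → R3) z⟫_ℝ := by
  intro φ hφ
  obtain ⟨p, hp, hp1, hp2⟩ := exists_pair (Ω := D) ((isTest_iff φ).mp hφ)
  have e1 := H772R2.NSR.pub_rhs hD.measurableSet ν F hxy hp2
  have e2 := H772R2.NSR.pub_inner (Ω := D) g hp1
  exact e1.trans ((hc p hp).trans e2.symm)

/-- the limit datum is admissible -/
theorem limit_adm (hD : ∀ n, IsOpen (D n)) (hΩ : IsOpen Ω) (hB : IsOpen B)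
    (hb : Bornology.IsBounded B) (hDB : ∀ n, D n ⊆ B) (hΩB : Ω ⊆ B) (Mo : Mosco D Ω)
    (hν : 0 < ν) (hT : 0 < T) (hΦ : ∀ n, FH T (Φ n) (Φ' n))
    (hΦM : ∀ n, (∫ s in (0 : ℝ)..T, ‖Φ' n s‖ ^ 2) ≤ N) (hΦ0 : ContinuousOn Φ0 (Icc 0 T))
    (hlim : ∀ ε : ℝ, 0 < ε → ∀ᶠ n in atTop, ∀ t ∈ Icc 0 T, ‖Φ n t - Φ0 t‖ ≤ ε)
    (hF : ∀ n, ∀ t ∈ Icc 0 T, F n t =ᵐ[volume.restrict (D n)] Φ n t)
    (hF0 : ∀ t ∈ Icc 0 T, F0 t =ᵐ[volume.restrict Ω] Φ0 t)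
    (hxy : ∀ n, (x n, y n) ∈ graphW (D n)) (hy : ∀ n, ‖y n‖ ≤ M) (hg : ∀ n, ‖g n‖ ≤ M)
    (hc : ∀ n, ∀ p ∈ graphW (D n), ⟪F n 0 - ν • y n + tensL (x n), p.2⟫_ℝ = ⟪g n, p.1⟫_ℝ)
    (hx : Tendsto (fun n => dst (D := D n) (Ω := Ω) (E := R3) (x n) x0) atTop (𝓝 0)) :
    Adm Ω ν M (F0 0) x0 := by
  obtain ⟨C, Fr, S⟩ := setup_of hD hΩ hB hb hDB hΩB Mo hν hT hΦ hΦM hΦ0 hlim hF hxy hy hg hc hx
  obtain ⟨y0, g0, k1, k2, k3, k4⟩ := S.limdat
  have hBm := hB.measurableSet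
  have hΩm := hΩ.measurableSet
  obtain ⟨q, hq, e1, e2⟩ := (mem_WD _ _).mp k1
  simp only at e1 e2
  have e1' : q.1 = x0 := (ext E3 hΩm hΩB).injective e1
  have hq' : (x0, q.2) ∈ graphW Ω := by rw [← e1']; exact hq
  have hcomp : ∀ p ∈ graphW Ω, ⟪F0 0 - ν • q.2 + tensL x0, p.2⟫_ℝ
      = ⟪rs E3 hΩm hΩB g0, p.1⟫_ℝ := by
    intro p hp
    have h1 := k4 (ext2 hΩm hΩB p) ((mem_WD _ _).mpr ⟨p, hp, rfl, rfl⟩)
    have e3 : tensL (ext E3 hΩm hΩB x0) = ext M3 hΩm hΩB (tensL x0) :=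
      tensL_ext (q := (x0, q.2)) hΩm hBm hΩB hq'
    have e4 : (ext2 hΩm hΩB p).2 = ext M3 hΩm hΩB p.2 := rfl
    have e5 : (ext2 hΩm hΩB p).1 = ext E3 hΩm hΩB p.1 := rfl
    have e6 : ⟪g0, ext E3 hΩm hΩB p.1⟫_ℝ = ⟪rs E3 hΩm hΩB g0, p.1⟫_ℝ := (rs_inner _ _ _ _).symm
    have e7 := pair hΩm hBm hΩB (subset_univ B) (hF0 0 ⟨le_rfl, hT.le⟩) p.2
    rw [e4, e5, e6, e3, ← e2, inner_add_left, inner_sub_left, real_inner_smul_left,
      (ext M3 hΩm hΩB).inner_map_map, (ext M3 hΩm hΩB).inner_map_map, e7] at h1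
    rw [inner_add_left, inner_sub_left, real_inner_smul_left]
    exact h1
  refine ⟨q.2, rs E3 hΩm hΩB g0, mem_pub.mp hq', ?_, ?_, pub_compat hΩ hq' hcomp⟩
  · have : ‖q.2‖ = ‖y0‖ := by rw [← e2, (ext M3 hΩm hΩB).norm_map]
    exact this.le.trans k2
  · exact (rs_le hΩm hΩB g0).trans k3

/-- the restriction, internal type -/
noncomputable def rF (D : Set E3) (v : L2M univ) : L2M D := restr D (E := Mat) v

theorem rF_coe {D : Set E3} (v : L2M univ) : rF D v =ᵐ[volume.restrict D] v := by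
  have h : MemLp (v : E3 → M3) 2 (volume.restrict D) :=
    (Lp.memLp v).mono_measure (Measure.restrict_mono (subset_univ D) le_rfl)
  exact h.coeFn_toLp

/-- **The maximum is attained.** -/
theorem worst (hloc : S_loc) (huni : S_uni) {𝒟 : Set (Set E3)} {B : Set E3} (hB : IsOpen B)
    (hb : Bornology.IsBounded B) (h𝒟 : ∀ D ∈ 𝒟, IsOpen D ∧ D ⊆ B) (hcpt : MoscoCompact 𝒟)
    {ν T M : ℝ} (hν : 0 < ν) (hT : 0 < T) {Φ Φ' : ℝ → L2M univ} (hΦ : FH T Φ Φ')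
    {D₀ : Set E3} (hD₀ : D₀ ∈ 𝒟) {x₀ : L2V D₀} (hx₀ : Adm D₀ ν M (restr D₀ (Φ 0)) x₀) :
    ∃ Ω ∈ 𝒟, ∃ x : L2V Ω, Adm Ω ν M (restr Ω (Φ 0)) x ∧
      ∀ D ∈ 𝒟, ∀ x' : L2V D, Adm D ν M (restr D (Φ 0)) x' →
        peak D ν T (fun t => restr D (Φ t)) x' ≤ peak Ω ν T (fun t => restr Ω (Φ t)) x := by
  set S : Set ℝ≥0∞ := {P | ∃ D ∈ 𝒟, ∃ x : L2V D, Adm D ν M (restr D (Φ 0)) x ∧
    P = peak D ν T (fun t => restr D (Φ t)) x} with hS
  have hne : S.Nonempty := ⟨_, D₀, hD₀, x₀, hx₀, rfl⟩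
  obtain ⟨P, -, hP, hPS⟩ := exists_seq_tendsto_sSup hne (OrderTop.bddAbove S)
  choose D hD x hx hPe using hPS
  have hDo : ∀ n, IsOpen (D n) := fun n => (h𝒟 _ (hD n)).1
  have hDB : ∀ n, D n ⊆ B := fun n => (h𝒟 _ (hD n)).2
  obtain ⟨k, hk, Ω, hΩ𝒟, Mo⟩ : ∃ k : ℕ → ℕ, StrictMono k ∧ ∃ Ω : Set E3, Ω ∈ 𝒟 ∧
    Mosco (fun n => D (k n)) Ω := hcpt D hD
  have hΩ : IsOpen Ω := (h𝒟 _ hΩ𝒟).1
  have hΩB : Ω ⊆ B := (h𝒟 _ hΩ𝒟).2
  have hBm := hB.measurableSet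
  have hx' : ∀ n, ∃ (y : L2M (D n)) (g : L2V (D n)), (x n, y) ∈ graphW (D n) ∧ ‖y‖ ≤ M ∧
      ‖g‖ ≤ M ∧ ∀ p ∈ graphW (D n),
        ⟪rF (D n) (Φ 0) - ν • y + tensL (x n), p.2⟫_ℝ = ⟪g, p.1⟫_ℝ := by
    intro n
    obtain ⟨y, g, h1, h2, h3, h4⟩ := hx n
    exact ⟨y, g, mem_pub.mpr h1, h2, h3, compat_pub (hDo n) (mem_pub.mpr h1) h4⟩
  choose y g hxy hyM hgM hcom using hx'
  -- a convergent subsequence of the velocities
  have hK : IsCompact (closure {v : L2V B | ∃ z, (v, z) ∈ graphW B ∧ ‖z‖ ≤ M}) :=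
    isCompact_iff_totallyBounded_isComplete.mpr
      ⟨(rellich_W hB hb M).closure, isClosed_closure.isComplete⟩
  obtain ⟨a, -, φ, hφ, ha⟩ := hK.tendsto_subseq
    (x := fun n => ext E3 (hDo (k n)).measurableSet (hDB (k n)) (x (k n))) (fun n =>
      subset_closure ⟨ext M3 (hDo (k n)).measurableSet (hDB (k n)) (y (k n)),
        ext_mem (hDo (k n)).measurableSet (hDB (k n)) (hxy (k n)), by
          rw [(ext M3 (hDo (k n)).measurableSet (hDB (k n))).norm_map]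
          exact hyM (k n)⟩)
  have Mo' : Mosco (fun n => D (k (φ n))) Ω := mosco_sub (D := fun n => D (k n)) Mo hφ
  obtain ⟨q, hq, hqa⟩ := Mo'.upper (fun n => n) strictMono_id
    (fun n => (x (k (φ n)), y (k (φ n)))) (fun n => mem_pub.mp (hxy _))
    ⟨M, fun n => hyM _⟩ (ext E3 hBm (subset_univ B) a) (by
      have h1 : Tendsto (fun n => ‖ext E3 (hDo (k (φ n))).measurableSet (hDB (k (φ n)))
          (x (k (φ n))) - a‖ₑ) atTop (𝓝 0) := by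
        have := tendsto_iff_edist_tendsto_0.mp ha
        simpa only [edist_eq_enorm_sub, Function.comp] using this
      exact h1.congr fun n => (dstU (hDo (k (φ n))).measurableSet hBm (hDB _) _ a).symm)
  have e1 : ext E3 hΩ.measurableSet hΩB q.1 = a := by
    have h5 : ‖ext E3 hΩ.measurableSet hΩB q.1 - a‖ₑ = 0 :=
      (dstU hΩ.measurableSet hBm hΩB q.1 a).symm.trans hqa
    rw [enorm_eq_zero] at h5
    exact sub_eq_zero.mp h5
  have hdst : Tendsto (fun n => dst (D := D (k (φ n))) (Ω := Ω) (E := R3) (x (k (φ n))) q.1)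
      atTop (𝓝 0) := by
    have h1 : Tendsto (fun n => ‖ext E3 (hDo (k (φ n))).measurableSet (hDB (k (φ n)))
        (x (k (φ n))) - ext E3 hΩ.measurableSet hΩB q.1‖ₑ) atTop (𝓝 0) := by
      rw [e1]
      have := tendsto_iff_edist_tendsto_0.mp ha
      simpa only [edist_eq_enorm_sub, Function.comp] using this
    exact h1.congr fun n =>
      (dstV (hDo (k (φ n))).measurableSet hΩ.measurableSet hBm (hDB _) hΩB _ q.1).symm
  have hΦc : ContinuousOn Φ (Icc 0 T) := prim_cont hΦ.memLp hΦ.prim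
  have hlim : ∀ ε : ℝ, 0 < ε → ∀ᶠ _n : ℕ in atTop, ∀ t ∈ Icc 0 T, ‖Φ t - Φ t‖ ≤ ε := by
    intro ε hε
    refine Eventually.of_forall fun _ t _ => ?_
    rw [sub_self, norm_zero]
    exact hε.le
  refine ⟨Ω, hΩ𝒟, q.1, ?_, ?_⟩
  · exact limit_adm (D := fun n => D (k (φ n))) (Φ := fun _ => Φ) (Φ' := fun _ => Φ') (Φ0 := Φ)
      (F := fun n t => rF (D (k (φ n))) (Φ t)) (F0 := fun t => rF Ω (Φ t))
      (x := fun n => x (k (φ n))) (y := fun n => y (k (φ n))) (g := fun n => g (k (φ n)))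
      (fun n => hDo _) hΩ hB hb (fun n => hDB _) hΩB Mo' hν hT (fun _ => hΦ) (fun _ => le_rfl)
      hΦc hlim (fun n t _ => rF_coe _) (fun t _ => rF_coe _) (fun n => hxy _)
      (fun n => hyM _) (fun n => hgM _) (fun n => hcom _) hdst
  · have h1 := (mid hloc huni (D := fun n => D (k (φ n))) (Φ := fun _ => Φ) (Φ' := fun _ => Φ')
      (Φ0 := Φ)
      (F := fun n t => rF (D (k (φ n))) (Φ t)) (F0 := fun t => rF Ω (Φ t))
      (x := fun n => x (k (φ n))) (y := fun n => y (k (φ n))) (g := fun n => g (k (φ n)))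
      (fun n => hDo _) hΩ hB hb (fun n => hDB _) hΩB Mo' hν hT (fun _ => hΦ) (fun _ => le_rfl)
      hΦc hlim (fun n t _ => rF_coe _) (fun t _ => rF_coe _) (fun n => hxy _)
      (fun n => hyM _) (fun n => hgM _) (fun n => hcom _) hdst).1
    have h2 : Tendsto (fun n => peak (D (k (φ n))) ν T (fun t => restr (D (k (φ n))) (Φ t))
        (x (k (φ n)))) atTop (𝓝 (sSup S)) := by
      refine (hP.comp (hk.comp hφ).tendsto_atTop).congr fun n => ?_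
      exact hPe _
    have h3 := tendsto_nhds_unique h1 h2
    intro D' hD' x' hx'
    refine le_trans ?_ h3.ge
    exact le_sSup ⟨D', hD', x', hx', rfl⟩

end Pool.Agent.X75C
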