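import Pool.Agent.X75C.Str0

/-!
Bounds of the time derivative of a strong solution in terms of the bound of the enstrophy.
-/

set_option autoImplicit false
set_option linter.unusedSectionVars false

open MeasureTheory Set Filter Topology
open scoped InnerProductSpace

namespace Pool.Agent.X75C

open Pool.Agent.Y303.RA
open Pool.Agent.W795.TQ
open H772R2.NSR (Frame prim_cont memLp_ii ae_deriv_of_prim grad_unique)
open H772R2.NSG (St LH ii_of_int int_inner norm_m_le mem_cont)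

variable {H K : Type} [NormedAddCommGroup H] [InnerProductSpace ℝ H] [CompleteSpace H]
  [NormedAddCommGroup K] [InnerProductSpace ℝ K] [CompleteSpace K]

/-- Young's inequality for the nonlinear term -/
theorem young_m {W : Submodule ℝ (H × K)} {m : H → K} {C ν R : ℝ} (Fr : Frame W m C)
    (hν : 0 < ν) {p : H × K} (hp : p ∈ W) {y : K} (hy : ‖y‖ ≤ R) :
    -⟪m p.1, y⟫_ℝ ≤ ν / 2 * ‖p.2‖ ^ 2 + 27 / 32 * (C ^ 2 * R ^ 4) / ν ^ 3 * ‖p.1‖ ^ 2 := by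
  have hR : 0 ≤ R := (norm_nonneg _).trans hy
  have hC0 := Fr.C0
  have h4 : -⟪m p.1, y⟫_ℝ ≤ ‖m p.1‖ * ‖y‖ := by
    have := abs_real_inner_le_norm (m p.1) y
    have := neg_abs_le ⟪m p.1, y⟫_ℝ
    linarith
  refine h4.trans ?_
  have hq := Fr.quart _ hp
  set X : ℝ := ‖m p.1‖ * ‖y‖ with hX
  set α : ℝ := ν / 2 * ‖p.2‖ ^ 2 with hα
  set β : ℝ := 27 / 32 * (C ^ 2 * R ^ 4) / ν ^ 3 * ‖p.1‖ ^ 2 with hβ
  have hX0 : 0 ≤ X := by positivity
  have hα0 : 0 ≤ α := by positivity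
  have hβ0 : 0 ≤ β := by positivity
  have hX4 : X ^ 4 ≤ C ^ 2 * R ^ 4 * (‖p.1‖ ^ 2 * ‖p.2‖ ^ 6) := by
    calc X ^ 4 = (‖m p.1‖ ^ 2) ^ 2 * ‖y‖ ^ 4 := by rw [hX]; ring
      _ ≤ (C * (‖p.1‖ * ‖p.2‖ ^ 3)) ^ 2 * R ^ 4 := by gcongr
      _ = C ^ 2 * R ^ 4 * (‖p.1‖ ^ 2 * ‖p.2‖ ^ 6) := by ring
  have hab : C ^ 2 * R ^ 4 * (‖p.1‖ ^ 2 * ‖p.2‖ ^ 6) = 256 / 27 * (α ^ 3 * β) := by
    rw [hα, hβ]; field_simp; ring
  have hag : 256 / 27 * (α ^ 3 * β) ≤ (α + β) ^ 4 := by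
    have : 0 ≤ (α - 3 * β) ^ 2 * (27 * α ^ 2 + 14 * (α * β) + 3 * β ^ 2) := by positivity
    nlinarith
  have : X ^ 4 ≤ (α + β) ^ 4 := hX4.trans (hab.le.trans hag)
  exact (pow_le_pow_iff_left₀ hX0 (by positivity) (by norm_num)).mp this

/-- the bounds of the time derivative -/
theorem bounds (H K : Type) [NormedAddCommGroup H] [InnerProductSpace ℝ H] [CompleteSpace H]
    [NormedAddCommGroup K] [InnerProductSpace ℝ K] [CompleteSpace K] (C ν T R M B : ℝ)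
    (hC : 0 < C) (hν : 0 < ν) (hT : 0 < T) (hR : 0 ≤ R) (hM : 0 ≤ M) (hB : 0 ≤ B) :
    ∃ Y Z : ℝ, 0 < Y ∧ 0 < Z ∧ ∀ (W : Submodule ℝ (H × K)) (m : H → K) (F F1 : ℝ → K)
      (u u1 : ℝ → H) (z z1 : ℝ → K) (g0 : H) (τ : ℝ), Frame W m C → Hom W m → 0 < τ → τ ≤ T →
      FH T F F1 → Str W m ν τ F u u1 z z1 →
      (∀ p ∈ W, ⟪F 0 - ν • z 0 + m (u 0), p.2⟫_ℝ = ⟪g0, p.1⟫_ℝ) →
      (∀ t ∈ Icc 0 τ, ‖z t‖ ≤ R) → ‖g0‖ ≤ M → (∫ s in (0 : ℝ)..T, ‖F1 s‖ ^ 2) ≤ B →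
      (∀ᵐ t ∂(volume.restrict (Ioc 0 τ)), ‖u1 t‖ ≤ Y) ∧ (∫ s in (0 : ℝ)..τ, ‖z1 s‖ ^ 2) ≤ Z := by
  set Λ : ℝ := 27 / 32 * (C ^ 2 * R ^ 4) / ν ^ 3 with hΛ
  have hΛ0 : 0 ≤ Λ := by positivity
  set L : ℝ := Λ * T with hL
  have hL0 : 0 ≤ L := by positivity
  set D : ℝ := (16 * M ^ 2 + B / ν) * Real.exp (2 * L) with hD
  have hD0 : 0 ≤ D := by positivity
  set Y : ℝ := Real.sqrt (D + 1) with hY
  have hY0 : 0 < Y := Real.sqrt_pos.mpr (by linarith)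
  have hY2 : Y ^ 2 = D + 1 := Real.sq_sqrt (by linarith)
  set Z : ℝ := 2 / ν * (16 * M ^ 2 + 2 * B / ν + 2 * Λ * T * Y ^ 2) + 1 with hZ
  refine ⟨Y, Z, hY0, by positivity, ?_⟩
  intro W m F F1 u u1 z z1 g0 τ Fr hm hτ hτT hF S hg hz hgM hFB
  have hI0 : 0 ≤ ∫ s in (0 : ℝ)..T, ‖F1 s‖ ^ 2 :=
    intervalIntegral.integral_nonneg hT.le fun s _ => by positivity
  have hFτ : FH τ F F1 :=
    ⟨hF.memLp.mono_measure (Measure.restrict_mono (Ioc_subset_Ioc_right hτT) le_rfl),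
      fun a b ha hab hb => hF.prim a b ha hab (hb.trans hτT)⟩
  have hF2 : Integrable (fun s => ‖F1 s‖ ^ 2) (volume.restrict (Ioc 0 T)) :=
    (memLp_two_iff_integrable_sq_norm hF.memLp.aestronglyMeasurable).mp hF.memLp
  have hb : ∀ᵐ t ∂(volume.restrict (Ioo 0 τ)), ‖u1 t‖ ≤ Y := by
    refine boot Fr hm hν hτ hτT hF (fun t ht => S.mono ht.2.le) hg (δ := 1 / 2) (L := L)
      (by norm_num) hL0 hY0.le ?_ ?_
    · have h1 : (16 * ‖g0‖ ^ 2 + (∫ s in (0 : ℝ)..T, ‖F1 s‖ ^ 2) / (2 * (1 / 2) * ν))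
          * Real.exp (2 * L) ≤ D := by
        rw [hD]
        have e : 2 * (1 / 2) * ν = ν := by ring
        rw [e]
        gcongr
      rw [hY2]
      linarith
    · intro t ht _
      refine ⟨fun _ => Λ, fun _ => hΛ0, integrableOn_const (by simp), ?_, ?_⟩
      · rw [intervalIntegral.integral_const, smul_eq_mul, sub_zero, hL, mul_comm]
        gcongr
        exact ht.2.le.trans hτT
      · have hsub : (volume.restrict (Ioc 0 t) : Measure ℝ) ≤ volume.restrict (Ioc 0 τ) :=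
          Measure.restrict_mono (Ioc_subset_Ioc_right ht.2.le) le_rfl
        filter_upwards [ae_mono hsub S.mem1, ae_restrict_mem measurableSet_Ioc] with s hs hsI
        have h1 := young_m Fr hν hs (hz s ⟨hsI.1.le, hsI.2.trans ht.2.le⟩)
        simp only at h1
        have e : (1 - 1 / 2) * ν = ν / 2 := by ring
        rw [e]
        exact h1
  have hb' : ∀ᵐ t ∂(volume.restrict (Ioc 0 τ)), ‖u1 t‖ ≤ Y := by
    rwa [restrict_Ioo_eq_restrict_Ioc] at hb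
  refine ⟨hb', ?_⟩
  have hz2 : Integrable (fun s => ‖z1 s‖ ^ 2) (volume.restrict (Ioc 0 τ)) :=
    (memLp_two_iff_integrable_sq_norm S.z1m.aestronglyMeasurable).mp S.z1m
  set f : ℝ → ℝ := fun s => ⟪F1 s, z1 s⟫_ℝ - ν * ‖z1 s‖ ^ 2 - ⟪m (u1 s), z s⟫_ℝ with hf
  -- the bound at the points of differentiability
  have key : ∀ t ∈ Ioo 0 τ, ∀ b, HasDerivAt u b t →
      (∫ s in (0 : ℝ)..t, ‖z1 s‖ ^ 2) ≤ Z := by
    intro t ht b hbt
    obtain ⟨k1, k2⟩ := en_a0 Fr hm hν hτ hFτ S hg ht.1 ht.2 hbt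
    have hsst : Ioc 0 t ⊆ Ioc 0 τ := Ioc_subset_Ioc_right ht.2.le
    have hsub : (volume.restrict (Ioc 0 t) : Measure ℝ) ≤ volume.restrict (Ioc 0 τ) :=
      Measure.restrict_mono hsst le_rfl
    have hFi : IntegrableOn (fun s => ‖F1 s‖ ^ 2) (Ioc 0 t) :=
      hF2.mono_measure (Measure.restrict_mono (hsst.trans (Ioc_subset_Ioc_right hτT)) le_rfl)
    have hzi : IntegrableOn (fun s => ‖z1 s‖ ^ 2) (Ioc 0 t) := hz2.mono_measure hsub
    have h1 : ∫ s in Ioc 0 t, f s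
        ≤ ∫ s in Ioc 0 t, (‖F1 s‖ ^ 2 / ν + (-(ν / 4)) * ‖z1 s‖ ^ 2 + Λ * Y ^ 2) := by
      refine integral_mono_ae k1 (((hFi.div_const _).add (hzi.const_mul _)).add
        (integrableOn_const (by simp))) ?_
      filter_upwards [ae_mono hsub S.mem1, ae_mono hsub hb', ae_restrict_mem measurableSet_Ioc]
        with s hs hs2 hsI
      have l1 := young_m Fr hν hs (hz s ⟨hsI.1.le, hsI.2.trans ht.2.le⟩)
      simp only at l1
      have l2 : ⟪F1 s, z1 s⟫_ℝ ≤ ‖F1 s‖ * ‖z1 s‖ := real_inner_le_norm _ _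
      have l3 : ‖F1 s‖ * ‖z1 s‖ ≤ ν / 4 * ‖z1 s‖ ^ 2 + ‖F1 s‖ ^ 2 / ν := by
        have : 0 ≤ (ν / 2 * ‖z1 s‖ - ‖F1 s‖) ^ 2 / ν := by positivity
        have e : (ν / 2 * ‖z1 s‖ - ‖F1 s‖) ^ 2 / ν
            = ν / 4 * ‖z1 s‖ ^ 2 - ‖F1 s‖ * ‖z1 s‖ + ‖F1 s‖ ^ 2 / ν := by
          field_simp; ring
        linarith
      have l4 : Λ * ‖u1 s‖ ^ 2 ≤ Λ * Y ^ 2 := by gcongr
      simp only [hf]
      linarith
    have hadd : Integrable (fun s => ‖F1 s‖ ^ 2 / ν + (-(ν / 4)) * ‖z1 s‖ ^ 2)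
        (volume.restrict (Ioc 0 t)) := (hFi.div_const _).add (hzi.const_mul _)
    have hcst : Integrable (fun _ : ℝ => Λ * Y ^ 2) (volume.restrict (Ioc 0 t)) :=
      integrableOn_const (by simp)
    rw [integral_add hadd hcst, integral_add (hFi.div_const _) (hzi.const_mul _), integral_div,
      integral_const_mul] at h1
    have h2 : ∫ s in Ioc 0 t, ‖F1 s‖ ^ 2 ≤ B := by
      refine le_trans ?_ hFB
      rw [intervalIntegral.integral_of_le hT.le]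
      exact setIntegral_mono_set hF2 (Eventually.of_forall fun s => by positivity)
        (Ioc_subset_Ioc le_rfl (ht.2.le.trans hτT)).eventuallyLE
    have h3 : (∫ s in Ioc 0 t, ‖F1 s‖ ^ 2) / ν ≤ B / ν := by gcongr
    have h4 : ∫ _ in Ioc 0 t, Λ * Y ^ 2 ≤ Λ * T * Y ^ 2 := by
      rw [setIntegral_const, smul_eq_mul]
      have e5 : volume.real (Ioc 0 t) = t := by
        simp [Measure.real, ht.1.le]
      rw [e5]
      have : t ≤ T := ht.2.le.trans hτT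
      have h6 : 0 ≤ Λ * Y ^ 2 := by positivity
      nlinarith
    rw [intervalIntegral.integral_of_le ht.1.le] at k2 ⊢
    have h5 : ‖g0‖ ^ 2 ≤ M ^ 2 := by gcongr
    have h6 : 0 ≤ ‖b‖ ^ 2 := by positivity
    set J := ∫ s in Ioc 0 t, ‖z1 s‖ ^ 2 with hJ
    have h7 : ν / 2 * J ≤ 16 * M ^ 2 + 2 * B / ν + 2 * Λ * T * Y ^ 2 := by
      have e8 : 2 * B / ν = 2 * (B / ν) := by ring
      rw [e8]
      nlinarith
    have h8 : J ≤ 2 / ν * (16 * M ^ 2 + 2 * B / ν + 2 * Λ * T * Y ^ 2) := by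
      rw [div_mul_eq_mul_div, le_div_iff₀ hν]
      linarith
    linarith
  -- passage to the limit
  have hc : ContinuousOn (fun t => ∫ s in (0 : ℝ)..t, ‖z1 s‖ ^ 2) (Icc 0 τ) := by
    have hi : IntegrableOn (fun s => ‖z1 s‖ ^ 2) (uIcc 0 τ) volume := by
      rw [uIcc_of_le hτ.le, integrableOn_Icc_iff_integrableOn_Ioc]
      exact hz2
    have := intervalIntegral.continuousOn_primitive_interval hi
    rwa [uIcc_of_le hτ.le] at this
  have hall : ∀ t ∈ Ioo 0 τ, (∫ s in (0 : ℝ)..t, ‖z1 s‖ ^ 2) ≤ Z := by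
    intro t ht
    obtain ⟨t', ht', hd'⟩ := exists_diff (v := u) (v1 := u1) hτ (fun t ht => S.mono ht.2.le)
      (s := t) ⟨ht.1.le, ht.2⟩
    refine le_trans ?_ (key t' ⟨ht.1.trans ht'.1, ht'.2⟩ _ hd')
    refine intervalIntegral.integral_mono_interval le_rfl ht.1.le ht'.1.le
      (Eventually.of_forall fun s => by positivity) ?_
    exact ii_of_int hz2 le_rfl (ht.1.trans ht'.1).le ht'.2.le
  have hlim : Tendsto (fun t => ∫ s in (0 : ℝ)..t, ‖z1 s‖ ^ 2) (𝓝[<] τ)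
      (𝓝 (∫ s in (0 : ℝ)..τ, ‖z1 s‖ ^ 2)) := by
    have h1 := hc τ ⟨hτ.le, le_rfl⟩
    refine h1.mono_left ?_
    rw [nhdsWithin_le_iff]
    filter_upwards [Ioo_mem_nhdsLT hτ] with x hx
    exact ⟨hx.1.le, hx.2.le⟩
  refine le_of_tendsto hlim ?_
  filter_upwards [Ioo_mem_nhdsLT hτ] with x hx
  exact hall x hx

end Pool.Agent.X75C
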