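import Pool.Agent.X75C.Lim2

/-!
Stability of strong solutions in varying closed subspaces.
-/

set_option autoImplicit false
set_option linter.unusedSectionVars false

open MeasureTheory Set Filter Topology
open scoped InnerProductSpace NNReal ENNReal

namespace Pool.Agent.X75C

open Pool.Agent.Y303.RA (Hom norm_int_sq_le)
open Pool.Agent.Y303.NF (str_unique)
open Pool.Agent.W795.TQ
open H772R2.NSR (Frame prim_cont memLp_ii ae_deriv_of_prim grad_unique)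
open H772R2.NSG (St LH ii_of_int int_inner norm_m_le mem_cont)

variable {H K : Type} [NormedAddCommGroup H] [InnerProductSpace ℝ H] [CompleteSpace H]
  [NormedAddCommGroup K] [InnerProductSpace ℝ K] [CompleteSpace K]
  {W V0 : Submodule ℝ (H × K)} {V : ℕ → Submodule ℝ (H × K)} {m : H → K} {C ν T M B : ℝ}
  {Fn F1n : ℕ → ℝ → K} {F : ℝ → K} {x g : ℕ → H} {y : ℕ → K} {x0 : H}

/-- the hypotheses -/
structure Setup (W : Submodule ℝ (H × K)) (V : ℕ → Submodule ℝ (H × K)) (V0 : Submodule ℝ (H × K))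
    (m : H → K) (C ν T : ℝ) (Fn F1n : ℕ → ℝ → K) (F : ℝ → K) (x g : ℕ → H) (y : ℕ → K) (x0 : H)
    (M B : ℝ) : Prop where
  Fr : Frame W m C
  hm : Hom W m
  tb : ∀ R : ℝ, TotallyBounded {v : H | ∃ z, (v, z) ∈ W ∧ ‖z‖ ≤ R}
  nu : 0 < ν
  T0 : 0 < T
  le : ∀ n, V n ≤ W
  cl : ∀ n, IsClosed (V n : Set (H × K))
  le0 : V0 ≤ W
  cl0 : IsClosed (V0 : Set (H × K))
  conv : ∀ U : Ultrafilter ℕ, (U : Filter ℕ) ≤ atTop → Conv V V0 (U : Filter ℕ)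
  FHn : ∀ n, FH T (Fn n) (F1n n)
  FB : ∀ n, (∫ s in (0 : ℝ)..T, ‖F1n n s‖ ^ 2) ≤ B
  Fc : ContinuousOn F (Icc 0 T)
  Flim : ∀ ε : ℝ, 0 < ε → ∀ᶠ n in atTop, ∀ t ∈ Icc 0 T, ‖Fn n t - F t‖ ≤ ε
  mem : ∀ n, (x n, y n) ∈ V n
  yb : ∀ n, ‖y n‖ ≤ M
  gb : ∀ n, ‖g n‖ ≤ M
  comp : ∀ n, ∀ p ∈ V n, ⟪Fn n 0 - ν • y n + m (x n), p.2⟫_ℝ = ⟪g n, p.1⟫_ℝ
  xlim : Tendsto x atTop (𝓝 x0)

theorem Setup.frn (S : Setup W V V0 m C ν T Fn F1n F x g y x0 M B) (n : ℕ) : Frame (V n) m C :=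
  frame_sub S.Fr (S.le n) (S.cl n)

theorem Setup.fr0 (S : Setup W V V0 m C ν T Fn F1n F x g y x0 M B) : Frame V0 m C :=
  frame_sub S.Fr S.le0 S.cl0

theorem Setup.Fnc (S : Setup W V V0 m C ν T Fn F1n F x g y x0 M B) (n : ℕ) :
    ContinuousOn (Fn n) (Icc 0 T) := prim_cont (S.FHn n).memLp (S.FHn n).prim

theorem Setup.M0 (S : Setup W V V0 m C ν T Fn F1n F x g y x0 M B) : 0 ≤ M :=
  (norm_nonneg _).trans (S.yb 0)

theorem Setup.B0 (S : Setup W V V0 m C ν T Fn F1n F x g y x0 M B) : 0 ≤ B :=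
  le_trans (intervalIntegral.integral_nonneg S.T0.le fun s _ => by positivity) (S.FB 0)

/-- the bounds for the solutions -/
theorem Setup.bds (S : Setup W V V0 m C ν T Fn F1n F x g y x0 M B) {R : ℝ} (hR : 0 ≤ R) :
    ∃ Y Z : ℝ, 0 < Y ∧ 0 < Z ∧ ∀ (n : ℕ) (τ : ℝ) (u u1 : ℝ → H) (z z1 : ℝ → K), 0 < τ → τ ≤ T →
      Str (V n) m ν τ (Fn n) u u1 z z1 → u 0 = x n → (∀ t ∈ Icc 0 τ, ‖z t‖ ≤ R) →
      (∀ᵐ t ∂(volume.restrict (Ioc 0 τ)), ‖u1 t‖ ≤ Y) ∧ (∫ s in (0 : ℝ)..τ, ‖z1 s‖ ^ 2) ≤ Z := by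
  obtain ⟨Y, Z, hY, hZ, h⟩ := bounds H K C ν T R M B S.Fr.C0 S.nu S.T0 hR S.M0 S.B0
  refine ⟨Y, Z, hY, hZ, ?_⟩
  intro n τ u u1 z z1 hτ hτT hS h0 hz
  have e : z 0 = y n := by
    have h1 := hS.mem 0 ⟨le_rfl, hτ.le⟩
    rw [h0] at h1
    exact grad_unique (S.frn n) h1 (S.mem n)
  refine h (V n) m (Fn n) (F1n n) u u1 z z1 (g n) τ (S.frn n) (hom_sub S.hm (S.le n)) hτ hτT
    (S.FHn n) hS ?_ hz (S.gb n) (S.FB n)
  intro p hp
  rw [e, h0]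
  exact S.comp n p hp

/-- the limit of the data -/
theorem Setup.limdat (S : Setup W V V0 m C ν T Fn F1n F x g y x0 M B) :
    ∃ (y0 : K) (g0 : H), (x0, y0) ∈ V0 ∧ ‖y0‖ ≤ M ∧ ‖g0‖ ≤ M ∧
      ∀ q ∈ V0, ⟪F 0 - ν • y0 + m x0, q.2⟫_ℝ = ⟪g0, q.1⟫_ℝ := by
  set U : Ultrafilter ℕ := Ultrafilter.of atTop with hUdef
  have hU : (U : Filter ℕ) ≤ atTop := Ultrafilter.of_le _
  have Cv := S.conv U hU
  obtain ⟨p0, h1, h2, h3, h4⟩ := pt_weak S.tb S.le U Cv (R := M) (p := fun n => (x n, y n)) S.mem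
    S.yb
  have e : p0.1 = x0 := tendsto_nhds_unique h2 (S.xlim.mono_left hU)
  obtain ⟨w, k1, -, k3⟩ := pt_eqn S.Fr S.nu S.le S.le0 U Cv (p := fun n => (x n, y n)) (p0 := p0)
    (a := g) (b := fun n => Fn n 0) (b0 := F 0) (R := M) (Y := M) S.mem S.yb h1 h2 h4 (by
      rw [Metric.tendsto_nhds]
      intro ε hε
      filter_upwards [hU (S.Flim (ε / 2) (by positivity))] with n hn
      rw [dist_eq_norm]
      linarith [hn 0 ⟨le_rfl, S.T0.le⟩]) S.gb (fun n q hq => (S.comp n q hq).symm)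
  refine ⟨p0.2, w, ?_, h3, k1, fun q hq => ?_⟩
  · rw [← e]
    exact h1
  · rw [← e]
    exact (k3 q hq).symm

/-- the limit of bounded solutions is a solution -/
theorem Setup.lim (S : Setup W V V0 m C ν T Fn F1n F x g y x0 M B) {τ : ℝ} (hτ : 0 < τ)
    (hτT : τ ≤ T) (U : Ultrafilter ℕ) (hU : (U : Filter ℕ) ≤ atTop) {R : ℝ}
    {u u1 : ℕ → ℝ → H} {z z1 : ℕ → ℝ → K}
    (hS : ∀ᶠ n in (U : Filter ℕ), Str (V n) m ν τ (Fn n) (u n) (u1 n) (z n) (z1 n) ∧ u n 0 = x n ∧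
      ∀ t ∈ Icc 0 τ, ‖z n t‖ ≤ R) :
    ∃ (v v1 : ℝ → H) (w w1 : ℝ → K), Str V0 m ν τ F v v1 w w1 ∧ v 0 = x0 ∧
      ∀ ε : ℝ, 0 < ε → ∀ᶠ n in (U : Filter ℕ), ∀ t ∈ Icc 0 τ,
        ‖u n t - v t‖ ≤ ε ∧ ‖z n t - w t‖ ≤ ε := by
  classical
  obtain ⟨n0, hn0⟩ := hS.exists
  have hR0 : 0 ≤ R := (norm_nonneg _).trans (hn0.2.2 0 ⟨le_rfl, hτ.le⟩)
  obtain ⟨Y, Z, hY, hZ, hb⟩ := S.bds hR0
  set φ : ℕ → ℕ := fun n => if Str (V n) m ν τ (Fn n) (u n) (u1 n) (z n) (z1 n) ∧ u n 0 = x n ∧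
      ∀ t ∈ Icc 0 τ, ‖z n t‖ ≤ R then n else n0 with hφ
  have hφe : ∀ᶠ n in (U : Filter ℕ), φ n = n := by
    filter_upwards [hS] with n hn
    simp only [hφ]
    rw [if_pos hn]
  have hφS : ∀ n, Str (V (φ n)) m ν τ (Fn (φ n)) (u (φ n)) (u1 (φ n)) (z (φ n)) (z1 (φ n)) ∧
      u (φ n) 0 = x (φ n) ∧ ∀ t ∈ Icc 0 τ, ‖z (φ n) t‖ ≤ R := by
    intro n
    simp only [hφ]
    split_ifs with h
    · exact h
    · exact hn0
  have hsub : Icc 0 τ ⊆ Icc 0 T := Icc_subset_Icc_right hτT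
  have Cv := S.conv U hU
  have Cv' : Conv (fun n => V (φ n)) V0 (U : Filter ℕ) := by
    constructor
    · intro p hp ε hε
      filter_upwards [Cv.lower p hp ε hε, hφe] with n h1 h2
      simp only [h2]
      exact h1
    · intro p p0 R' h1 h2 h3 h4
      have hR' : 0 ≤ R' := (norm_nonneg _).trans (h2 0)
      refine Cv.upper (fun n => if φ n = n then p n else 0) p0 R' ?_ ?_ ?_ ?_
      · intro n
        split_ifs with h
        · have := h1 n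
          simp only [h] at this
          exact this
        · exact (V n).zero_mem
      · intro n
        split_ifs with h
        · exact h2 n
        · simpa using hR'
      · refine h3.congr' ?_
        filter_upwards [hφe] with n hn
        simp only [hn, if_true]
      · intro y'
        refine (h4 y').congr' ?_
        filter_upwards [hφe] with n hn
        simp only [hn, if_true]
  obtain ⟨v, v1, w, w1, k1, k2⟩ := limit S.Fr S.tb S.nu hτ (V := fun n => V (φ n))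
    (fun n => S.le _) (fun n => S.cl _) S.le0 S.cl0 U Cv' (Fn := fun n => Fn (φ n)) (F := F)
    (fun n => (S.Fnc _).mono hsub) (by
      intro ε hε
      filter_upwards [hU (S.Flim ε hε), hφe] with n h1 h2 t ht
      rw [h2]
      exact h1 t (hsub ht)) (S.Fc.mono hsub) (u := fun n => u (φ n)) (u1 := fun n => u1 (φ n))
    (z := fun n => z (φ n)) (z1 := fun n => z1 (φ n)) (fun n => (hφS n).1) (R := R) (Y := Y)
    (Z := Z) (fun n => (hφS n).2.2)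
    (fun n => (hb (φ n) τ _ _ _ _ hτ hτT (hφS n).1 (hφS n).2.1 (hφS n).2.2).1)
    (fun n => (hb (φ n) τ _ _ _ _ hτ hτT (hφS n).1 (hφS n).2.1 (hφS n).2.2).2)
  have hunif : ∀ ε : ℝ, 0 < ε → ∀ᶠ n in (U : Filter ℕ), ∀ t ∈ Icc 0 τ,
      ‖u n t - v t‖ ≤ ε ∧ ‖z n t - w t‖ ≤ ε := by
    intro ε hε
    filter_upwards [k2 ε hε, hφe] with n h1 h2
    simp only [h2] at h1
    exact h1
  refine ⟨v, v1, w, w1, k1, ?_, hunif⟩
  have h1 : Tendsto (fun n => u n 0) (U : Filter ℕ) (𝓝 (v 0)) := by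
    rw [Metric.tendsto_nhds]
    intro ε hε
    filter_upwards [hunif (ε / 2) (by positivity)] with n hn
    rw [dist_eq_norm]
    linarith [(hn 0 ⟨le_rfl, hτ.le⟩).1]
  have h2 : Tendsto (fun n => u n 0) (U : Filter ℕ) (𝓝 x0) := by
    refine (S.xlim.mono_left hU).congr' ?_
    filter_upwards [hS] with n hn
    exact hn.2.1.symm
  exact tendsto_nhds_unique h1 h2

/-- the first time at which a level is reached -/
theorem first_time {f : ℝ → ℝ} {τ R : ℝ} (hτ : 0 < τ) (hf : ContinuousOn f (Icc 0 τ))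
    (h0 : f 0 < R) : ∃ σ, 0 < σ ∧ σ ≤ τ ∧ (∀ t ∈ Icc 0 σ, f t ≤ R) ∧ (σ = τ ∨ f σ = R) := by
  set A : Set ℝ := Icc 0 τ ∩ f ⁻¹' (Ici R) with hA
  have hAc : IsCompact A :=
    isCompact_Icc.of_isClosed_subset (hf.preimage_isClosed_of_isClosed isClosed_Icc isClosed_Ici)
      inter_subset_left
  rcases A.eq_empty_or_nonempty with hE | hne
  · refine ⟨τ, hτ, le_rfl, fun t ht => ?_, Or.inl rfl⟩
    by_contra h
    rw [not_le] at h
    have : t ∈ A := ⟨ht, h.le⟩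
    rw [hE] at this
    exact this
  · have hmem := hAc.sInf_mem hne
    set σ := sInf A with hσ
    have hσR : R ≤ f σ := hmem.2
    have hσ0 : 0 < σ := by
      rcases eq_or_lt_of_le hmem.1.1 with h | h
      · rw [← h] at hσR
        exact absurd hσR (not_le.2 h0)
      · exact h
    obtain ⟨s, hs, hsR⟩ := intermediate_value_Icc hσ0.le
      (hf.mono (Icc_subset_Icc_right hmem.1.2)) (⟨h0.le, hσR⟩ : R ∈ Icc (f 0) (f σ))
    have hsA : s ∈ A := ⟨⟨hs.1, hs.2.trans hmem.1.2⟩, hsR.ge⟩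
    have hsσ : s = σ := le_antisymm hs.2 (csInf_le hAc.bddBelow hsA)
    rw [hsσ] at hsR
    refine ⟨σ, hσ0, hmem.1.2, fun t ht => ?_, Or.inr hsR⟩
    by_contra h
    rw [not_le] at h
    have : t ∈ A := ⟨⟨ht.1, ht.2.trans hmem.1.2⟩, h.le⟩
    have h2 := csInf_le hAc.bddBelow this
    have h3 : t = σ := le_antisymm ht.2 h2
    rw [h3, hsR] at h
    exact lt_irrefl _ h

theorem exists_ultra {P : ℕ → Prop} (h : ∃ᶠ n in atTop, P n) :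
    ∃ U : Ultrafilter ℕ, (U : Filter ℕ) ≤ atTop ∧ ∀ᶠ n in (U : Filter ℕ), P n := by
  have hne : (atTop ⊓ 𝓟 {n | P n} : Filter ℕ).NeBot := by
    rw [Filter.inf_principal_neBot_iff]
    intro s hs
    obtain ⟨n, h1, h2⟩ := (h.and_eventually hs).exists
    exact ⟨n, h2, h1⟩
  refine ⟨Ultrafilter.of (atTop ⊓ 𝓟 {n | P n}), (Ultrafilter.of_le _).trans inf_le_left, ?_⟩
  exact (Ultrafilter.of_le _).trans inf_le_right (mem_principal_self _)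

/-- existence for the approximate problems -/
theorem Setup.ex (hloc : S_loc) (huni : S_uni)
    (S : Setup W V V0 m C ν T Fn F1n F x g y x0 M B) {u u1 : ℝ → H} {z z1 : ℝ → K}
    (h : Str V0 m ν T F u u1 z z1) (h0 : u 0 = x0) :
    ∃ R : ℝ, ∀ᶠ n in atTop, ∃ (v v1 : ℝ → H) (w w1 : ℝ → K),
      Str (V n) m ν T (Fn n) v v1 w w1 ∧ v 0 = x n ∧ ∀ t ∈ Icc 0 T, ‖w t‖ ≤ R := by
  have hzc : ContinuousOn z (Icc 0 T) := prim_cont h.z1m h.pz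
  obtain ⟨R1, hR1⟩ : ∃ R1, ∀ s ∈ Icc 0 T, ‖z s‖ ≤ R1 := by
    obtain ⟨Φ, hΦ⟩ := (isCompact_Icc.image_of_continuousOn hzc).isBounded.exists_norm_le
    exact ⟨Φ, fun s hs => hΦ _ ⟨s, hs, rfl⟩⟩
  set R : ℝ := max R1 M + 1 with hR
  have hRM : M + 1 ≤ R := by rw [hR]; linarith [le_max_right R1 M]
  have hRz : ∀ s ∈ Icc 0 T, ‖z s‖ ≤ R - 1 := fun s hs => by
    have := hR1 s hs
    have := le_max_left R1 M
    rw [hR]; linarith
  have hR0 : 0 ≤ R := by linarith [S.M0]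
  obtain ⟨Y, Z, hY, hZ, hb⟩ := S.bds hR0
  -- the local solutions
  have hex : ∀ n, ∃ (σ : ℝ) (v v1 : ℝ → H) (w w1 : ℝ → K), 0 < σ ∧ σ ≤ T ∧
      Str (V n) m ν σ (Fn n) v v1 w w1 ∧ v 0 = x n ∧ (∀ t ∈ Icc 0 σ, ‖w t‖ ≤ R) ∧
      (σ = T ∨ ‖w σ‖ = R) := by
    intro n
    obtain ⟨τ, v, v1, w, w1, hτ, hτT, hS, hv0, hor⟩ := hloc H K (V n) m C ν T (Fn n) (F1n n) (x n)
      (g n) (y n) R (S.frn n) (tb_sub S.tb (S.le n)) S.nu S.T0 (S.FHn n) (S.mem n) (S.comp n)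
      (by have := S.yb n; linarith)
    have hw0 : w 0 = y n := by
      have h1 := hS.mem 0 ⟨le_rfl, hτ.le⟩
      rw [hv0] at h1
      exact grad_unique (S.frn n) h1 (S.mem n)
    have hwc : ContinuousOn (fun t => ‖w t‖) (Icc 0 τ) := (prim_cont hS.z1m hS.pz).norm
    obtain ⟨σ, h1, h2, h3, h4⟩ := first_time hτ hwc (R := R) (by
      rw [hw0]
      have := S.yb n
      linarith)
    refine ⟨σ, v, v1, w, w1, h1, h2.trans hτT, hS.mono h2, hv0, h3, ?_⟩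
    rcases h4 with h4 | h4
    · rcases hor with h5 | h5
      · exact Or.inl (h4.trans h5)
      · right
        rw [h4]
        exact le_antisymm (by rw [← h4]; exact h3 σ ⟨h1.le, le_rfl⟩) h5
    · exact Or.inr h4
  choose σ v v1 w w1 hσ0 hσT hStr hv0 hwR hor using hex
  refine ⟨R, ?_⟩
  suffices hmain : ∀ᶠ n in atTop, σ n = T by
    filter_upwards [hmain] with n hn
    refine ⟨v n, v1 n, w n, w1 n, ?_, hv0 n, ?_⟩
    · have := hStr n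
      rwa [hn] at this
    · have := hwR n
      rwa [hn] at this
  by_contra hcon
  have hfr : ∃ᶠ n in atTop, σ n ≠ T := by
    rw [Filter.not_eventually] at hcon
    exact hcon
  obtain ⟨U, hU, hUP⟩ := exists_ultra hfr
  have hnorm : ∀ᶠ n in (U : Filter ℕ), ‖w n (σ n)‖ = R := by
    filter_upwards [hUP] with n hn
    exact (hor n).resolve_left hn
  have holz : ∀ n, ∀ a ∈ Icc 0 (σ n), ∀ b ∈ Icc 0 (σ n), ‖w n a - w n b‖ ^ 2 ≤ Z * |a - b| :=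
    fun n => hol_of (hStr n).z1m (hStr n).pz
      (hb n (σ n) _ _ _ _ (hσ0 n) (hσT n) (hStr n) (hv0 n) (hwR n)).2
  obtain ⟨σs, hσs, hσlim⟩ := (isCompact_Icc (a := (0 : ℝ)) (b := T)).ultrafilter_le_nhds
    (U.map σ) (by
      rw [le_principal_iff]
      show _ ∈ Filter.map σ (U : Filter ℕ)
      rw [Filter.mem_map]
      exact Filter.univ_mem' (fun n => ⟨(hσ0 n).le, hσT n⟩))
  have hσlim' : Tendsto σ U (𝓝 σs) := hσlim
  -- the limit time is positive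
  have hlow : 1 / Z ≤ σs := by
    refine ge_of_tendsto hσlim' ?_
    filter_upwards [hnorm] with n hn
    have h1 := holz n (σ n) ⟨(hσ0 n).le, le_rfl⟩ 0 ⟨le_rfl, (hσ0 n).le⟩
    rw [sub_zero, abs_of_pos (hσ0 n)] at h1
    have h2 : w n 0 = y n := by
      have h3 := (hStr n).mem 0 ⟨le_rfl, (hσ0 n).le⟩
      rw [hv0 n] at h3
      exact grad_unique (S.frn n) h3 (S.mem n)
    have h3 : 1 ≤ ‖w n (σ n) - w n 0‖ := by
      have h4 := norm_sub_norm_le (w n (σ n)) (w n 0)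
      rw [hn, h2] at h4
      have := S.yb n
      rw [h2]
      linarith
    have h5 : 1 ≤ ‖w n (σ n) - w n 0‖ ^ 2 := by nlinarith
    rw [div_le_iff₀ hZ]
    linarith
  have hσs0 : 0 < σs := lt_of_lt_of_le (by positivity) hlow
  set δ : ℝ := 1 / (32 * Z) with hδ
  have hδ0 : 0 < δ := by positivity
  obtain ⟨t, ht1, ht2⟩ := exists_between (max_lt (by linarith : σs - δ < σs) hσs0)
  have ht0 : 0 < t := (le_max_right _ _).trans_lt ht1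
  have htδ : σs - δ < t := (le_max_left _ _).trans_lt ht1
  have htT : t ≤ T := ht2.le.trans hσs.2
  have hev1 : ∀ᶠ n in (U : Filter ℕ), t < σ n := hσlim'.eventually (lt_mem_nhds ht2)
  have hev2 : ∀ᶠ n in (U : Filter ℕ), σ n < σs + δ :=
    hσlim'.eventually (gt_mem_nhds (by linarith))
  obtain ⟨a, a1, b, b1, k1, k2, k3⟩ := S.lim ht0 htT U hU (R := R) (u := v) (u1 := v1) (z := w)
    (z1 := w1) (by
      filter_upwards [hev1] with n hn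
      exact ⟨(hStr n).mono hn.le, hv0 n, fun s hs => hwR n s ⟨hs.1, hs.2.trans hn.le⟩⟩)
  have hFc' := S.Fc
  have hua : ∀ s ∈ Icc 0 t, u s = a s :=
    str_unique huni S.fr0 S.nu S.T0 ht0 htT S.Fc h k1 (k2.trans h0.symm)
  have htI : t ∈ Icc 0 t := ⟨ht0.le, le_rfl⟩
  have hzb : b t = z t := by
    have h1 := k1.mem t htI
    have h2 := h.mem t ⟨ht0.le, htT⟩
    rw [hua t htI] at h2
    exact grad_unique S.fr0 h1 h2
  obtain ⟨n, ⟨⟨hn1, hn2⟩, hn3⟩, hn4⟩ := (((hev1.and hev2).and hnorm).and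
    (k3 (1 / 4) (by norm_num))).exists
  have h1 := (hn4 t htI).2
  rw [hzb] at h1
  have h2 := hRz t ⟨ht0.le, htT⟩
  have h3 : ‖w n t‖ ≤ R - 1 + 1 / 4 := by
    have := norm_sub_norm_le (w n t) (z t)
    linarith
  have h4 := holz n (σ n) ⟨(hσ0 n).le, le_rfl⟩ t ⟨ht0.le, hn1.le⟩
  have h5 : |σ n - t| ≤ 2 * δ := by
    rw [abs_of_pos (by linarith)]
    linarith
  have h6 : ‖w n (σ n) - w n t‖ ^ 2 ≤ (1 / 4) ^ 2 := by
    refine h4.trans ?_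
    calc Z * |σ n - t| ≤ Z * (2 * δ) := by gcongr
      _ = (1 / 4) ^ 2 := by rw [hδ]; field_simp; norm_num
  have h7 : ‖w n (σ n) - w n t‖ ≤ 1 / 4 :=
    (pow_le_pow_iff_left₀ (norm_nonneg _) (by norm_num) (by norm_num)).mp h6
  have h8 := norm_sub_norm_le (w n (σ n)) (w n t)
  linarith

/-- **Stability.** -/
theorem Setup.stab (hloc : S_loc) (huni : S_uni)
    (S : Setup W V V0 m C ν T Fn F1n F x g y x0 M B) {u u1 : ℝ → H} {z z1 : ℝ → K}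
    (h : Str V0 m ν T F u u1 z z1) (h0 : u 0 = x0) {ε : ℝ} (hε : 0 < ε) :
    ∀ᶠ n in atTop, (∃ (v v1 : ℝ → H) (w w1 : ℝ → K), Str (V n) m ν T (Fn n) v v1 w w1 ∧
      v 0 = x n) ∧ ∀ (v v1 : ℝ → H) (w w1 : ℝ → K), Str (V n) m ν T (Fn n) v v1 w w1 →
      v 0 = x n → ∀ t ∈ Icc 0 T, ‖v t - u t‖ ≤ ε ∧ ‖w t - z t‖ ≤ ε := by
  classical
  obtain ⟨R, hR⟩ := S.ex hloc huni h h0
  by_contra hcon
  rw [Filter.not_eventually] at hcon
  have hfr := hcon.and_eventually hR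
  obtain ⟨U, hU, hUP⟩ := exists_ultra hfr
  -- a solution with a bad distance
  have hbad : ∀ᶠ n in (U : Filter ℕ), ∃ (v v1 : ℝ → H) (w w1 : ℝ → K),
      Str (V n) m ν T (Fn n) v v1 w w1 ∧ v 0 = x n ∧ (∀ t ∈ Icc 0 T, ‖w t‖ ≤ R) ∧
      ∃ t ∈ Icc 0 T, ¬ (‖v t - u t‖ ≤ ε ∧ ‖w t - z t‖ ≤ ε) := by
    filter_upwards [hUP] with n hn
    obtain ⟨hn1, v, v1, w, w1, k1, k2, k3⟩ := hn
    rw [not_and] at hn1
    have hn2 := hn1 ⟨v, v1, w, w1, k1, k2⟩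
    push Not at hn2
    obtain ⟨a, a1, b, b1, l1, l2, t, ht, l3⟩ := hn2
    have hav : ∀ s ∈ Icc 0 T, v s = a s :=
      str_unique huni (S.frn n) S.nu S.T0 S.T0 le_rfl (S.Fnc n) k1 l1 (l2.trans k2.symm)
    have hbw : ∀ s ∈ Icc 0 T, b s = w s := fun s hs => by
      have h1 := l1.mem s hs
      rw [← hav s hs] at h1
      exact grad_unique (S.frn n) h1 (k1.mem s hs)
    refine ⟨v, v1, w, w1, k1, k2, k3, t, ht, ?_⟩
    rw [hav t ht, ← hbw t ht]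
    intro hh
    exact absurd hh.2 (not_le.mpr (l3 hh.1))
  obtain ⟨n0, a0, a01, b0, b01, hn0⟩ := hbad.exists
  have hch : ∀ n, ∃ (v v1 : ℝ → H) (w w1 : ℝ → K), (∃ (v v1 : ℝ → H) (w w1 : ℝ → K),
      Str (V n) m ν T (Fn n) v v1 w w1 ∧ v 0 = x n ∧ (∀ t ∈ Icc 0 T, ‖w t‖ ≤ R) ∧
      ∃ t ∈ Icc 0 T, ¬ (‖v t - u t‖ ≤ ε ∧ ‖w t - z t‖ ≤ ε)) →
      (Str (V n) m ν T (Fn n) v v1 w w1 ∧ v 0 = x n ∧ (∀ t ∈ Icc 0 T, ‖w t‖ ≤ R) ∧
      ∃ t ∈ Icc 0 T, ¬ (‖v t - u t‖ ≤ ε ∧ ‖w t - z t‖ ≤ ε)) := by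
    intro n
    by_cases hc : ∃ (v v1 : ℝ → H) (w w1 : ℝ → K),
      Str (V n) m ν T (Fn n) v v1 w w1 ∧ v 0 = x n ∧ (∀ t ∈ Icc 0 T, ‖w t‖ ≤ R) ∧
      ∃ t ∈ Icc 0 T, ¬ (‖v t - u t‖ ≤ ε ∧ ‖w t - z t‖ ≤ ε)
    · obtain ⟨v, v1, w, w1, hc'⟩ := hc
      exact ⟨v, v1, w, w1, fun _ => hc'⟩
    · exact ⟨0, 0, 0, 0, fun h => absurd h hc⟩
  choose v v1 w w1 hvw using hch
  have hev : ∀ᶠ n in (U : Filter ℕ), Str (V n) m ν T (Fn n) (v n) (v1 n) (w n) (w1 n) ∧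
      v n 0 = x n ∧ (∀ t ∈ Icc 0 T, ‖w n t‖ ≤ R) ∧
      ∃ t ∈ Icc 0 T, ¬ (‖v n t - u t‖ ≤ ε ∧ ‖w n t - z t‖ ≤ ε) := by
    filter_upwards [hbad] with n hn
    exact hvw n hn
  obtain ⟨a, a1, b, b1, k1, k2, k3⟩ := S.lim S.T0 le_rfl U hU (R := R) (u := v) (u1 := v1)
    (z := w) (z1 := w1) (by
      filter_upwards [hev] with n hn
      exact ⟨hn.1, hn.2.1, hn.2.2.1⟩)
  have hua : ∀ s ∈ Icc 0 T, u s = a s :=
    str_unique huni S.fr0 S.nu S.T0 S.T0 le_rfl S.Fc h k1 (k2.trans h0.symm)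
  have hzb : ∀ s ∈ Icc 0 T, b s = z s := fun s hs => by
    have h1 := k1.mem s hs
    rw [← hua s hs] at h1
    exact grad_unique S.fr0 h1 (h.mem s hs)
  obtain ⟨n, hn, hn2⟩ := (hev.and (k3 ε hε)).exists
  obtain ⟨-, -, -, t, ht, hbadt⟩ := hn
  have := hn2 t ht
  rw [← hua t ht, hzb t ht] at this
  exact hbadt this

/-- the peak enstrophy -/
noncomputable def pk (V : Submodule ℝ (H × K)) (m : H → K) (ν T : ℝ) (F : ℝ → K) (x : H) : ℝ≥0∞ :=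
  sInf {P | ∃ (u u1 : ℝ → H) (z z1 : ℝ → K), Str V m ν T F u u1 z z1 ∧ u 0 = x ∧
    P = ⨆ t ∈ Icc 0 T, ‖z t‖ₑ}

theorem pk_eq (huni : S_uni) (Fr : Frame W m C) (hν : 0 < ν) (hT : 0 < T)
    (hF : ContinuousOn F (Icc 0 T)) {u u1 : ℝ → H} {z z1 : ℝ → K}
    (S : Str W m ν T F u u1 z z1) : pk W m ν T F (u 0) = ⨆ t ∈ Icc 0 T, ‖z t‖ₑ := by
  refine le_antisymm (sInf_le ⟨u, u1, z, z1, S, rfl, rfl⟩) (le_sInf ?_)
  rintro P ⟨v, v1, w, w1, S', h0, rfl⟩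
  have h1 := str_unique huni Fr hν hT hT le_rfl hF S S' h0
  refine le_of_eq ?_
  refine iSup_congr fun t => iSup_congr fun ht => ?_
  have h2 := S'.mem t ht
  rw [← h1 t ht] at h2
  rw [grad_unique Fr h2 (S.mem t ht)]

theorem pk_top (h : ¬ ∃ (u u1 : ℝ → H) (z z1 : ℝ → K), Str W m ν T F u u1 z z1 ∧ u 0 = x0) :
    pk W m ν T F x0 = ⊤ := by
  have : {P | ∃ (u u1 : ℝ → H) (z z1 : ℝ → K), Str W m ν T F u u1 z z1 ∧ u 0 = x0 ∧
    P = ⨆ t ∈ Icc 0 T, ‖z t‖ₑ} = ∅ := by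
    ext P
    constructor
    · rintro ⟨u, u1, z, z1, k1, k2, -⟩
      exact h ⟨u, u1, z, z1, k1, k2⟩
    · exact fun h => h.elim
  unfold pk
  rw [this, sInf_empty]

theorem sup_ne_top {z : ℝ → K} (hz : ContinuousOn z (Icc 0 T)) :
    (⨆ t ∈ Icc 0 T, ‖z t‖ₑ) ≠ ⊤ := by
  obtain ⟨R1, hR1⟩ : ∃ R1, ∀ s ∈ Icc 0 T, ‖z s‖ ≤ R1 := by
    obtain ⟨Φ, hΦ⟩ := (isCompact_Icc.image_of_continuousOn hz).isBounded.exists_norm_le
    exact ⟨Φ, fun s hs => hΦ _ ⟨s, hs, rfl⟩⟩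
  have : (⨆ t ∈ Icc 0 T, ‖z t‖ₑ) ≤ ENNReal.ofReal R1 := by
    refine iSup₂_le fun t ht => ?_
    rw [← ofReal_norm]
    exact ENNReal.ofReal_le_ofReal (hR1 t ht)
  exact ne_top_of_le_ne_top ENNReal.ofReal_ne_top this

/-- **Continuity of the peak.** -/
theorem Setup.peak (hloc : S_loc) (huni : S_uni)
    (S : Setup W V V0 m C ν T Fn F1n F x g y x0 M B) :
    Tendsto (fun n => pk (V n) m ν T (Fn n) (x n)) atTop (𝓝 (pk V0 m ν T F x0)) := by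
  classical
  by_cases hc : ∃ (u u1 : ℝ → H) (z z1 : ℝ → K), Str V0 m ν T F u u1 z z1 ∧ u 0 = x0
  · obtain ⟨u, u1, z, z1, h, h0⟩ := hc
    have hzc : ContinuousOn z (Icc 0 T) := prim_cont h.z1m h.pz
    have e0 := pk_eq huni S.fr0 S.nu S.T0 S.Fc h
    rw [h0] at e0
    rw [e0, ENNReal.tendsto_nhds (sup_ne_top hzc)]
    intro ε hε
    by_cases hεt : ε = ⊤
    · rw [hεt]
      refine Eventually.of_forall fun n => ⟨?_, ?_⟩
      · rw [ENNReal.sub_top]; exact bot_le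
      · rw [add_top]; exact le_top
    have hε' : 0 < ε.toReal := ENNReal.toReal_pos hε.ne' hεt
    filter_upwards [S.stab hloc huni h h0 hε'] with n hn
    obtain ⟨⟨v, v1, w, w1, k1, k2⟩, hn2⟩ := hn
    have e1 := pk_eq huni (S.frn n) S.nu S.T0 (S.Fnc n) k1
    rw [k2] at e1
    have hd : ∀ t ∈ Icc 0 T, ‖w t - z t‖ₑ ≤ ε := by
      intro t ht
      rw [← ofReal_norm, ← ENNReal.ofReal_toReal hεt]
      exact ENNReal.ofReal_le_ofReal (hn2 v v1 w w1 k1 k2 t ht).2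
    rw [e1]
    constructor
    · rw [tsub_le_iff_right]
      refine iSup₂_le fun t ht => ?_
      have h1 : ‖z t‖ₑ ≤ ‖w t‖ₑ + ‖w t - z t‖ₑ := by
        have e : z t = w t - (w t - z t) := by abel
        calc ‖z t‖ₑ = ‖w t - (w t - z t)‖ₑ := by rw [← e]
          _ ≤ ‖w t‖ₑ + ‖w t - z t‖ₑ := enorm_sub_le
      exact h1.trans (add_le_add (le_iSup₂ (f := fun t (_ : t ∈ Icc 0 T) => ‖w t‖ₑ) t ht)
        (hd t ht))
    · refine iSup₂_le fun t ht => ?_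
      have h1 : ‖w t‖ₑ ≤ ‖z t‖ₑ + ‖w t - z t‖ₑ := by
        have e : w t = z t + (w t - z t) := by abel
        calc ‖w t‖ₑ = ‖z t + (w t - z t)‖ₑ := by rw [← e]
          _ ≤ ‖z t‖ₑ + ‖w t - z t‖ₑ := enorm_add_le _ _
      exact h1.trans (add_le_add (le_iSup₂ (f := fun t (_ : t ∈ Icc 0 T) => ‖z t‖ₑ) t ht)
        (hd t ht))
  · rw [pk_top hc, ENNReal.tendsto_nhds_top_iff_nnreal]
    intro R
    by_contra hcon
    rw [Filter.not_eventually] at hcon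
    obtain ⟨U, hU, hUP⟩ := exists_ultra hcon
    have hex : ∀ᶠ n in (U : Filter ℕ), ∃ (v v1 : ℝ → H) (w w1 : ℝ → K),
        Str (V n) m ν T (Fn n) v v1 w w1 ∧ v 0 = x n ∧ ∀ t ∈ Icc 0 T, ‖w t‖ ≤ R := by
      filter_upwards [hUP] with n hn
      rw [not_lt] at hn
      have hne : ∃ (v v1 : ℝ → H) (w w1 : ℝ → K), Str (V n) m ν T (Fn n) v v1 w w1 ∧
          v 0 = x n := by
        by_contra hno
        rw [pk_top hno] at hn
        exact absurd hn (by simp)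
      obtain ⟨v, v1, w, w1, k1, k2⟩ := hne
      have e1 := pk_eq huni (S.frn n) S.nu S.T0 (S.Fnc n) k1
      rw [k2] at e1
      rw [e1] at hn
      refine ⟨v, v1, w, w1, k1, k2, fun t ht => ?_⟩
      have h1 : ‖w t‖ₑ ≤ (R : ℝ≥0∞) :=
        (le_iSup₂ (f := fun t (_ : t ∈ Icc 0 T) => ‖w t‖ₑ) t ht).trans hn
      rw [← ofReal_norm, ENNReal.ofReal_le_coe] at h1
      exact h1
    have hch : ∀ n, ∃ (v v1 : ℝ → H) (w w1 : ℝ → K), (∃ (v v1 : ℝ → H) (w w1 : ℝ → K),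
        Str (V n) m ν T (Fn n) v v1 w w1 ∧ v 0 = x n ∧ (∀ t ∈ Icc 0 T, ‖w t‖ ≤ R)) →
        (Str (V n) m ν T (Fn n) v v1 w w1 ∧ v 0 = x n ∧ (∀ t ∈ Icc 0 T, ‖w t‖ ≤ R)) := by
      intro n
      by_cases hc : ∃ (v v1 : ℝ → H) (w w1 : ℝ → K),
        Str (V n) m ν T (Fn n) v v1 w w1 ∧ v 0 = x n ∧ (∀ t ∈ Icc 0 T, ‖w t‖ ≤ R)
      · obtain ⟨v, v1, w, w1, hc'⟩ := hc
        exact ⟨v, v1, w, w1, fun _ => hc'⟩
      · exact ⟨0, 0, 0, 0, fun h => absurd h hc⟩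
    choose v v1 w w1 hvw using hch
    obtain ⟨a, a1, b, b1, k1, k2, k3⟩ := S.lim S.T0 le_rfl U hU (R := R) (u := v) (u1 := v1)
      (z := w) (z1 := w1) (by
        filter_upwards [hex] with n hn
        exact hvw n hn)
    exact hc ⟨a, a1, b, b1, k1, k2⟩

end Pool.Agent.X75C
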