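import Pool.Agent.X75C.Exh

/-!
Dilations, and Mosco convergence of domains which are sandwiched by dilations.
-/

set_option autoImplicit false
set_option linter.unusedSectionVars false

open MeasureTheory Set Filter Topology
open scoped InnerProductSpace NNReal ENNReal ContDiff

namespace Pool.Agent.X75C

open H772R2.NS H772R2.NS.Pub
open H772R2.NSR (Frame exists_frame exists_pair grad_unique exists_weak_limit mem_of_weak_limit)
open Pool.Agent.W795.TQ

section dil

variable {F : Type} [NormedAddCommGroup F]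

theorem map_le {c : ℝ} (hc : 1 ≤ c) :
    Measure.map (fun x : E3 => c • x) (volume : Measure E3) ≤ volume := by
  have hc0 : c ≠ 0 := by linarith
  rw [Measure.map_addHaar_smul _ hc0]
  intro s
  rw [Measure.smul_apply, smul_eq_mul]
  have h1 : |(c ^ Module.finrank ℝ E3)⁻¹| ≤ 1 := by
    rw [abs_of_nonneg (by positivity)]
    exact inv_le_one_of_one_le₀ (one_le_pow₀ hc)
  calc ENNReal.ofReal |(c ^ Module.finrank ℝ E3)⁻¹| * volume s
      ≤ 1 * volume s := by
        gcongr
        exact ENNReal.ofReal_le_one.mpr h1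
    _ = volume s := one_mul _

theorem dil_le {c : ℝ} (hc : 1 ≤ c) {f : E3 → F}
    (hf : AEStronglyMeasurable f (volume : Measure E3)) :
    eLpNorm (fun x => f (c • x)) 2 (volume : Measure E3) ≤ eLpNorm f 2 volume := by
  have h1 : AEStronglyMeasurable f (Measure.map (fun x : E3 => c • x) volume) :=
    hf.mono_measure (map_le hc)
  have h2 : AEMeasurable (fun x : E3 => c • x) volume := (measurable_const_smul c).aemeasurable
  have h3 := eLpNorm_map_measure (p := 2) h1 h2
  calc eLpNorm (fun x => f (c • x)) 2 (volume : Measure E3)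
      = eLpNorm f 2 (Measure.map (fun x : E3 => c • x) volume) := h3.symm
    _ ≤ eLpNorm f 2 volume := eLpNorm_mono_measure _ (map_le hc)

theorem dil_meas {c : ℝ} (hc : 1 ≤ c) {f : E3 → F}
    (hf : AEStronglyMeasurable f (volume : Measure E3)) :
    AEStronglyMeasurable (fun x => f (c • x)) (volume : Measure E3) := by
  have h1 : AEStronglyMeasurable f (Measure.map (fun x : E3 => c • x) volume) :=
    hf.mono_measure (map_le hc)
  exact h1.comp_measurable (measurable_const_smul c)

/-- continuity of dilations on continuous functions with compact support -/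
theorem dil_cont {g : E3 → F} (hg : Continuous g) (hs : HasCompactSupport g) {c : ℕ → ℝ}
    (hc1 : ∀ n, 1 ≤ c n) (hc : Tendsto c atTop (𝓝 1)) :
    Tendsto (fun n => eLpNorm (fun x => g (c n • x) - g x) 2 (volume : Measure E3)) atTop
      (𝓝 0) := by
  obtain ⟨R, hR⟩ := hs.isBounded.subset_closedBall (0 : E3)
  set A : Set E3 := Metric.closedBall 0 R with hA
  have hAm : MeasurableSet A := Metric.isClosed_closedBall.measurableSet
  have hAf : volume A < ⊤ := Metric.isBounded_closedBall.measure_lt_top
  have hzero : ∀ x, x ∉ A → g x = 0 := fun x hx =>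
    image_eq_zero_of_notMem_tsupport fun h => hx (hR h)
  set K : ℝ≥0∞ := volume A ^ (1 / (2 : ℝ≥0∞).toReal) with hK
  have hKt : K ≠ ⊤ := by
    rw [hK]
    exact ENNReal.rpow_ne_top_of_nonneg (by positivity) hAf.ne
  have huc := hs.uniformContinuous_of_continuous hg
  rw [ENNReal.tendsto_nhds_zero]
  intro ε hε
  -- a small real number
  obtain ⟨δ, hδ, hδε⟩ : ∃ δ : ℝ, 0 < δ ∧ K * ENNReal.ofReal δ ≤ ε := by
    by_cases hεt : ε = ⊤
    · exact ⟨1, one_pos, by rw [hεt]; exact le_top⟩
    refine ⟨ε.toReal / (K.toReal + 1), ?_, ?_⟩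
    · have := ENNReal.toReal_pos hε.ne' hεt
      positivity
    · rw [← ENNReal.ofReal_toReal hKt, ← ENNReal.ofReal_mul ENNReal.toReal_nonneg]
      refine ENNReal.ofReal_le_of_le_toReal ?_
      rw [ENNReal.toReal_ofReal ENNReal.toReal_nonneg, mul_div_assoc',
        div_le_iff₀ (by positivity)]
      have h1 : 0 ≤ ε.toReal := ENNReal.toReal_nonneg
      have h2 : 0 ≤ K.toReal := ENNReal.toReal_nonneg
      nlinarith
  obtain ⟨η, hη, hηg⟩ := Metric.uniformContinuous_iff.mp huc δ hδ
  have hR1 : 0 < |R| + 1 := by positivity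
  have hev : ∀ᶠ n in atTop, |c n - 1| < η / (|R| + 1) := by
    have := (Metric.tendsto_nhds.mp hc) (η / (|R| + 1)) (by positivity)
    simpa only [Real.dist_eq] using this
  filter_upwards [hev] with n hn
  have hsupp : (fun x => g (c n • x) - g x) = A.indicator (fun x => g (c n • x) - g x) := by
    funext x
    by_cases hx : x ∈ A
    · rw [indicator_of_mem hx]
    · have h1 : c n • x ∉ A := by
        rw [hA, mem_closedBall_zero_iff, not_le] at hx ⊢
        rw [norm_smul, Real.norm_eq_abs, abs_of_nonneg (by linarith [hc1 n])]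
        have := norm_nonneg x
        nlinarith [hc1 n]
      rw [indicator_of_notMem hx, hzero _ hx, hzero _ h1, sub_zero]
  rw [hsupp, eLpNorm_indicator_eq_eLpNorm_restrict hAm]
  refine (eLpNorm_le_of_ae_bound (C := δ) ?_).trans ?_
  · filter_upwards [ae_restrict_mem hAm] with x hx
    have h1 : dist (c n • x) x < η := by
      rw [dist_eq_norm]
      have e : c n • x - x = (c n - 1) • x := by rw [sub_smul, one_smul]
      rw [e, norm_smul, Real.norm_eq_abs]
      rw [hA, mem_closedBall_zero_iff] at hx
      have h2 : ‖x‖ ≤ |R| := hx.trans (le_abs_self R)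
      rw [lt_div_iff₀ hR1] at hn
      have h3 := abs_nonneg (c n - 1)
      nlinarith [norm_nonneg x]
    have h2 := hηg h1
    rw [dist_eq_norm] at h2
    exact h2.le
  · rw [Measure.restrict_apply_univ]
    have e : volume A ^ ((2 : ℝ≥0∞).toReal⁻¹) = K := by rw [hK, one_div]
    rw [e]
    exact hδε

/-- continuity of dilations on `L²` -/
theorem dil_tendsto {f : E3 → F} (hf : MemLp f 2 (volume : Measure E3)) [NormedSpace ℝ F]
    {c : ℕ → ℝ} (hc1 : ∀ n, 1 ≤ c n) (hc : Tendsto c atTop (𝓝 1)) :
    Tendsto (fun n => eLpNorm (fun x => f (c n • x) - f x) 2 (volume : Measure E3)) atTop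
      (𝓝 0) := by
  rw [ENNReal.tendsto_nhds_zero]
  intro ε hε
  have hε3 : ε / 3 ≠ 0 := by
    simp only [ne_eq, ENNReal.div_eq_zero_iff, not_or]
    exact ⟨hε.ne', by norm_num⟩
  obtain ⟨g, hgs, hfg, hgc, hgL⟩ := hf.exists_hasCompactSupport_eLpNorm_sub_le (by norm_num) hε3
  have h1 := ENNReal.tendsto_nhds_zero.mp (dil_cont hgc hgs hc1 hc) (ε / 3)
    (pos_iff_ne_zero.mpr hε3)
  filter_upwards [h1] with n hn
  have hm1 : AEStronglyMeasurable (f - g) (volume : Measure E3) := (hf.sub hgL).aestronglyMeasurable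
  have hd := dil_le (hc1 n) hm1
  have hdm := dil_meas (hc1 n) hm1
  have hdg := dil_meas (hc1 n) hgL.aestronglyMeasurable
  have e : (fun x => f (c n • x) - f x) = (fun x => (f - g) (c n • x))
      + ((fun x => g (c n • x) - g x) + (fun x => -((f - g) x))) := by
    funext x
    simp only [Pi.add_apply, Pi.sub_apply]
    abel
  rw [e]
  refine (eLpNorm_add_le hdm ((hdg.sub hgL.aestronglyMeasurable).add hm1.neg) (by norm_num)).trans ?_
  refine (add_le_add le_rfl (eLpNorm_add_le (hdg.sub hgL.aestronglyMeasurable) hm1.neg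
    (by norm_num))).trans ?_
  have h5 : eLpNorm (fun x => -((f - g) x)) 2 (volume : Measure E3) = eLpNorm (f - g) 2 volume :=
    eLpNorm_neg _ _ _
  calc eLpNorm (fun x => (f - g) (c n • x)) 2 volume + (eLpNorm (fun x => g (c n • x) - g x) 2 volume
      + eLpNorm (fun x => -((f - g) x)) 2 volume)
      ≤ ε / 3 + (ε / 3 + ε / 3) := by
        rw [h5]
        exact add_le_add (hd.trans hfg) (add_le_add hn hfg)
    _ = ε := by rw [← add_assoc]; exact ENNReal.add_thirds ε

end dil

end Pool.Agent.X75C
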