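import Pool.Agent.X75C.Strong

/-!
Distances of extensions by zero, restrictions.
-/

set_option autoImplicit false
set_option linter.unusedSectionVars false

open MeasureTheory Set Filter Topology
open scoped InnerProductSpace NNReal ENNReal ContDiff

namespace Pool.Agent.X75C

open H772R2.NS
open H772R2.NSR (Frame exists_frame exists_pair grad_unique)
open Pool.Agent.W795.TQ

variable {E : Type} [NormedAddCommGroup E] [InnerProductSpace ℝ E] {A B D Ω : Set E3}

theorem eLp_eq (hD : MeasurableSet D) (hΩ : MeasurableSet Ω) (hB : MeasurableSet B) (h1 : D ⊆ B)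
    (h2 : Ω ⊆ B) (v : Lp E 2 ((volume : Measure E3).restrict D))
    (w : Lp E 2 ((volume : Measure E3).restrict Ω)) :
    eLpNorm (fun x => D.indicator v x - Ω.indicator w x) 2 (volume : Measure E3)
      = ‖ext E hD h1 v - ext E hΩ h2 w‖ₑ := by
  have e : (fun x => D.indicator v x - Ω.indicator w x)
      = B.indicator (fun x => D.indicator v x - Ω.indicator w x) := by
    funext x
    by_cases hx : x ∈ B
    · rw [indicator_of_mem hx]
    · rw [indicator_of_notMem hx, indicator_of_notMem (fun h => hx (h1 h)),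
        indicator_of_notMem (fun h => hx (h2 h)), sub_zero]
  rw [e, eLpNorm_indicator_eq_eLpNorm_restrict hB, Lp.enorm_def]
  refine eLpNorm_congr_ae ?_
  filter_upwards [Lp.coeFn_sub (ext E hD h1 v) (ext E hΩ h2 w), ext_coe hD h1 v,
    ext_coe hΩ h2 w] with x a1 a2 a3
  rw [a1, Pi.sub_apply, a2, a3]

theorem ext_comp (hD : MeasurableSet D) (hB : MeasurableSet B) (h1 : D ⊆ B) (h2 : B ⊆ A)
    (v : Lp E 2 ((volume : Measure E3).restrict D)) :
    ext E hB h2 (ext E hD h1 v) = ext E hD (h1.trans h2) v := by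
  apply Lp.ext
  filter_upwards [ext_coe hB h2 (ext E hD h1 v), ind_congr hB h2 (ext_coe hD h1 v),
    ext_coe hD (h1.trans h2) v] with x a1 a2 a3
  rw [a1, a2, a3]
  by_cases hx : x ∈ B
  · rw [indicator_of_mem hx]
  · rw [indicator_of_notMem hx, indicator_of_notMem (fun h => hx (h1 h))]

variable [CompleteSpace E]

/-- restriction -/
noncomputable def rs (E : Type) [NormedAddCommGroup E] [InnerProductSpace ℝ E] [CompleteSpace E]
    (hD : MeasurableSet D) (h : D ⊆ B) :
    Lp E 2 ((volume : Measure E3).restrict B) →L[ℝ] Lp E 2 ((volume : Measure E3).restrict D) :=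
  ContinuousLinearMap.adjoint (ext E hD h).toContinuousLinearMap

theorem rs_inner (hD : MeasurableSet D) (h : D ⊆ B)
    (v : Lp E 2 ((volume : Measure E3).restrict B))
    (p : Lp E 2 ((volume : Measure E3).restrict D)) :
    ⟪rs E hD h v, p⟫_ℝ = ⟪v, ext E hD h p⟫_ℝ :=
  ContinuousLinearMap.adjoint_inner_left _ _ _

theorem rs_ext (hD : MeasurableSet D) (h : D ⊆ B)
    (p : Lp E 2 ((volume : Measure E3).restrict D)) : rs E hD h (ext E hD h p) = p :=
  adj_left _ _

theorem rs_le (hD : MeasurableSet D) (h : D ⊆ B)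
    (v : Lp E 2 ((volume : Measure E3).restrict B)) : ‖rs E hD h v‖ ≤ ‖v‖ := by
  have h1 : ‖rs E hD h v‖ ^ 2 ≤ ‖v‖ * ‖rs E hD h v‖ := by
    rw [← real_inner_self_eq_norm_sq, rs_inner]
    refine (real_inner_le_norm _ _).trans ?_
    rw [(ext E hD h).norm_map]
  rcases eq_or_lt_of_le (norm_nonneg (rs E hD h v)) with h2 | h2
  · rw [← h2]; exact norm_nonneg _
  · rw [sq] at h1
    exact le_of_mul_le_mul_right h1 h2

/-- the class of the restriction -/
theorem rs_eq (hD : MeasurableSet D) (h : D ⊆ B)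
    {v : Lp E 2 ((volume : Measure E3).restrict B)}
    {f : Lp E 2 ((volume : Measure E3).restrict D)}
    (hf : f =ᵐ[(volume : Measure E3).restrict D] v) : f = rs E hD h v := by
  refine ext_inner_right ℝ fun p => ?_
  rw [rs_inner, L2.inner_def, L2.inner_def]
  have e1 : ∫ x, ⟪v x, (ext E hD h p) x⟫_ℝ ∂((volume : Measure E3).restrict B)
      = ∫ x, D.indicator (fun x => ⟪v x, p x⟫_ℝ) x ∂((volume : Measure E3).restrict B) := by
    refine integral_congr_ae ?_
    filter_upwards [ext_coe hD h p] with x hx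
    rw [hx]
    by_cases hxD : x ∈ D
    · rw [indicator_of_mem hxD, indicator_of_mem hxD]
    · rw [indicator_of_notMem hxD, indicator_of_notMem hxD, inner_zero_right]
  rw [e1, integral_indicator hD, Measure.restrict_restrict_of_subset h]
  refine integral_congr_ae ?_
  filter_upwards [hf] with x hx
  rw [hx]

theorem rs_coe (hD : MeasurableSet D) (h : D ⊆ B)
    (v : Lp E 2 ((volume : Measure E3).restrict B)) :
    (rs E hD h v : E3 → E) =ᵐ[(volume : Measure E3).restrict D] v := by
  have h1 : MemLp v 2 ((volume : Measure E3).restrict D) :=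
    (Lp.memLp v).mono_measure (Measure.restrict_mono h le_rfl)
  have h2 : h1.toLp _ = rs E hD h v := rs_eq hD h h1.coeFn_toLp
  rw [← h2]
  exact h1.coeFn_toLp

/-- the pairing with a force given in the whole space -/
theorem pair (hD : MeasurableSet D) (hB : MeasurableSet B) (h1 : D ⊆ B) (h2 : B ⊆ A)
    {Φ : Lp E 2 ((volume : Measure E3).restrict A)}
    {F : Lp E 2 ((volume : Measure E3).restrict D)}
    (hF : F =ᵐ[(volume : Measure E3).restrict D] Φ)
    (p : Lp E 2 ((volume : Measure E3).restrict D)) :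
    ⟪rs E hB h2 Φ, ext E hD h1 p⟫_ℝ = ⟪F, p⟫_ℝ := by
  rw [rs_inner, ext_comp, rs_eq hD (h1.trans h2) hF, rs_inner]

end Pool.Agent.X75C
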