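import Pool.Agent.X75C.Cont

/-!
Isometric embeddings of the equations.
-/

set_option autoImplicit false
set_option linter.unusedSectionVars false

open MeasureTheory Set Filter Topology
open scoped InnerProductSpace NNReal ENNReal

namespace Pool.Agent.X75C

open Pool.Agent.W795.TQ
open H772R2.NSR (Frame prim_cont memLp_ii ae_deriv_of_prim grad_unique)
open H772R2.NSG (ii_of_int)

variable {H K H' K' : Type} [NormedAddCommGroup H] [InnerProductSpace ℝ H] [CompleteSpace H]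
  [NormedAddCommGroup K] [InnerProductSpace ℝ K] [CompleteSpace K]
  [NormedAddCommGroup H'] [InnerProductSpace ℝ H'] [CompleteSpace H']
  [NormedAddCommGroup K'] [InnerProductSpace ℝ K'] [CompleteSpace K']
  {W : Submodule ℝ (H × K)} {m : H → K} {W' : Submodule ℝ (H' × K')} {m' : H' → K'}
  {C C' ν T : ℝ} {F : ℝ → K} {F' : ℝ → K'} {U : H' →ₗᵢ[ℝ] H} {V : K' →ₗᵢ[ℝ] K}

/-- an isometric embedding of the equations -/
structure Emb (W' : Submodule ℝ (H' × K')) (m' : H' → K') (W : Submodule ℝ (H × K)) (m : H → K)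
    (U : H' →ₗᵢ[ℝ] H) (V : K' →ₗᵢ[ℝ] K) : Prop where
  mem : ∀ p ∈ W', (U p.1, V p.2) ∈ W
  surj : ∀ p ∈ W, ∃ q ∈ W', U q.1 = p.1 ∧ V q.2 = p.2
  eqv : ∀ p ∈ W', m (U p.1) = V (m' p.1)

theorem Emb.up (E : Emb W' m' W m U V) (hF : ∀ t ∈ Icc 0 T, ∀ p ∈ W', ⟪F t, V p.2⟫_ℝ
      = ⟪F' t, p.2⟫_ℝ) {u u1 : ℝ → H'} {z z1 : ℝ → K'}
    (S : Str W' m' ν T F' u u1 z z1) :
    Str W m ν T F (fun t => U (u t)) (fun t => U (u1 t)) (fun t => V (z t))
      (fun t => V (z1 t)) := by
  have hU : ∀ x : H', U.toContinuousLinearMap x = U x := fun x => rfl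
  have hV : ∀ x : K', V.toContinuousLinearMap x = V x := fun x => rfl
  obtain ⟨c, hc⟩ := S.bd
  refine ⟨fun t ht => E.mem _ (S.mem t ht), ?_, ⟨c, ?_⟩, ?_, ?_, ?_, ?_, ?_, ?_⟩
  · filter_upwards [S.mem1] with t ht
    exact E.mem _ ht
  · filter_upwards [hc] with t ht
    rw [U.norm_map]; exact ht
  · exact U.toContinuousLinearMap.comp_memLp' S.u1m
  · exact V.toContinuousLinearMap.comp_memLp' S.z1m
  · intro a b ha hab hb
    have hi : IntervalIntegrable u1 volume a b :=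
      ii_of_int (S.u1m.integrable (by norm_num)) ha hab hb
    have h1 := U.toContinuousLinearMap.intervalIntegral_comp_comm hi
    simp only [hU] at h1
    rw [h1, ← S.pu a b ha hab hb, map_sub]
  · intro a b ha hab hb
    have hi : IntervalIntegrable z1 volume a b :=
      ii_of_int (S.z1m.integrable (by norm_num)) ha hab hb
    have h1 := V.toContinuousLinearMap.intervalIntegral_comp_comm hi
    simp only [hV] at h1
    rw [h1, ← S.pz a b ha hab hb, map_sub]
  · intro p hp t ht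
    obtain ⟨q, hq, e1, e2⟩ := E.surj p hp
    rw [← e1, ← map_sub, U.inner_map_map, S.weak q hq t ht]
    refine intervalIntegral.integral_congr fun s hs => ?_
    rw [uIcc_of_le ht.1] at hs
    have hs' : s ∈ Icc 0 T := ⟨hs.1, hs.2.trans ht.2⟩
    have e3 : m (U (u s)) = V (m' (u s)) := E.eqv _ (S.mem s hs')
    rw [← e2, e3, inner_add_left, inner_sub_left, inner_add_left, inner_sub_left,
      real_inner_smul_left, real_inner_smul_left, V.inner_map_map, V.inner_map_map,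
      hF s hs' q hq]
  · intro t ht
    have e2 : ∫ s in (0 : ℝ)..t, ⟪F s, V (z s)⟫_ℝ = ∫ s in (0 : ℝ)..t, ⟪F' s, z s⟫_ℝ := by
      refine intervalIntegral.integral_congr fun s hs => ?_
      rw [uIcc_of_le ht.1] at hs
      exact hF s ⟨hs.1, hs.2.trans ht.2⟩ _ (S.mem s ⟨hs.1, hs.2.trans ht.2⟩)
    rw [e2]
    simp only [U.norm_map, V.norm_map]
    exact S.energy t ht

/-- the adjoint of an isometry is a left inverse -/
theorem adj_left (U : H' →ₗᵢ[ℝ] H) (x : H') :
    ContinuousLinearMap.adjoint U.toContinuousLinearMap (U x) = x := by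
  refine ext_inner_right ℝ fun y => ?_
  rw [ContinuousLinearMap.adjoint_inner_left]
  exact U.inner_map_map x y

theorem Emb.down (E : Emb W' m' W m U V) (Fr' : Frame W' m' C') (hT : 0 < T)
    (hF' : ContinuousOn F' (Icc 0 T)) (hF : ∀ t ∈ Icc 0 T, ∀ p ∈ W', ⟪F t, V p.2⟫_ℝ
      = ⟪F' t, p.2⟫_ℝ) {u u1 : ℝ → H} {z z1 : ℝ → K}
    (S : Str W m ν T F u u1 z z1) :
    ∃ (v v1 : ℝ → H') (w w1 : ℝ → K'), Str W' m' ν T F' v v1 w w1 ∧
      ∀ t ∈ Icc 0 T, U (v t) = u t ∧ V (w t) = z t := by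
  set A := ContinuousLinearMap.adjoint U.toContinuousLinearMap with hA
  set B := ContinuousLinearMap.adjoint V.toContinuousLinearMap with hB
  have hAU : ∀ x, A (U x) = x := adj_left U
  have hBV : ∀ x, B (V x) = x := adj_left V
  have hAi : ∀ (y : H) (x : H'), ⟪A y, x⟫_ℝ = ⟪y, U x⟫_ℝ := fun y x =>
    ContinuousLinearMap.adjoint_inner_left _ _ _
  have hBi : ∀ (y : K) (x : K'), ⟪B y, x⟫_ℝ = ⟪y, V x⟫_ℝ := fun y x =>
    ContinuousLinearMap.adjoint_inner_left _ _ _
  have key : ∀ p ∈ W, (A p.1, B p.2) ∈ W' ∧ U (A p.1) = p.1 ∧ V (B p.2) = p.2 := by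
    intro p hp
    obtain ⟨q, hq, e1, e2⟩ := E.surj p hp
    rw [← e1, ← e2, hAU, hBV]
    exact ⟨hq, rfl, rfl⟩
  obtain ⟨c, hc⟩ := S.bd
  refine ⟨fun t => A (u t), fun t => A (u1 t), fun t => B (z t), fun t => B (z1 t),
    str_of_weak Fr' hT hF' (fun t ht => (key _ (S.mem t ht)).1) ?_ ⟨c, ?_⟩ (A.comp_memLp' S.u1m)
      (B.comp_memLp' S.z1m) ?_ ?_ ?_, fun t ht => (key _ (S.mem t ht)).2⟩
  · filter_upwards [S.mem1] with t ht
    exact (key _ ht).1
  · filter_upwards [hc, S.mem1] with t ht ht2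
    have h1 := (key _ ht2).2.1
    rw [← U.norm_map, h1]
    exact ht
  · intro a b ha hab hb
    have hi : IntervalIntegrable u1 volume a b :=
      ii_of_int (S.u1m.integrable (by norm_num)) ha hab hb
    have h1 := A.intervalIntegral_comp_comm hi
    rw [h1, ← S.pu a b ha hab hb, map_sub]
  · intro a b ha hab hb
    have hi : IntervalIntegrable z1 volume a b :=
      ii_of_int (S.z1m.integrable (by norm_num)) ha hab hb
    have h1 := B.intervalIntegral_comp_comm hi
    rw [h1, ← S.pz a b ha hab hb, map_sub]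
  · intro p hp t ht
    have h1 := S.weak _ (E.mem p hp) t ht
    simp only at h1
    rw [← map_sub, hAi, h1]
    refine intervalIntegral.integral_congr fun s hs => ?_
    rw [uIcc_of_le ht.1] at hs
    have hs' : s ∈ Icc 0 T := ⟨hs.1, hs.2.trans ht.2⟩
    obtain ⟨k1, k2, k3⟩ := key _ (S.mem s hs')
    simp only at k1 k2 k3
    have e3 : m (u s) = V (m' (A (u s))) := by
      rw [← E.eqv _ k1]
      simp only [k2]
    rw [e3, inner_add_left, inner_sub_left, inner_add_left, inner_sub_left,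
      real_inner_smul_left, real_inner_smul_left, V.inner_map_map, hBi, hF s hs' p hp]

theorem Emb.pk (E : Emb W' m' W m U V) (Fr' : Frame W' m' C') (hT : 0 < T)
    (hF' : ContinuousOn F' (Icc 0 T)) (hF : ∀ t ∈ Icc 0 T, ∀ p ∈ W', ⟪F t, V p.2⟫_ℝ
      = ⟪F' t, p.2⟫_ℝ) (x : H') : X75C.pk W m ν T F (U x) = X75C.pk W' m' ν T F' x := by
  unfold X75C.pk
  congr 1
  ext P
  constructor
  · rintro ⟨u, u1, z, z1, S, h0, rfl⟩
    obtain ⟨v, v1, w, w1, S', h1⟩ := E.down Fr' hT hF' hF S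
    refine ⟨v, v1, w, w1, S', ?_, ?_⟩
    · apply U.injective
      rw [(h1 0 ⟨le_rfl, hT.le⟩).1, h0]
    · refine iSup_congr fun t => iSup_congr fun ht => ?_
      rw [← (h1 t ht).2]
      exact V.enorm_map _
  · rintro ⟨u, u1, z, z1, S, h0, rfl⟩
    refine ⟨_, _, _, _, E.up hF S, by rw [h0], ?_⟩
    refine iSup_congr fun t => iSup_congr fun ht => ?_
    exact (V.enorm_map _).symm

end Pool.Agent.X75C
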