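import Pool.Agent.X75C.Mos

/-!
Increasing sequences of domains converge in the sense of Mosco.
-/

set_option autoImplicit false
set_option linter.unusedSectionVars false

open MeasureTheory Set Filter Topology
open scoped InnerProductSpace NNReal ENNReal ContDiff

namespace Pool.Agent.X75C

open H772R2.NS H772R2.NS.Pub
open H772R2.NSR (Frame exists_frame exists_pair grad_unique exists_weak_limit mem_of_weak_limit)
open Pool.Agent.W795.TQ

theorem ext_self {E : Type} [NormedAddCommGroup E] [InnerProductSpace ℝ E] {B : Set E3}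
    (hB : MeasurableSet B) (v : Lp E 2 ((volume : Measure E3).restrict B)) :
    ext E hB Subset.rfl v = v := by
  apply Lp.ext
  filter_upwards [ext_coe hB Subset.rfl v, ae_restrict_mem hB] with x h1 h2
  rw [h1, indicator_of_mem h2]

/-- upper part of Mosco convergence for subdomains -/
theorem upper_sub {D : ℕ → Set E3} {Ω : Set E3} (hD : ∀ n, IsOpen (D n)) (hΩ : IsOpen Ω)
    (hsub : ∀ n, D n ⊆ Ω) (p : ∀ n, L2V (D n) × L2M (D n)) (hp : ∀ n, p n ∈ graphW (D n)) {M : ℝ}
    (hM : ∀ n, ‖(p n).2‖ ≤ M) (v : L2V univ)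
    (hv : Tendsto (fun n => ‖ext E3 (hD n).measurableSet (subset_univ _) (p n).1 - v‖ₑ) atTop
      (𝓝 0)) :
    ∃ q ∈ graphW Ω, ext E3 hΩ.measurableSet (subset_univ Ω) q.1 = v := by
  have hΩm := hΩ.measurableSet
  set P : ℕ → L2V Ω × L2M Ω := fun n => ext2 (hD n).measurableSet (hsub n) (p n) with hP
  have hPm : ∀ n, P n ∈ graphW Ω := fun n => ext_mem _ _ (hp n)
  set w : L2V Ω := rs E3 hΩm (subset_univ Ω) v with hw
  have hv' : Tendsto (fun n => ext E3 (hD n).measurableSet (subset_univ _) (p n).1) atTop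
      (𝓝 v) := by
    rw [tendsto_iff_edist_tendsto_0]
    simpa only [edist_eq_enorm_sub] using hv
  have hP1 : ∀ n, (P n).1 = rs E3 hΩm (subset_univ Ω)
      (ext E3 (hD n).measurableSet (subset_univ _) (p n).1) := by
    intro n
    have e1 : (P n).1 = ext E3 (hD n).measurableSet (hsub n) (p n).1 := rfl
    rw [e1, ← ext_comp (hD n).measurableSet hΩm (hsub n) (subset_univ Ω), rs_ext]
  have hlim : Tendsto (fun n => (P n).1) atTop (𝓝 w) := by
    have h1 := ((rs E3 hΩm (subset_univ Ω)).continuous.tendsto v).comp hv'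
    refine h1.congr fun n => ?_
    rw [hP1 n]
    rfl
  have hextw : ext E3 hΩm (subset_univ Ω) w = v := by
    have h1 := ((ext E3 hΩm (subset_univ Ω)).continuous.tendsto w).comp hlim
    refine tendsto_nhds_unique h1 (hv'.congr fun n => ?_)
    have e1 : (P n).1 = ext E3 (hD n).measurableSet (hsub n) (p n).1 := rfl
    simp only [Function.comp]
    rw [e1, ext_comp]
  set U : Ultrafilter ℕ := Ultrafilter.of atTop with hU
  have hUle : (U : Filter ℕ) ≤ atTop := Ultrafilter.of_le _
  obtain ⟨z, -, hz⟩ := exists_weak_limit U (fun n => (P n).2) M (Eventually.of_forall fun n => by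
    have e1 : (P n).2 = ext M3 (hD n).measurableSet (hsub n) (p n).2 := rfl
    rw [e1, (ext M3 (hD n).measurableSet (hsub n)).norm_map]
    exact hM n)
  have hmem : (w, z) ∈ graphW Ω := mem_of_weak_limit (graphW Ω) (graphW_closed Ω) (U : Filter ℕ)
    (fun n => (P n).1) (fun n => (P n).2) w z (Eventually.of_forall hPm)
    (fun y => (hlim.mono_left hUle).inner tendsto_const_nhds) hz
  exact ⟨(w, z), hmem, hextw⟩

theorem mosco_exh {D : ℕ → Set E3} {Ω : Set E3} (hD : ∀ n, IsOpen (D n)) (hmono : Monotone D)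
    (hΩ : Ω = ⋃ n, D n) :
    Mosco D Ω := by
  have hsub : ∀ n, D n ⊆ Ω := fun n => by rw [hΩ]; exact subset_iUnion D n
  have hΩo : IsOpen Ω := by rw [hΩ]; exact isOpen_iUnion hD
  have hΩm := hΩo.measurableSet
  constructor
  · rintro (p : L2V Ω × L2M Ω) hp ε hε
    have hp' : p ∈ graphW Ω := mem_pub.mpr hp
    have hcl : p ∈ closure (preW Ω : Set (L2V Ω × L2M Ω)) := by
      have := hp'
      unfold graphW at this
      rwa [← SetLike.mem_coe, Submodule.topologicalClosure_coe] at this
    obtain ⟨r, ⟨φ, k1, k2, k3⟩, hr⟩ := EMetric.mem_closure_iff.mp hcl ε hε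
    obtain ⟨N, hN⟩ := IsCompact.elim_directed_cover k1.compact D hD
      (by rw [← hΩ]; exact k1.supp) hmono.directed_le
    filter_upwards [eventually_ge_atTop N] with n hn
    have hφ : H772R2.NS.IsTest (D n) φ := ⟨k1.smooth, k1.compact, hN.trans (hmono hn), k1.divfree⟩
    obtain ⟨q, hq, q1, q2⟩ := exists_pair (Ω := D n) hφ
    have hDm := (hD n).measurableSet
    have e1 : ext E3 hDm (hsub n) q.1 = r.1 := by
      apply Lp.ext
      exact (ext_cls hDm (hsub n) q1 fun x hx => test_zero hφ hx).trans k2.symm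
    have e2 : ext M3 hDm (hsub n) q.2 = r.2 := by
      apply Lp.ext
      exact (ext_cls hDm (hsub n) q2 fun x hx => test_jac_zero hφ hx).trans k3.symm
    rw [edist_comm, Prod.edist_eq, max_lt_iff, edist_eq_enorm_sub, edist_eq_enorm_sub] at hr
    refine ⟨q, mem_pub.mp hq, ?_, ?_⟩
    · refine (dstV hDm hΩm hΩm (hsub n) Subset.rfl q.1 p.1).le.trans ?_
      rw [ext_self, e1]
      exact hr.1.le
    · refine (dstM hDm hΩm hΩm (hsub n) Subset.rfl q.2 p.2).le.trans ?_
      rw [ext_self, e2]
      exact hr.2.le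
  · rintro k - (p : ∀ n, L2V (D (k n)) × L2M (D (k n))) hp ⟨M, hM⟩ (v : L2V univ) hv
    obtain ⟨q, hq, hqv⟩ := upper_sub (D := fun n => D (k n)) (fun n => hD (k n)) hΩo
      (fun n => hsub (k n)) p (fun n => mem_pub.mpr (hp n)) hM v (by
        refine hv.congr fun n => ?_
        refine (dstV (hD (k n)).measurableSet MeasurableSet.univ MeasurableSet.univ
          (subset_univ _) Subset.rfl (p n).1 v).trans ?_
        rw [ext_self])
    refine ⟨q, mem_pub.mp hq, ?_⟩
    refine (dstV hΩm MeasurableSet.univ MeasurableSet.univ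
      (subset_univ _) Subset.rfl q.1 v).trans ?_
    rw [ext_self, hqv, sub_self, enorm_zero]

end Pool.Agent.X75C
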