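import Pool.Agent.X75C.Emb
import Pool.Agent.H772R2.NSR.Final

/-!
Extension by zero to a larger domain.
-/

set_option autoImplicit false
set_option linter.unusedSectionVars false

open MeasureTheory Set Filter Topology
open scoped InnerProductSpace NNReal ENNReal ContDiff

namespace Pool.Agent.X75C

open H772R2.NS
open H772R2.NSR (Frame exists_frame exists_pair grad_unique)
open Pool.Agent.W795.TQ

section ext

variable {E : Type} [NormedAddCommGroup E] [InnerProductSpace ℝ E] {D B : Set E3}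

theorem memLp_ind (hD : MeasurableSet D) (h : D ⊆ B)
    (f : Lp E 2 ((volume : Measure E3).restrict D)) :
    MemLp (D.indicator f) 2 ((volume : Measure E3).restrict B) := by
  rw [memLp_indicator_iff_restrict hD, Measure.restrict_restrict_of_subset h]
  exact Lp.memLp f

/-- equality on `D` gives equality of the extensions -/
theorem ind_congr (hD : MeasurableSet D) (h : D ⊆ B) {f g : E3 → E}
    (hfg : f =ᵐ[(volume : Measure E3).restrict D] g) :
    D.indicator f =ᵐ[(volume : Measure E3).restrict B] D.indicator g := by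
  have h1 := (ae_restrict_iff' hD).mp hfg
  filter_upwards [ae_restrict_of_ae h1] with x hx
  by_cases hxD : x ∈ D
  · rw [indicator_of_mem hxD, indicator_of_mem hxD, hx hxD]
  · rw [indicator_of_notMem hxD, indicator_of_notMem hxD]

/-- the extension by zero -/
noncomputable def ext (E : Type) [NormedAddCommGroup E] [InnerProductSpace ℝ E]
    (hD : MeasurableSet D) (h : D ⊆ B) :
    Lp E 2 ((volume : Measure E3).restrict D) →ₗᵢ[ℝ] Lp E 2 ((volume : Measure E3).restrict B) where
  toFun f := (memLp_ind hD h f).toLp _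
  map_add' f g := by
    apply Lp.ext
    filter_upwards [MemLp.coeFn_toLp (memLp_ind hD h (f + g)),
      MemLp.coeFn_toLp (memLp_ind hD h f), MemLp.coeFn_toLp (memLp_ind hD h g),
      Lp.coeFn_add ((memLp_ind hD h f).toLp _) ((memLp_ind hD h g).toLp _),
      ind_congr hD h (Lp.coeFn_add f g)] with x h1 h2 h3 h4 h5
    rw [h1, h4, Pi.add_apply, h2, h3, h5, indicator_add']
    rfl
  map_smul' c f := by
    apply Lp.ext
    filter_upwards [MemLp.coeFn_toLp (memLp_ind hD h (c • f)),
      MemLp.coeFn_toLp (memLp_ind hD h f),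
      Lp.coeFn_smul c ((memLp_ind hD h f).toLp _),
      ind_congr hD h (Lp.coeFn_smul c f)] with x h1 h2 h3 h4
    simp only [RingHom.id_apply]
    rw [h1, h3, Pi.smul_apply, h2, h4]
    exact congrFun (indicator_const_smul D c (f : E3 → E)) x
  norm_map' f := by
    show ‖(memLp_ind hD h f).toLp _‖ = ‖f‖
    rw [Lp.norm_toLp, eLpNorm_indicator_eq_eLpNorm_restrict hD,
      Measure.restrict_restrict_of_subset h, Lp.norm_def]

theorem ext_coe (hD : MeasurableSet D) (h : D ⊆ B)
    (f : Lp E 2 ((volume : Measure E3).restrict D)) :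
    (ext E hD h f : E3 → E) =ᵐ[(volume : Measure E3).restrict B] D.indicator f :=
  MemLp.coeFn_toLp (memLp_ind hD h f)

/-- the extension of the class of a function supported in `D` -/
theorem ext_cls (hD : MeasurableSet D) (h : D ⊆ B)
    {f : Lp E 2 ((volume : Measure E3).restrict D)} {φ : E3 → E}
    (hf : f =ᵐ[(volume : Measure E3).restrict D] φ) (hφ : ∀ x, x ∉ D → φ x = 0) :
    (ext E hD h f : E3 → E) =ᵐ[(volume : Measure E3).restrict B] φ := by
  refine (ext_coe hD h f).trans ((ind_congr hD h hf).trans ?_)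
  refine Eventually.of_forall fun x => ?_
  by_cases hx : x ∈ D
  · rw [indicator_of_mem hx]
  · rw [indicator_of_notMem hx, hφ x hx]

end ext

variable {D B : Set E3}

theorem test_mono {D B : Set E3} {φ : E3 → E3} (h : H772R2.NS.IsTest D φ) (hDB : D ⊆ B) :
    H772R2.NS.IsTest B φ := ⟨h.smooth, h.compact, h.supp.trans hDB, h.divfree⟩

theorem test_zero {φ : E3 → E3} (h : H772R2.NS.IsTest D φ) {x : E3} (hx : x ∉ D) : φ x = 0 :=
  image_eq_zero_of_notMem_tsupport fun h' => hx (h.supp h')

theorem test_jac_zero {φ : E3 → E3} (h : H772R2.NS.IsTest D φ) {x : E3} (hx : x ∉ D) :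
    H772R2.NS.jac φ x = 0 :=
  image_eq_zero_of_notMem_tsupport fun h' => hx (h.supp (tsupport_jac_subset h'))

/-- the extension of pairs -/
noncomputable def ext2 (hD : MeasurableSet D) (h : D ⊆ B) :
    (L2V D × L2M D) →ₗ[ℝ] (L2V B × L2M B) :=
  LinearMap.prodMap (ext E3 hD h).toLinearMap (ext M3 hD h).toLinearMap

theorem ext2_apply (hD : MeasurableSet D) (h : D ⊆ B) (p : L2V D × L2M D) :
    ext2 hD h p = (ext E3 hD h p.1, ext M3 hD h p.2) := rfl

theorem ext2_iso (hD : MeasurableSet D) (h : D ⊆ B) : Isometry (ext2 hD h) := by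
  refine Isometry.of_dist_eq fun p q => ?_
  rw [ext2_apply, ext2_apply, Prod.dist_eq, Prod.dist_eq]
  simp only
  rw [(ext E3 hD h).isometry.dist_eq, (ext M3 hD h).isometry.dist_eq]

/-- the extensions of the elements of `H¹_{0,σ}(D)` -/
noncomputable def WD (hD : MeasurableSet D) (h : D ⊆ B) : Submodule ℝ (L2V B × L2M B) :=
  (graphW D).map (ext2 hD h)

theorem mem_WD (hD : MeasurableSet D) (h : D ⊆ B) {p : L2V B × L2M B} :
    p ∈ WD hD h ↔ ∃ q ∈ graphW D, ext E3 hD h q.1 = p.1 ∧ ext M3 hD h q.2 = p.2 := by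
  unfold WD
  rw [Submodule.mem_map]
  constructor
  · rintro ⟨q, hq, rfl⟩
    exact ⟨q, hq, rfl, rfl⟩
  · rintro ⟨q, hq, h1, h2⟩
    exact ⟨q, hq, Prod.ext h1 h2⟩

theorem WD_closed (hD : MeasurableSet D) (h : D ⊆ B) :
    IsClosed (WD hD h : Set (L2V B × L2M B)) := by
  unfold WD
  rw [Submodule.map_coe]
  exact (ext2_iso hD h).isClosedEmbedding.isClosedMap _ (graphW_closed D)

theorem ext_mem (hD : MeasurableSet D) (h : D ⊆ B) {q : L2V D × L2M D} (hq : q ∈ graphW D) :
    ext2 hD h q ∈ graphW B := by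
  have hp' : q ∈ closure (preW D : Set (L2V D × L2M D)) := by
    have := hq
    unfold graphW at this
    rwa [← SetLike.mem_coe, Submodule.topologicalClosure_coe] at this
  obtain ⟨r, hr, hlim⟩ := mem_closure_iff_seq_limit.mp hp'
  have h2 : Tendsto (fun n => ext2 hD h (r n)) atTop (𝓝 (ext2 hD h q)) :=
    ((ext2_iso hD h).continuous.tendsto q).comp hlim
  refine (graphW_closed B).mem_of_tendsto h2 (Eventually.of_forall fun n => ?_)
  obtain ⟨φ, k1, k2, k3⟩ := hr n
  have hpre : ext2 hD h (r n) ∈ preW B :=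
    ⟨φ, test_mono k1 h, ext_cls hD h k2 fun x hx => test_zero k1 hx,
      ext_cls hD h k3 fun x hx => test_jac_zero k1 hx⟩
  exact Submodule.le_topologicalClosure _ hpre

theorem WD_le (hD : MeasurableSet D) (h : D ⊆ B) : WD hD h ≤ graphW B := by
  intro p hp
  obtain ⟨q, hq, e1, e2⟩ := (mem_WD hD h).mp hp
  have e : ext2 hD h q = p := Prod.ext e1 e2
  rw [← e]
  exact ext_mem hD h hq

theorem tens_zero' : tens 0 = 0 := by
  ext p
  rw [tens_apply]
  simp

theorem tensL_ext (hD : MeasurableSet D) (hB : MeasurableSet B) (h : D ⊆ B)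
    {q : L2V D × L2M D} (hq : q ∈ graphW D) :
    tensL (ext E3 hD h q.1) = ext M3 hD h (tensL q.1) := by
  apply Lp.ext
  have h1 : (tensL (ext E3 hD h q.1) : E3 → M3) =ᵐ[volume.restrict B]
      fun x => tens ((ext E3 hD h q.1) x) := tensL_coe hB (p := ext2 hD h q) (ext_mem hD h hq)
  have h2 := tensL_coe hD hq
  filter_upwards [h1, ext_coe hD h q.1, ext_coe hD h (tensL q.1), ind_congr hD h h2]
    with x a1 a2 a3 a4
  rw [a1, a2, a3, a4]
  by_cases hx : x ∈ D
  · rw [indicator_of_mem hx, indicator_of_mem hx]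
  · rw [indicator_of_notMem hx, indicator_of_notMem hx, tens_zero']

theorem emb (hD : MeasurableSet D) (hB : MeasurableSet B) (h : D ⊆ B) :
    Emb (graphW D) (tensL (Ω := D)) (WD hD h) (tensL (Ω := B)) (ext E3 hD h) (ext M3 hD h) :=
  ⟨fun p hp => (mem_WD hD h).mpr ⟨p, hp, rfl, rfl⟩, fun _ hp => (mem_WD hD h).mp hp,
    fun _ hp => tensL_ext hD hB h hp⟩

end Pool.Agent.X75C
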