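import Pool.Agent.X75C.Star

/-!
The set of domains which are star-shaped with respect to a ball is Mosco compact.
-/

set_option autoImplicit false
set_option linter.unusedSectionVars false

open MeasureTheory Set Filter Topology
open scoped InnerProductSpace NNReal ENNReal ContDiff Pointwise

namespace Pool.Agent.X75C

open H772R2.NS H772R2.NS.Pub
open Pool.Agent.W795.TQ

variable {r R : ℝ}

/-- the gauge functions of the domains -/
structure IsG (r R : ℝ) (γ : E3 → ℝ) : Prop where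
  nn : ∀ x, 0 ≤ γ x
  hom : ∀ t : ℝ, 0 ≤ t → ∀ x, γ (t • x) = t * γ x
  up : ∀ x, γ x ≤ ‖x‖ / r
  low : ∀ x, ‖x‖ ≤ R * γ x
  star : ∀ t : ℝ, 0 < t → ∀ x c, γ x ≤ t → ‖c‖ ≤ r * t → ∀ θ ∈ Icc (0 : ℝ) 1,
    γ ((1 - θ) • c + θ • x) ≤ t

theorem IsG.le (hr : 0 < r) {γ : E3 → ℝ} (G : IsG r R γ) (x y : E3) :
    γ y ≤ γ x + ‖y - x‖ / r := by
  by_cases hxy : y = x
  · rw [hxy]; simp
  have hh : 0 < ‖y - x‖ := norm_pos_iff.mpr (sub_ne_zero.mpr hxy)
  refine le_of_forall_gt_imp_ge_of_dense fun s' hs' => ?_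
  set t : ℝ := s' - ‖y - x‖ / r with ht
  have ht1 : γ x < t := by rw [ht]; linarith
  have ht0 : 0 < t := (G.nn x).trans_lt ht1
  have hq : 0 < ‖y - x‖ / r := by positivity
  have hs : 0 < s' := by linarith
  have hs'e : s' = t + ‖y - x‖ / r := by rw [ht]; ring
  have h1 : γ ((s' / t) • x) ≤ s' := by
    rw [G.hom _ (by positivity)]
    calc s' / t * γ x ≤ s' / t * t := by gcongr
      _ = s' := by field_simp
  have h2 : ‖((r * s') / ‖y - x‖) • (y - x)‖ ≤ r * s' := by
    rw [norm_smul, Real.norm_eq_abs, abs_of_pos (by positivity)]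
    rw [div_mul_cancel₀ _ hh.ne']
  have hθ : t / s' ∈ Icc (0 : ℝ) 1 := ⟨by positivity, by rw [div_le_one hs]; linarith⟩
  have h3 := G.star s' hs ((s' / t) • x) (((r * s') / ‖y - x‖) • (y - x)) h1 h2 (t / s') hθ
  have e : (1 - t / s') • (((r * s') / ‖y - x‖) • (y - x)) + (t / s') • ((s' / t) • x) = y := by
    rw [smul_smul, smul_smul]
    have e1 : (1 - t / s') * (r * s' / ‖y - x‖) = 1 := by
      have e2 : 1 - t / s' = (‖y - x‖ / r) / s' := by
        rw [eq_div_iff hs.ne', sub_mul, one_mul, div_mul_cancel₀ _ hs.ne']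
        linarith
      rw [e2]
      field_simp
    have e3 : t / s' * (s' / t) = 1 := by field_simp
    rw [e1, e3, one_smul, one_smul]
    abel
  rw [e] at h3
  exact h3

theorem IsG.lip (hr : 0 < r) {γ : E3 → ℝ} (G : IsG r R γ) (x y : E3) :
    |γ x - γ y| ≤ ‖x - y‖ / r := by
  have h1 := G.le hr x y
  have h2 := G.le hr y x
  rw [norm_sub_rev] at h1
  exact abs_sub_le_iff.mpr ⟨by linarith, by linarith⟩

theorem IsG.cont (hr : 0 < r) {γ : E3 → ℝ} (G : IsG r R γ) : Continuous γ := by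
  rw [Metric.continuous_iff]
  intro x ε hε
  refine ⟨ε * r, by positivity, fun y hy => ?_⟩
  rw [Real.dist_eq]
  refine (G.lip hr y x).trans_lt ?_
  rw [div_lt_iff₀ hr, ← dist_eq_norm]
  exact hy

/-- pointwise limits of gauge functions are gauge functions -/
theorem isG_lim {U : Filter ℕ} [U.NeBot] {γn : ℕ → E3 → ℝ} (hG : ∀ n, IsG r R (γn n))
    {γ : E3 → ℝ} (h : ∀ x, Tendsto (fun n => γn n x) U (𝓝 (γ x))) : IsG r R γ := by
  constructor
  · intro x
    exact ge_of_tendsto (h x) (Eventually.of_forall fun n => (hG n).nn x)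
  · intro t ht x
    refine tendsto_nhds_unique (h (t • x)) (((h x).const_mul t).congr fun n => ?_)
    rw [(hG n).hom t ht]
  · intro x
    exact le_of_tendsto (h x) (Eventually.of_forall fun n => (hG n).up x)
  · intro x
    exact ge_of_tendsto ((h x).const_mul R) (Eventually.of_forall fun n => (hG n).low x)
  · intro t ht x c hx hc θ hθ
    refine le_of_forall_gt_imp_ge_of_dense fun t' ht' => ?_
    have h1 : ∀ᶠ n in U, γn n x < t' := (h x).eventually (gt_mem_nhds (hx.trans_lt ht'))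
    refine le_of_tendsto (h _) ?_
    filter_upwards [h1] with n hn
    have hr : 0 ≤ r * t' := by
      have h2 : 0 ≤ r * t := (norm_nonneg c).trans hc
      have h3 : 0 ≤ r := nonneg_of_mul_nonneg_left h2 ht
      have h4 : 0 < t' := ht.trans ht'
      positivity
    refine (hG n).star t' (ht.trans ht') x c hn.le (hc.trans ?_) θ hθ
    have h2 : 0 ≤ r * t := (norm_nonneg c).trans hc
    have h3 : 0 ≤ r := nonneg_of_mul_nonneg_left h2 ht
    exact mul_le_mul_of_nonneg_left ht'.le h3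

/-- the domains -/
def stB (r R : ℝ) : Set (Set E3) :=
  {D | IsOpen D ∧ Metric.ball 0 r ⊆ D ∧ D ⊆ Metric.ball 0 R ∧
    ∀ c ∈ Metric.ball (0 : E3) r, ∀ x ∈ D, ∀ θ ∈ Icc (0 : ℝ) 1, (1 - θ) • c + θ • x ∈ D}

theorem stB_abs (hr : 0 < r) {D : Set E3} (hD : D ∈ stB r R) : Absorbent ℝ D :=
  absorbent_nhds_zero (mem_of_superset (Metric.ball_mem_nhds 0 hr) hD.2.1)

theorem stB_smul (hr : 0 < r) {D : Set E3} (hD : D ∈ stB r R) {x : E3} (hx : x ∈ D) {θ : ℝ}
    (hθ : θ ∈ Icc (0 : ℝ) 1) : θ • x ∈ D := by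
  have := hD.2.2.2 0 (Metric.mem_ball_self hr) x hx θ hθ
  rwa [smul_zero, zero_add] at this

theorem stB_pos (hr : 0 < r) {D : Set E3} (hD : D ∈ stB r R) : 0 < R := by
  have h1 := hD.2.2.1 (hD.2.1 (Metric.mem_ball_self hr))
  rwa [mem_ball_zero_iff, norm_zero] at h1

theorem stB_eq (hr : 0 < r) {D : Set E3} (hD : D ∈ stB r R) : D = {x | gauge D x < 1} := by
  ext x
  constructor
  · intro hx
    exact gauge_lt_one_of_mem_of_isOpen hD.1 hx
  · intro hx
    obtain ⟨b, hb0, hb1, y, hy, hyx⟩ := exists_lt_of_gauge_lt (stB_abs hr hD) hx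
    rw [← hyx]
    exact stB_smul hr hD hy ⟨hb0.le, hb1.le⟩

theorem isG_gauge (hr : 0 < r) {D : Set E3} (hD : D ∈ stB r R) : IsG r R (gauge D) := by
  have habs := stB_abs hr hD
  have hR := stB_pos hr hD
  constructor
  · exact fun x => gauge_nonneg x
  · intro t ht x
    rw [gauge_smul_of_nonneg ht, smul_eq_mul]
  · intro x
    rw [← gauge_ball hr.le]
    exact gauge_mono (absorbent_nhds_zero (Metric.ball_mem_nhds 0 hr)) hD.2.1 x
  · intro x
    have h1 := gauge_mono habs hD.2.2.1 x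
    rw [gauge_ball hR.le, div_le_iff₀ hR] at h1
    linarith
  · intro t ht x c hx hc θ hθ
    refine le_of_forall_gt_imp_ge_of_dense fun t' ht' => ?_
    have ht'0 : 0 < t' := ht.trans ht'
    obtain ⟨b, hb0, hb1, y, hy, hyx⟩ := exists_lt_of_gauge_lt habs (hx.trans_lt ht')
    have hyx' : b • y = x := hyx
    refine gauge_le_of_mem ht'0.le ?_
    refine ⟨(1 - θ) • (t'⁻¹ • c) + θ • ((b / t') • y), ?_, ?_⟩
    · refine hD.2.2.2 _ ?_ _ (stB_smul hr hD hy ⟨by positivity, ?_⟩) θ hθ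
      · rw [mem_ball_zero_iff, norm_smul, norm_inv, Real.norm_eq_abs, abs_of_pos ht'0,
          inv_mul_lt_iff₀ ht'0]
        calc ‖c‖ ≤ r * t := hc
          _ < r * t' := by gcongr
          _ = t' * r := mul_comm _ _
      · rw [div_le_one ht'0]
        exact hb1.le
    · show t' • ((1 - θ) • (t'⁻¹ • c) + θ • ((b / t') • y)) = (1 - θ) • c + θ • x
      rw [← hyx', smul_add, smul_smul, smul_smul, smul_smul, smul_smul, smul_smul]
      congr 2
      · field_simp
      · field_simp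

theorem stB_of (hr : 0 < r) {γ : E3 → ℝ} (G : IsG r R γ) : {x | γ x < 1} ∈ stB r R := by
  refine ⟨isOpen_lt (G.cont hr) continuous_const, ?_, ?_, ?_⟩
  · intro x hx
    rw [mem_ball_zero_iff] at hx
    exact (G.up x).trans_lt (by rwa [div_lt_one hr])
  · intro x hx
    rw [mem_ball_zero_iff]
    have h1 := G.low x
    have h2 : γ x < 1 := hx
    have h3 := G.nn x
    have hR : 0 < R := by
      by_contra h
      rw [not_lt] at h
      set y : E3 := EuclideanSpace.single 0 1 with hy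
      have h4 := G.low y
      have h5 : ‖y‖ = 1 := by rw [hy]; simp
      have h6 := G.nn y
      rw [h5] at h4
      nlinarith
    nlinarith
  · intro c hc x hx θ hθ
    rw [mem_ball_zero_iff] at hc
    have h2 : γ x < 1 := hx
    obtain ⟨t, ht1, ht2⟩ := exists_between (max_lt h2 ((div_lt_one hr).mpr hc))
    have h3 : γ x < t := (le_max_left _ _).trans_lt ht1
    have h4 : ‖c‖ / r < t := (le_max_right _ _).trans_lt ht1
    have ht0 : 0 < t := (G.nn x).trans_lt h3
    rw [div_lt_iff₀ hr] at h4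
    exact (G.star t ht0 x c h3.le (by linarith) θ hθ).trans_lt ht2

/-- uniform convergence on balls -/
theorem unif_ball (hr : 0 < r) {U : Filter ℕ} {γn : ℕ → E3 → ℝ} (hG : ∀ n, IsG r R (γn n))
    {γ : E3 → ℝ} (G : IsG r R γ) (h : ∀ x, Tendsto (fun n => γn n x) U (𝓝 (γ x))) {ρ ε : ℝ}
    (hε : 0 < ε) : ∀ᶠ n in U, ∀ x ∈ Metric.closedBall (0 : E3) ρ, |γn n x - γ x| ≤ ε := by
  have hδ : 0 < ε * r / 3 := by positivity
  obtain ⟨t, -, htf, htc⟩ := (isCompact_closedBall (0 : E3) ρ).finite_cover_balls hδ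
  have hev : ∀ᶠ n in U, ∀ s ∈ t, |γn n s - γ s| ≤ ε / 3 := by
    rw [eventually_all_finite htf]
    intro s _
    have h1 := (Metric.tendsto_nhds.mp (h s)) (ε / 3) (by positivity)
    filter_upwards [h1] with n hn
    rw [Real.dist_eq] at hn
    exact hn.le
  filter_upwards [hev] with n hn x hx
  obtain ⟨y, hy, hxy⟩ := mem_iUnion₂.mp (htc hx)
  rw [Metric.mem_ball, dist_eq_norm] at hxy
  have h1 := (hG n).lip hr x y
  have h2 := G.lip hr x y
  have h3 := hn y hy
  have h4 : ‖x - y‖ / r ≤ ε / 3 := by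
    rw [div_le_iff₀ hr]
    linarith
  rw [abs_le] at h1 h2 h3 ⊢
  constructor <;> linarith [h1.1, h1.2, h2.1, h2.2, h3.1, h3.2]

theorem stB_compact (hr : 0 < r) : MoscoCompact (stB r R) := by
  intro D hD
  have hG : ∀ n, IsG r R (gauge (D n)) := fun n => isG_gauge hr (hD n)
  set U : Ultrafilter ℕ := Ultrafilter.of atTop with hUd
  have hU : (U : Filter ℕ) ≤ atTop := Ultrafilter.of_le _
  have hex : ∀ x : E3, ∃ s : ℝ, Tendsto (fun n => gauge (D n) x) U (𝓝 s) := by
    intro x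
    obtain ⟨s, -, hs⟩ := (isCompact_Icc (a := (0 : ℝ)) (b := ‖x‖ / r)).ultrafilter_le_nhds
      (U.map (fun n => gauge (D n) x)) (by
        rw [le_principal_iff]
        show _ ∈ Filter.map (fun n => gauge (D n) x) (U : Filter ℕ)
        rw [Filter.mem_map]
        exact Filter.univ_mem' fun n => ⟨(hG n).nn x, (hG n).up x⟩)
    exact ⟨s, hs⟩
  choose γ hγ using hex
  have G : IsG r R γ := isG_lim (U := (U : Filter ℕ)) hG hγ
  set Ω : Set E3 := {x | γ x < 1} with hΩ
  have hΩm : Ω ∈ stB r R := stB_of hr G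
  have hfr : ∀ j : ℕ, ∃ᶠ n in atTop, ∀ x ∈ Metric.closedBall (0 : E3) R,
      |gauge (D n) x - γ x| ≤ 1 / ((j : ℝ) + 1) := by
    intro j
    exact (unif_ball hr hG G hγ (by positivity)).frequently.filter_mono hU
  obtain ⟨k, hk, hkP⟩ := extraction_forall_of_frequently hfr
  have hlim : ∀ δ : ℝ, 0 < δ → ∀ᶠ j : ℕ in atTop, 1 / ((j : ℝ) + 1) < δ := fun δ hδ =>
    (tendsto_one_div_add_atTop_nhds_zero_nat (𝕜 := ℝ)).eventually (gt_mem_nhds hδ)
  refine ⟨k, hk, Ω, hΩm, ?_⟩
  refine mosco_star (D := fun n => D (k n)) (fun n => (hD (k n)).1) hΩm.1 ?_ ?_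
  · intro K hK hKΩ
    rcases K.eq_empty_or_nonempty with h0 | h0
    · rw [h0]
      exact Eventually.of_forall fun _ => empty_subset _
    obtain ⟨x0, hx0, hmax⟩ := hK.exists_isMaxOn h0 (G.cont hr).continuousOn
    have h1 : γ x0 < 1 := hKΩ hx0
    filter_upwards [hlim (1 - γ x0) (by linarith)] with j hj x hx
    have h2 : γ x ≤ γ x0 := hmax hx
    have h3 : x ∈ Metric.closedBall (0 : E3) R :=
      Metric.ball_subset_closedBall (hΩm.2.2.1 (hKΩ hx))
    have h4 := (abs_le.mp (hkP j x h3)).2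
    rw [stB_eq hr (hD (k j))]
    show gauge (D (k j)) x < 1
    linarith
  · intro c hc
    filter_upwards [hlim (c - 1) (by linarith)] with j hj x hx
    have h1 : gauge (D (k j)) (c • x) < 1 := by
      have := hx
      rw [stB_eq hr (hD (k j))] at this
      exact this
    have h3 : c • x ∈ Metric.closedBall (0 : E3) R :=
      Metric.ball_subset_closedBall ((hD (k j)).2.2.1 hx)
    have h4 := (abs_le.mp (hkP j _ h3)).1
    have h5 : γ (c • x) = c * γ x := G.hom c (by linarith) x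
    show γ x < 1
    have h6 : c * γ x < c := by
      rw [← h5]
      linarith
    have hc0 : 0 < c := by linarith
    nlinarith

end Pool.Agent.X75C
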