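import Pool.Agent.X75C.Bds

/-!
Limits of strong solutions in varying closed subspaces.
-/

set_option autoImplicit false
set_option linter.unusedSectionVars false

open MeasureTheory Set Filter Topology
open scoped InnerProductSpace NNReal

namespace Pool.Agent.X75C

open Pool.Agent.Y303.RA (Hom norm_int_sq_le)
open Pool.Agent.W795.TQ
open H772R2.NSR (Frame prim_cont memLp_ii ae_deriv_of_prim grad_unique exists_weak_limit
  tendsto_inner_weak_strong tendsto_of_weak_norm unif tendsto_int exists_weak_deriv' prim_shift)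
open H772R2.NSG (St LH ii_of_int int_inner norm_m_le mem_cont)

section gen

variable {Y : Type} [NormedAddCommGroup Y] [InnerProductSpace ℝ Y] [CompleteSpace Y]
  {g g1 : ℝ → Y} {T : ℝ}

/-- functions with a bounded derivative are Lipschitz -/
theorem lip_of (hp : ∀ a b, 0 ≤ a → a ≤ b → b ≤ T → g b - g a = ∫ s in a..b, g1 s)
    {c : ℝ} (hb : ∀ᵐ s ∂(volume.restrict (Ioc 0 T)), ‖g1 s‖ ≤ c) :
    ∀ a ∈ Icc 0 T, ∀ b ∈ Icc 0 T, ‖g a - g b‖ ≤ c * |a - b| := by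
  have key : ∀ a ∈ Icc 0 T, ∀ b ∈ Icc 0 T, a ≤ b → ‖g b - g a‖ ≤ c * |b - a| := by
    intro a ha b hb' hab
    rw [hp a b ha.1 hab hb'.2]
    refine intervalIntegral.norm_integral_le_of_norm_le_const_ae ?_
    rw [ae_restrict_iff' measurableSet_Ioc] at hb
    filter_upwards [hb] with s hs hsI
    rw [uIoc_of_le hab] at hsI
    exact hs ⟨ha.1.trans_lt hsI.1, hsI.2.trans hb'.2⟩
  intro a ha b hb'
  rcases le_total a b with h | h
  · rw [norm_sub_rev, abs_sub_comm]; exact key a ha b hb' h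
  · exact key b hb' a ha h

/-- functions with a derivative in `L²` are Hölder continuous -/
theorem hol_of (h1 : MemLp g1 2 (volume.restrict (Ioc 0 T)))
    (hp : ∀ a b, 0 ≤ a → a ≤ b → b ≤ T → g b - g a = ∫ s in a..b, g1 s)
    {Z : ℝ} (hZ : (∫ s in (0 : ℝ)..T, ‖g1 s‖ ^ 2) ≤ Z) :
    ∀ a ∈ Icc 0 T, ∀ b ∈ Icc 0 T, ‖g a - g b‖ ^ 2 ≤ Z * |a - b| := by
  have h2 : Integrable (fun s => ‖g1 s‖ ^ 2) (volume.restrict (Ioc 0 T)) :=
    (memLp_two_iff_integrable_sq_norm h1.aestronglyMeasurable).mp h1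
  have key : ∀ a ∈ Icc 0 T, ∀ b ∈ Icc 0 T, a < b → ‖g b - g a‖ ^ 2 ≤ Z * |b - a| := by
    intro a ha b hb' hab
    rw [hp a b ha.1 hab.le hb'.2, abs_of_pos (sub_pos.mpr hab)]
    refine (norm_int_sq_le h1 ha.1 hab hb'.2).trans ?_
    rw [mul_comm]
    have h3 : (∫ s in a..b, ‖g1 s‖ ^ 2) ≤ ∫ s in (0 : ℝ)..T, ‖g1 s‖ ^ 2 :=
      intervalIntegral.integral_mono_interval ha.1 hab.le hb'.2
        (Eventually.of_forall fun s => by positivity) (ii_of_int h2 le_rfl (ha.1.trans ha.2) le_rfl)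
    have h4 : 0 ≤ b - a := by linarith
    exact mul_le_mul_of_nonneg_right (h3.trans hZ) h4
  intro a ha b hb'
  rcases lt_trichotomy a b with h | h | h
  · rw [norm_sub_rev, abs_sub_comm]; exact key a ha b hb' h
  · rw [h]; simp
  · exact key b hb' a ha h

/-- a weak limit of bounded vectors is bounded -/
theorem weak_le {ι : Type*} {U : Filter ι} [U.NeBot] {a : ι → Y} {a0 : Y} {c : ℝ}
    (h : ∀ᶠ i in U, ‖a i‖ ≤ c) (hw : ∀ y : Y, Tendsto (fun i => ⟪a i, y⟫_ℝ) U (𝓝 ⟪a0, y⟫_ℝ)) :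
    ‖a0‖ ≤ c := by
  have h1 : ⟪a0, a0⟫_ℝ ≤ c * ‖a0‖ := by
    refine le_of_tendsto (hw a0) ?_
    filter_upwards [h] with i hi
    calc ⟪a i, a0⟫_ℝ ≤ ‖a i‖ * ‖a0‖ := real_inner_le_norm _ _
      _ ≤ c * ‖a0‖ := by gcongr
  rw [real_inner_self_eq_norm_sq] at h1
  rcases eq_or_lt_of_le (norm_nonneg a0) with h2 | h2
  · rw [← h2]
    obtain ⟨i, hi⟩ := h.exists
    exact (norm_nonneg _).trans hi
  · have : ‖a0‖ * ‖a0‖ ≤ c * ‖a0‖ := by nlinarith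
    exact le_of_mul_le_mul_right this h2

/-- almost every point property holds at points near any given point -/
theorem exists_near {P : ℝ → Prop} (hT : 0 < T) (hP : ∀ᵐ s ∂(volume.restrict (Ioc 0 T)), P s)
    {t δ : ℝ} (ht : t ∈ Icc 0 T) (hδ : 0 < δ) : ∃ s ∈ Icc 0 T, |t - s| < δ ∧ P s := by
  set a := max 0 (t - δ) with ha
  set b := min T (t + δ) with hb
  have hab : a < b := by
    rw [ha, hb]
    refine max_lt (lt_min hT ?_) (lt_min ?_ ?_)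
    · linarith [ht.1]
    · linarith [ht.2]
    · linarith
  have hss : Ioo a b ⊆ Ioc 0 T := fun s hs => ⟨(le_max_left _ _).trans_lt hs.1,
      hs.2.le.trans (min_le_left _ _)⟩
  have hsub : (volume.restrict (Ioo a b) : Measure ℝ) ≤ volume.restrict (Ioc 0 T) :=
    Measure.restrict_mono hss le_rfl
  have hP' : ∀ᵐ s ∂(volume.restrict (Ioo a b)), P s := ae_mono hsub hP
  have hne : (ae (volume.restrict (Ioo a b))).NeBot := by
    rw [ae_restrict_neBot, Real.volume_Ioo]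
    simp [hab]
  obtain ⟨s, hs1, hs2⟩ := (hP'.and (ae_restrict_mem measurableSet_Ioo)).exists
  have h1 := (le_max_left 0 (t - δ)).trans_lt hs2.1
  have h2 := (le_max_right 0 (t - δ)).trans_lt hs2.1
  have h3 := hs2.2.trans_le (min_le_left T (t + δ))
  have h4 := hs2.2.trans_le (min_le_right T (t + δ))
  exact ⟨s, ⟨h1.le, h3.le⟩, abs_lt.mpr ⟨by linarith, by linarith⟩, hs1⟩

end gen

variable {H K : Type} [NormedAddCommGroup H] [InnerProductSpace ℝ H] [CompleteSpace H]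
  [NormedAddCommGroup K] [InnerProductSpace ℝ K] [CompleteSpace K]
  {W V0 : Submodule ℝ (H × K)} {V : ℕ → Submodule ℝ (H × K)} {m : H → K} {C ν T : ℝ}
  {Fn : ℕ → ℝ → K} {F : ℝ → K} {u u1 : ℕ → ℝ → H} {z z1 : ℕ → ℝ → K}

/-- uniform convergence of the nonlinear term -/
theorem unif_m (Fr : Frame W m C) {U : Filter ℕ} {v : ℝ → H} {y : ℝ → K} {R : ℝ}
    (mem : ∀ n, ∀ t ∈ Icc 0 T, (u n t, z n t) ∈ W) (mem0 : ∀ t ∈ Icc 0 T, (v t, y t) ∈ W)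
    (hz : ∀ n, ∀ t ∈ Icc 0 T, ‖z n t‖ ≤ R) (hy : ∀ t ∈ Icc 0 T, ‖y t‖ ≤ R) (hR : 0 ≤ R)
    (hu : ∀ ε : ℝ, 0 < ε → ∀ᶠ n in U, ∀ t ∈ Icc 0 T, ‖u n t - v t‖ ≤ ε) :
    ∀ ε : ℝ, 0 < ε → ∀ᶠ n in U, ∀ t ∈ Icc 0 T, ‖m (u n t) - m (v t)‖ ≤ ε := by
  intro ε hε
  have hC := Fr.C0
  set k : ℝ := C * ((2 * R) ^ 3 * (2 * R) ^ 4) + 1 with hk
  have hk0 : 0 < k := by positivity
  filter_upwards [hu (ε ^ 4 / k) (by positivity)] with n hn t ht
  have h1 := Fr.lips _ (mem n t ht) _ (mem0 t ht)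
  simp only at h1
  have h2 : ‖z n t - y t‖ ≤ 2 * R := (norm_sub_le _ _).trans (by
    have := hz n t ht
    have := hy t ht
    linarith)
  have h3 : ‖z n t‖ + ‖y t‖ ≤ 2 * R := by
    have := hz n t ht
    have := hy t ht
    linarith
  have h4 := hn t ht
  have h5 : C * (‖u n t - v t‖ * ‖z n t - y t‖ ^ 3 * (‖z n t‖ + ‖y t‖) ^ 4)
      ≤ C * (ε ^ 4 / k * (2 * R) ^ 3 * (2 * R) ^ 4) := by gcongr
  have h6 : C * (ε ^ 4 / k * (2 * R) ^ 3 * (2 * R) ^ 4) ≤ ε ^ 4 := by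
    have e : C * (ε ^ 4 / k * (2 * R) ^ 3 * (2 * R) ^ 4)
        = ε ^ 4 * ((k - 1) / k) := by rw [hk]; ring
    rw [e]
    have : (k - 1) / k ≤ 1 := by rw [div_le_one hk0]; linarith
    have h7 : 0 < ε ^ 4 := by positivity
    nlinarith
  exact (pow_le_pow_iff_left₀ (norm_nonneg _) hε.le (by norm_num)).mp (h1.trans (h5.trans h6))

/-- convergence of the subspaces along an ultrafilter -/
structure Conv (V : ℕ → Submodule ℝ (H × K)) (V0 : Submodule ℝ (H × K)) (U : Filter ℕ) : Prop where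
  lower : ∀ p ∈ V0, ∀ ε : ℝ, 0 < ε → ∀ᶠ n in U, ∃ q ∈ V n, ‖q.1 - p.1‖ ≤ ε ∧ ‖q.2 - p.2‖ ≤ ε
  upper : ∀ (p : ℕ → H × K) (p0 : H × K) (R : ℝ), (∀ n, p n ∈ V n) → (∀ n, ‖(p n).2‖ ≤ R) →
    Tendsto (fun n => (p n).1) U (𝓝 p0.1) →
    (∀ y : K, Tendsto (fun n => ⟪(p n).2, y⟫_ℝ) U (𝓝 ⟪p0.2, y⟫_ℝ)) → p0 ∈ V0

/-- the limit at a fixed time, weak form -/
theorem pt_weak (hcomp : ∀ R : ℝ, TotallyBounded {v : H | ∃ z, (v, z) ∈ W ∧ ‖z‖ ≤ R})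
    (hV : ∀ n, V n ≤ W) (U : Ultrafilter ℕ) (Cv : Conv V V0 U) {R : ℝ}
    {p : ℕ → H × K} (hp : ∀ n, p n ∈ V n) (hR : ∀ n, ‖(p n).2‖ ≤ R) :
    ∃ p0 ∈ V0, Tendsto (fun n => (p n).1) U (𝓝 p0.1) ∧ ‖p0.2‖ ≤ R ∧
      ∀ y : K, Tendsto (fun n => ⟪(p n).2, y⟫_ℝ) U (𝓝 ⟪p0.2, y⟫_ℝ) := by
  have hK : IsCompact (closure {v : H | ∃ z, (v, z) ∈ W ∧ ‖z‖ ≤ R}) :=
    isCompact_iff_totallyBounded_isComplete.mpr
      ⟨(hcomp R).closure, isClosed_closure.isComplete⟩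
  obtain ⟨a, -, ha⟩ := hK.ultrafilter_le_nhds (U.map (fun i => (p i).1)) (by
    rw [le_principal_iff]
    show _ ∈ Filter.map (fun i => (p i).1) (U : Filter ℕ)
    rw [Filter.mem_map]
    refine Filter.univ_mem' (fun i => ?_)
    exact subset_closure ⟨(p i).2, hV i (hp i), hR i⟩)
  have ha' : Tendsto (fun i => (p i).1) U (𝓝 a) := ha
  obtain ⟨b, hb0, hb⟩ := exists_weak_limit U (fun i => (p i).2) R (Eventually.of_forall hR)
  exact ⟨(a, b), Cv.upper p (a, b) R hp hR ha' hb, ha', hb0, hb⟩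

/-- the equation for the weak limits -/
theorem pt_eqn (Fr : Frame W m C) (hν : 0 < ν) (hV : ∀ n, V n ≤ W) (hV0 : V0 ≤ W)
    (U : Ultrafilter ℕ) (Cv : Conv V V0 U) {R Y : ℝ}
    {p : ℕ → H × K} {p0 : H × K} {a : ℕ → H} {b : ℕ → K} {b0 : K}
    (hp : ∀ n, p n ∈ V n) (hR : ∀ n, ‖(p n).2‖ ≤ R) (hp0 : p0 ∈ V0)
    (h1 : Tendsto (fun n => (p n).1) U (𝓝 p0.1))
    (h2 : ∀ y : K, Tendsto (fun n => ⟪(p n).2, y⟫_ℝ) U (𝓝 ⟪p0.2, y⟫_ℝ))
    (hb : Tendsto b U (𝓝 b0)) (ha : ∀ n, ‖a n‖ ≤ Y)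
    (heq : ∀ n, ∀ q ∈ V n, ⟪a n, q.1⟫_ℝ = ⟪b n - ν • (p n).2 + m (p n).1, q.2⟫_ℝ) :
    ∃ w : H, ‖w‖ ≤ Y ∧ (∀ y : H, Tendsto (fun n => ⟪a n, y⟫_ℝ) U (𝓝 ⟪w, y⟫_ℝ)) ∧
      ∀ q ∈ V0, ⟪w, q.1⟫_ℝ = ⟪b0 - ν • p0.2 + m p0.1, q.2⟫_ℝ := by
  have hY : 0 ≤ Y := (norm_nonneg _).trans (ha 0)
  have hR0 : 0 ≤ R := (norm_nonneg _).trans (hR 0)
  have hC := Fr.C0
  have hy0 : ‖p0.2‖ ≤ R := weak_le (U := (U : Filter ℕ)) (Eventually.of_forall hR) h2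
  obtain ⟨w, hw0, hw⟩ := exists_weak_limit U a Y (Eventually.of_forall ha)
  have hm : Tendsto (fun n => m (p n).1) U (𝓝 (m p0.1)) :=
    H772R2.NSR.m_tendsto Fr (v := fun n => (p n).1) (z := fun n => (p n).2) (s1 := R) hy0 (hV0 hp0)
      (Eventually.of_forall hR) (Eventually.of_forall fun n => hV n (hp n)) h1
  refine ⟨w, hw0, hw, ?_⟩
  intro q hq
  have l1 := hw q.1
  have l2 : Tendsto (fun n => ⟪b n - ν • (p n).2 + m (p n).1, q.2⟫_ℝ) U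
      (𝓝 ⟪b0 - ν • p0.2 + m p0.1, q.2⟫_ℝ) := by
    simp only [inner_add_left, inner_sub_left, real_inner_smul_left]
    exact ((hb.inner tendsto_const_nhds).sub ((h2 q.2).const_mul ν)).add
      (hm.inner tendsto_const_nhds)
  have l3 := (l1.sub l2).abs
  set G : ℝ := (‖b0‖ + 1) + ν * R + C * R ^ 2 with hG
  have hG0 : 0 ≤ G := by positivity
  have hbd : ∀ ε : ℝ, 0 < ε →
      |⟪w, q.1⟫_ℝ - ⟪b0 - ν • p0.2 + m p0.1, q.2⟫_ℝ| ≤ (Y + G) * ε := by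
    intro ε hε
    refine le_of_tendsto l3 ?_
    have hb1 : ∀ᶠ n in (U : Filter ℕ), ‖b n‖ < ‖b0‖ + 1 :=
      hb.norm.eventually (gt_mem_nhds (by linarith))
    filter_upwards [Cv.lower q hq ε hε, hb1] with n hn hbn
    obtain ⟨q', hq', k1, k2⟩ := hn
    have e1 := heq n q' hq'
    have e2 : ⟪a n, q.1⟫_ℝ - ⟪b n - ν • (p n).2 + m (p n).1, q.2⟫_ℝ
        = ⟪b n - ν • (p n).2 + m (p n).1, q'.2 - q.2⟫_ℝ - ⟪a n, q'.1 - q.1⟫_ℝ := by
      rw [inner_sub_right, inner_sub_right, ← e1]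
      ring
    rw [e2]
    have e3 : ‖b n - ν • (p n).2 + m (p n).1‖ ≤ G := by
      refine (norm_add_le _ _).trans ?_
      have k3 : ‖b n - ν • (p n).2‖ ≤ ‖b n‖ + ν * ‖(p n).2‖ := by
        refine (norm_sub_le _ _).trans ?_
        rw [norm_smul, Real.norm_eq_abs, abs_of_pos hν]
      have k4 : ‖m (p n).1‖ ≤ C * ‖(p n).2‖ ^ 2 := norm_m_le Fr (hV n (hp n))
      have k5 := hR n
      have k6 : C * ‖(p n).2‖ ^ 2 ≤ C * R ^ 2 := by gcongr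
      have k7 : ν * ‖(p n).2‖ ≤ ν * R := by gcongr
      rw [hG]
      linarith
    have e4 : |⟪b n - ν • (p n).2 + m (p n).1, q'.2 - q.2⟫_ℝ| ≤ G * ε :=
      (abs_real_inner_le_norm _ _).trans (by gcongr)
    have e5 : |⟪a n, q'.1 - q.1⟫_ℝ| ≤ Y * ε :=
      (abs_real_inner_le_norm _ _).trans (by have := ha n; gcongr)
    have e6 := abs_sub ⟪b n - ν • (p n).2 + m (p n).1, q'.2 - q.2⟫_ℝ ⟪a n, q'.1 - q.1⟫_ℝ
    linarith
  have hzero : |⟪w, q.1⟫_ℝ - ⟪b0 - ν • p0.2 + m p0.1, q.2⟫_ℝ| ≤ 0 := by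
    refine le_of_forall_pos_le_add fun ε hε => ?_
    have h3 := hbd (ε / (Y + G + 1)) (by positivity)
    refine h3.trans ?_
    rw [zero_add, mul_div_assoc', div_le_iff₀ (by positivity)]
    nlinarith
  have := abs_nonpos_iff.mp hzero
  linarith

/-- the strong limit of the gradients at a fixed time at which the equation holds -/
theorem pt_strong (Fr : Frame W m C) (hν : 0 < ν) (hV : ∀ n, V n ≤ W) (hV0 : V0 ≤ W)
    (U : Ultrafilter ℕ) (Cv : Conv V V0 U) {R Y : ℝ}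
    {p : ℕ → H × K} {p0 : H × K} {a : ℕ → H} {b : ℕ → K} {b0 : K}
    (hp : ∀ n, p n ∈ V n) (hR : ∀ n, ‖(p n).2‖ ≤ R) (hp0 : p0 ∈ V0)
    (h1 : Tendsto (fun n => (p n).1) U (𝓝 p0.1))
    (h2 : ∀ y : K, Tendsto (fun n => ⟪(p n).2, y⟫_ℝ) U (𝓝 ⟪p0.2, y⟫_ℝ))
    (hb : Tendsto b U (𝓝 b0)) (ha : ∀ n, ‖a n‖ ≤ Y)
    (heq : ∀ n, ∀ q ∈ V n, ⟪a n, q.1⟫_ℝ = ⟪b n - ν • (p n).2 + m (p n).1, q.2⟫_ℝ) :
    Tendsto (fun n => (p n).2) U (𝓝 p0.2) := by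
  obtain ⟨w, hw0, hw, hlim⟩ := pt_eqn Fr hν hV hV0 U Cv hp hR hp0 h1 h2 hb ha heq
  -- the norms
  have k1 : Tendsto (fun n => ⟪a n, (p n).1⟫_ℝ) U (𝓝 ⟪w, p0.1⟫_ℝ) :=
    tendsto_inner_weak_strong (Eventually.of_forall ha) hw h1
  have k2 : Tendsto (fun n => ⟪b n, (p n).2⟫_ℝ) U (𝓝 ⟪b0, p0.2⟫_ℝ) := by
    have := tendsto_inner_weak_strong (F := (U : Filter ℕ)) (Eventually.of_forall hR) h2 hb
    simpa only [real_inner_comm] using this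
  have k3 : Tendsto (fun n => ‖(p n).2‖ ^ 2) U (𝓝 (‖p0.2‖ ^ 2)) := by
    have k4 : Tendsto (fun n => (⟪b n, (p n).2⟫_ℝ - ⟪a n, (p n).1⟫_ℝ) / ν) U
        (𝓝 ((⟪b0, p0.2⟫_ℝ - ⟪w, p0.1⟫_ℝ) / ν)) := (k2.sub k1).div_const ν
    have e1 : (⟪b0, p0.2⟫_ℝ - ⟪w, p0.1⟫_ℝ) / ν = ‖p0.2‖ ^ 2 := by
      have := hlim p0 hp0
      rw [inner_add_left, inner_sub_left, real_inner_smul_left, real_inner_self_eq_norm_sq,
        Fr.ortho p0 (hV0 hp0)] at this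
      rw [this]
      field_simp
      ring
    rw [e1] at k4
    refine k4.congr fun n => ?_
    have := heq n (p n) (hp n)
    rw [inner_add_left, inner_sub_left, real_inner_smul_left, real_inner_self_eq_norm_sq,
      Fr.ortho (p n) (hV n (hp n))] at this
    rw [this]
    field_simp
    ring
  have k5 : Tendsto (fun n => ‖(p n).2‖) U (𝓝 ‖p0.2‖) := by
    have := (Real.continuous_sqrt.tendsto _).comp k3
    rw [Real.sqrt_sq (norm_nonneg _)] at this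
    refine this.congr fun n => ?_
    simp only [Function.comp]
    rw [Real.sqrt_sq (norm_nonneg _)]
  exact tendsto_of_weak_norm h2 k5

end Pool.Agent.X75C
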