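import Pool.Agent.X75C.Lim

/-!
Limits of strong solutions in varying closed subspaces: the limit is a strong solution.
-/

set_option autoImplicit false
set_option linter.unusedSectionVars false

open MeasureTheory Set Filter Topology
open scoped InnerProductSpace NNReal

namespace Pool.Agent.X75C

open Pool.Agent.Y303.RA (Hom norm_int_sq_le)
open Pool.Agent.W795.TQ
open H772R2.NSR (Frame prim_cont memLp_ii ae_deriv_of_prim grad_unique exists_weak_limit
  tendsto_inner_weak_strong tendsto_of_weak_norm unif tendsto_int exists_weak_deriv' prim_shift)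
open H772R2.NSG (St LH ii_of_int int_inner norm_m_le mem_cont)

variable {H K : Type} [NormedAddCommGroup H] [InnerProductSpace ℝ H] [CompleteSpace H]
  [NormedAddCommGroup K] [InnerProductSpace ℝ K] [CompleteSpace K]
  {W V0 : Submodule ℝ (H × K)} {V : ℕ → Submodule ℝ (H × K)} {m : H → K} {C ν T : ℝ}
  {Fn : ℕ → ℝ → K} {F : ℝ → K} {u u1 : ℕ → ℝ → H} {z z1 : ℕ → ℝ → K}

theorem limit (Fr : Frame W m C)
    (hcomp : ∀ R : ℝ, TotallyBounded {v : H | ∃ z, (v, z) ∈ W ∧ ‖z‖ ≤ R})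
    (hν : 0 < ν) (hT : 0 < T) (hV : ∀ n, V n ≤ W) (hVc : ∀ n, IsClosed (V n : Set (H × K)))
    (hV0 : V0 ≤ W) (hV0c : IsClosed (V0 : Set (H × K)))
    (U : Ultrafilter ℕ) (Cv : Conv V V0 U)
    (hFnc : ∀ n, ContinuousOn (Fn n) (Icc 0 T))
    (hF : ∀ ε : ℝ, 0 < ε → ∀ᶠ n in (U : Filter ℕ), ∀ t ∈ Icc 0 T, ‖Fn n t - F t‖ ≤ ε)
    (hFc : ContinuousOn F (Icc 0 T))
    (S : ∀ n, Str (V n) m ν T (Fn n) (u n) (u1 n) (z n) (z1 n)) {R Y Z : ℝ}
    (hz : ∀ n, ∀ t ∈ Icc 0 T, ‖z n t‖ ≤ R)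
    (hu1 : ∀ n, ∀ᵐ t ∂(volume.restrict (Ioc 0 T)), ‖u1 n t‖ ≤ Y)
    (hz1 : ∀ n, (∫ s in (0 : ℝ)..T, ‖z1 n s‖ ^ 2) ≤ Z) :
    ∃ (v v1 : ℝ → H) (y y1 : ℝ → K), Str V0 m ν T F v v1 y y1 ∧
      ∀ ε : ℝ, 0 < ε → ∀ᶠ n in (U : Filter ℕ), ∀ t ∈ Icc 0 T,
        ‖u n t - v t‖ ≤ ε ∧ ‖z n t - y t‖ ≤ ε := by
  have h0T : (0 : ℝ) ∈ Icc 0 T := ⟨le_rfl, hT.le⟩
  have hR0 : 0 ≤ R := (norm_nonneg _).trans (hz 0 0 h0T)
  have hC := Fr.C0
  have hZ0 : 0 ≤ Z := le_trans (intervalIntegral.integral_nonneg hT.le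
    fun s _ => by positivity) (hz1 0)
  have hY0 : 0 ≤ Y := by
    obtain ⟨s, -, -, hs⟩ := exists_near hT (hu1 0) h0T one_pos
    exact (norm_nonneg _).trans hs
  have lipu : ∀ n, ∀ a ∈ Icc 0 T, ∀ b ∈ Icc 0 T, ‖u n a - u n b‖ ≤ Y * |a - b| := fun n =>
    lip_of (S n).pu (hu1 n)
  have holz : ∀ n, ∀ a ∈ Icc 0 T, ∀ b ∈ Icc 0 T, ‖z n a - z n b‖ ^ 2 ≤ Z * |a - b| := fun n =>
    hol_of (S n).z1m (S n).pz (hz1 n)
  -- the weak limits
  have hex : ∀ t : ℝ, ∃ p0 : H × K, t ∈ Icc 0 T → (p0 ∈ V0 ∧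
      Tendsto (fun n => u n t) U (𝓝 p0.1) ∧ ‖p0.2‖ ≤ R ∧
      ∀ y : K, Tendsto (fun n => ⟪z n t, y⟫_ℝ) U (𝓝 ⟪p0.2, y⟫_ℝ)) := by
    intro t
    by_cases ht : t ∈ Icc 0 T
    · obtain ⟨p0, h1, h2, h3, h4⟩ := pt_weak hcomp hV U Cv (R := R) (p := fun n => (u n t, z n t))
        (fun n => (S n).mem t ht) (fun n => hz n t ht)
      exact ⟨p0, fun _ => ⟨h1, h2, h3, h4⟩⟩
    · exact ⟨0, fun h => absurd h ht⟩
  choose P hP using hex
  set v : ℝ → H := fun t => (P t).1 with hv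
  set y : ℝ → K := fun t => (P t).2 with hy
  -- strong convergence at almost all times
  have hae : ∀ᵐ t ∂(volume.restrict (Ioc 0 T)), Tendsto (fun n => z n t) U (𝓝 (y t)) := by
    have h1 : ∀ᵐ t ∂(volume.restrict (Ioc 0 T)), ∀ n, (∀ q ∈ V n, ⟪u1 n t, q.1⟫_ℝ
        = ⟪Fn n t - ν • z n t + m (u n t), q.2⟫_ℝ) ∧ ‖u1 n t‖ ≤ Y := by
      rw [ae_all_iff]
      intro n
      filter_upwards [dw_of (frame_sub Fr (hV n) (hVc n)) hT (hFnc n) (S n).mem (S n).u1m (S n).z1m
        (S n).pu (S n).pz (S n).weak, hu1 n] with t k1 k2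
      exact ⟨k1, k2⟩
    filter_upwards [h1, ae_restrict_mem measurableSet_Ioc] with t ht htI
    have htI' := Ioc_subset_Icc_self htI
    obtain ⟨k1, k2, k3, k4⟩ := hP t htI'
    refine pt_strong Fr hν hV hV0 U Cv (p := fun n => (u n t, z n t)) (p0 := P t)
      (a := fun n => u1 n t) (b := fun n => Fn n t) (b0 := F t) (Y := Y) (R := R)
      (fun n => (S n).mem t htI') (fun n => hz n t htI') k1 k2 k4 ?_ (fun n => (ht n).2)
      (fun n => (ht n).1)
    rw [Metric.tendsto_nhds]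
    intro ε hε
    filter_upwards [hF (ε / 2) (by positivity)] with n hn
    rw [dist_eq_norm]
    linarith [hn t htI']
  -- strong convergence at all times
  have hst : ∀ t ∈ Icc 0 T, Tendsto (fun n => z n t) U (𝓝 (y t)) := by
    intro t ht
    rw [Metric.tendsto_nhds]
    intro ε hε
    obtain ⟨s, hs, hts, hsP⟩ := exists_near hT hae ht
      (δ := (ε / 4) ^ 2 / (Z + 1)) (by positivity)
    have hd : ∀ n, ‖z n t - z n s‖ ≤ ε / 4 := by
      intro n
      have k1 := holz n t ht s hs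
      have k2 : Z * |t - s| ≤ (ε / 4) ^ 2 := by
        rw [lt_div_iff₀ (by positivity)] at hts
        nlinarith [abs_nonneg (t - s)]
      exact (pow_le_pow_iff_left₀ (norm_nonneg _) (by positivity) (by norm_num)).mp (k1.trans k2)
    have hy2 : ‖y t - y s‖ ≤ ε / 4 := by
      refine weak_le (U := (U : Filter ℕ)) (a := fun n => z n t - z n s)
        (Eventually.of_forall hd) fun x => ?_
      simp only [inner_sub_left]
      exact ((hP t ht).2.2.2 x).sub ((hP s hs).2.2.2 x)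
    filter_upwards [(Metric.tendsto_nhds.mp hsP) (ε / 4) (by positivity)] with n hn
    rw [dist_eq_norm] at hn ⊢
    calc ‖z n t - y t‖ = ‖(z n t - z n s) + (z n s - y s) - (y t - y s)‖ := by congr 1; abel
      _ ≤ ‖(z n t - z n s) + (z n s - y s)‖ + ‖y t - y s‖ := norm_sub_le _ _
      _ ≤ ‖z n t - z n s‖ + ‖z n s - y s‖ + ‖y t - y s‖ := by gcongr; exact norm_add_le _ _
      _ < ε := by linarith [hd n]
  -- uniform convergence
  obtain ⟨Uu, vc⟩ := unif (F := (U : Filter ℕ)) (T := T) (f := u) (g := v) (by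
    intro ε hε
    refine ⟨ε / (Y + 1), by positivity, fun n a ha b hb hab => ?_⟩
    have k1 := lipu n a ha b hb
    rw [lt_div_iff₀ (by positivity)] at hab
    nlinarith [abs_nonneg (a - b)]) (fun t ht => (hP t ht).2.1)
  obtain ⟨Uz, yc⟩ := unif (F := (U : Filter ℕ)) (T := T) (f := z) (g := y) (by
    intro ε hε
    refine ⟨ε ^ 2 / (Z + 1), by positivity, fun n a ha b hb hab => ?_⟩
    have k1 := holz n a ha b hb
    have k2 : Z * |a - b| ≤ ε ^ 2 := by
      rw [lt_div_iff₀ (by positivity)] at hab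
      nlinarith [abs_nonneg (a - b)]
    exact (pow_le_pow_iff_left₀ (norm_nonneg _) hε.le (by norm_num)).mp (k1.trans k2)) hst
  have memV : ∀ t ∈ Icc 0 T, (v t, y t) ∈ V0 := fun t ht => (hP t ht).1
  have hyR : ∀ t ∈ Icc 0 T, ‖y t‖ ≤ R := fun t ht => (hP t ht).2.2.1
  -- the derivatives
  have lipv : ∀ a ∈ Icc 0 T, ∀ b ∈ Icc 0 T, ‖v a - v b‖ ≤ Y * |a - b| := by
    intro a ha b hb
    refine le_of_tendsto (((hP a ha).2.1.sub (hP b hb).2.1).norm) ?_
    exact Eventually.of_forall fun n => lipu n a ha b hb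
  have hs0 : ∀ h : ℝ, 0 < h → Icc 0 (T - h) ⊆ Icc 0 T := fun h hh =>
    Icc_subset_Icc_right (by linarith)
  have hs1 : ∀ h : ℝ, 0 < h → MapsTo (fun s => s + h) (Icc 0 (T - h)) (Icc 0 T) := fun h hh =>
    fun s hs => ⟨by linarith [hs.1], by linarith [hs.2]⟩
  obtain ⟨v1, hv1, hv1'⟩ := exists_weak_deriv' hT vc (c := Y ^ 2 * T) (by
    intro h hh hhT
    have hTh : 0 ≤ T - h := by linarith
    have hus : ContinuousOn (fun s => v (s + h)) (Icc 0 (T - h)) :=
      vc.comp (by fun_prop) (hs1 h hh)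
    have hi : IntervalIntegrable (fun s => ‖v (s + h) - v s‖ ^ 2) volume 0 (T - h) := by
      refine ContinuousOn.intervalIntegrable ?_
      rw [uIcc_of_le hTh]
      exact ((hus.sub (vc.mono (hs0 h hh))).norm).pow 2
    calc ∫ s in (0 : ℝ)..(T - h), ‖v (s + h) - v s‖ ^ 2
        ≤ ∫ s in (0 : ℝ)..(T - h), (Y * h) ^ 2 := by
          refine intervalIntegral.integral_mono_on hTh hi intervalIntegrable_const ?_
          intro s hs
          have k1 := lipv (s + h) (hs1 h hh hs) s (hs0 h hh hs)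
          rw [show s + h - s = h by ring, abs_of_pos hh] at k1
          gcongr
      _ = (T - h) * (Y * h) ^ 2 := by
          rw [intervalIntegral.integral_const, smul_eq_mul, sub_zero]
      _ ≤ T * (Y * h) ^ 2 := by gcongr; linarith
      _ = Y ^ 2 * T * h ^ 2 := by ring)
  obtain ⟨y1, hy1, hy1'⟩ := exists_weak_deriv' hT yc (c := Z) (by
    intro h hh hhT
    have hTh : 0 ≤ T - h := by linarith
    have hzc : ∀ n, ContinuousOn (z n) (Icc 0 T) := fun n => prim_cont (S n).z1m (S n).pz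
    have hcn : ∀ n, ContinuousOn (fun s => ‖z n (s + h) - z n s‖ ^ 2) (Icc 0 (T - h)) := fun n =>
      ((((hzc n).comp (by fun_prop) (hs1 h hh)).sub ((hzc n).mono (hs0 h hh))).norm).pow 2
    have hc0 : ContinuousOn (fun s => ‖y (s + h) - y s‖ ^ 2) (Icc 0 (T - h)) :=
      (((yc.comp (by fun_prop) (hs1 h hh)).sub (yc.mono (hs0 h hh))).norm).pow 2
    have hlim : Tendsto (fun n => ∫ s in (0 : ℝ)..(T - h), ‖z n (s + h) - z n s‖ ^ 2) U
        (𝓝 (∫ s in (0 : ℝ)..(T - h), ‖y (s + h) - y s‖ ^ 2)) := by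
      refine tendsto_int hTh hcn hc0 ?_
      intro ε hε
      filter_upwards [Uz (ε / (8 * R + 1)) (by positivity)] with n hn s hs
      have b1 := hn _ (hs1 h hh hs)
      have b2 := hn _ (hs0 h hh hs)
      have c1 := hz n _ (hs1 h hh hs)
      have c2 := hz n _ (hs0 h hh hs)
      have c3 := hyR _ (hs1 h hh hs)
      have c4 := hyR _ (hs0 h hh hs)
      simp only at b1 c1 c3
      set A := z n (s + h) - z n s with hA
      set B := y (s + h) - y s with hB
      have d1 : ‖A - B‖ ≤ 2 * (ε / (8 * R + 1)) := by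
        have e : A - B = (z n (s + h) - y (s + h)) - (z n s - y s) := by rw [hA, hB]; abel
        rw [e]
        exact (norm_sub_le _ _).trans (by linarith)
      have d2 : ‖A‖ ≤ 2 * R := (norm_sub_le _ _).trans (by linarith)
      have d3 : ‖B‖ ≤ 2 * R := (norm_sub_le _ _).trans (by linarith)
      have d4 : |‖A‖ - ‖B‖| ≤ ‖A - B‖ := abs_norm_sub_norm_le _ _
      have e5 : ‖A‖ ^ 2 - ‖B‖ ^ 2 = (‖A‖ - ‖B‖) * (‖A‖ + ‖B‖) := by ring
      rw [e5, abs_mul, abs_of_nonneg (by positivity : 0 ≤ ‖A‖ + ‖B‖)]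
      calc |‖A‖ - ‖B‖| * (‖A‖ + ‖B‖) ≤ (2 * (ε / (8 * R + 1))) * (4 * R) := by
            refine mul_le_mul (d4.trans d1) (by linarith) (by positivity) (by positivity)
        _ = ε * (8 * R / (8 * R + 1)) := by ring
        _ ≤ ε * 1 := by
            gcongr
            rw [div_le_one (by positivity)]
            linarith
        _ = ε := mul_one ε
    refine le_of_tendsto hlim (Eventually.of_forall fun n => ?_)
    refine (prim_shift (S n).z1m (S n).pz h hh hhT).trans ?_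
    have := hz1 n
    gcongr)
  have hmem1 : ∀ᵐ s ∂(volume.restrict (Ioc 0 T)), (v1 s, y1 s) ∈ V0 ∧ ‖v1 s‖ ≤ Y := by
    have k1 := ae_deriv_of_prim hT (memLp_ii hT.le hv1) hv1'
    have k2 := ae_deriv_of_prim hT (memLp_ii hT.le hy1) hy1'
    have hne : ∀ᵐ s ∂(volume.restrict (Ioc 0 T)), s ≠ T := by
      refine ae_restrict_of_ae ?_
      simp [ae_iff, measure_singleton]
    filter_upwards [k1, k2, ae_restrict_mem measurableSet_Ioc, hne] with s h1 h2 h3 h4
    have hs : s ∈ Ioo 0 T := ⟨h3.1, lt_of_le_of_ne h3.2 h4⟩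
    have hcl : IsClosed {p : H × K | p ∈ V0 ∧ ‖p.1‖ ≤ Y} :=
      hV0c.inter (isClosed_le (continuous_fst.norm : Continuous fun p : H × K => ‖p.1‖)
        continuous_const)
    have h5 : HasDerivAt (fun t => (v t, y t)) (v1 s, y1 s) s := h1.prodMk h2
    have h6 := (hasDerivAt_iff_tendsto_slope.mp h5)
    refine hcl.mem_of_tendsto h6 ?_
    have h7 : ∀ᶠ t in 𝓝[≠] s, t ∈ Icc 0 T := mem_nhdsWithin_of_mem_nhds (Icc_mem_nhds hs.1 hs.2)
    filter_upwards [h7, self_mem_nhdsWithin] with t ht hts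
    have hts' : t ≠ s := hts
    have hsI : s ∈ Icc 0 T := Ioo_subset_Icc_self hs
    refine ⟨?_, ?_⟩
    · rw [slope_def_module]
      exact V0.smul_mem _ (V0.sub_mem (memV t ht) (memV s hsI))
    · rw [slope_def_module]
      have k3 := lipv t ht s hsI
      have hpos : 0 < |t - s| := abs_pos.mpr (sub_ne_zero.mpr hts')
      show ‖(t - s)⁻¹ • (v t - v s)‖ ≤ Y
      rw [norm_smul, norm_inv, Real.norm_eq_abs, inv_mul_le_iff₀ hpos]
      linarith
  -- the weak form
  have hum := unif_m (u := u) (z := z) (v := v) (y := y) Fr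
    (fun n t ht => hV n ((S n).mem t ht)) (fun t ht => hV0 (memV t ht)) hz hyR hR0 Uu
  have hmc : ContinuousOn (fun s => m (v s)) (Icc 0 T) :=
    mc_of Fr (fun t ht => hV0 (memV t ht)) vc yc
  have hgc : ContinuousOn (fun s => F s - ν • y s + m (v s)) (Icc 0 T) :=
    (hFc.sub (yc.const_smul ν)).add hmc
  have hgn : ∀ n, ContinuousOn (fun s => Fn n s - ν • z n s + m (u n s)) (Icc 0 T) := fun n =>
    ((hFnc n).sub ((prim_cont (S n).z1m (S n).pz).const_smul ν)).add
      (mc_of Fr (fun t ht => hV n ((S n).mem t ht)) (prim_cont (S n).u1m (S n).pu)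
        (prim_cont (S n).z1m (S n).pz))
  obtain ⟨Φ, hΦ⟩ : ∃ Φ, ∀ s ∈ Icc 0 T, ‖F s‖ ≤ Φ := by
    obtain ⟨Φ, hΦ⟩ := (isCompact_Icc.image_of_continuousOn hFc).isBounded.exists_norm_le
    exact ⟨Φ, fun s hs => hΦ _ ⟨s, hs, rfl⟩⟩
  have hΦ0 : 0 ≤ Φ := (norm_nonneg _).trans (hΦ 0 h0T)
  have weak : ∀ p ∈ V0, ∀ t ∈ Icc 0 T, ⟪v t - v 0, p.1⟫_ℝ
      = ∫ s in (0 : ℝ)..t, ⟪F s - ν • y s + m (v s), p.2⟫_ℝ := by
    intro p hp t ht
    have hst : Icc 0 t ⊆ Icc 0 T := Icc_subset_Icc_right ht.2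
    have l1 : Tendsto (fun n => ⟪u n t - u n 0, p.1⟫_ℝ) U (𝓝 ⟪v t - v 0, p.1⟫_ℝ) :=
      ((hP t ht).2.1.sub (hP 0 h0T).2.1).inner tendsto_const_nhds
    have l2 : Tendsto (fun n => ∫ s in (0 : ℝ)..t, ⟪Fn n s - ν • z n s + m (u n s), p.2⟫_ℝ) U
        (𝓝 (∫ s in (0 : ℝ)..t, ⟪F s - ν • y s + m (v s), p.2⟫_ℝ)) := by
      refine tendsto_int ht.1 (fun n => ((hgn n).mono hst).inner continuousOn_const)
        ((hgc.mono hst).inner continuousOn_const) ?_
      intro ε hε
      set δ : ℝ := ε / ((2 + ν) * (‖p.2‖ + 1)) with hδ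
      have hδ0 : 0 < δ := by positivity
      filter_upwards [hF δ hδ0, Uz δ hδ0, hum δ hδ0] with n a1 a2 a3 s hs
      have hs' := hst hs
      rw [← inner_sub_left]
      have e : (Fn n s - ν • z n s + m (u n s)) - (F s - ν • y s + m (v s))
          = (Fn n s - F s) - ν • (z n s - y s) + (m (u n s) - m (v s)) := by
        rw [smul_sub]; abel
      rw [e]
      refine (abs_real_inner_le_norm _ _).trans ?_
      have b1 : ‖(Fn n s - F s) - ν • (z n s - y s) + (m (u n s) - m (v s))‖ ≤ (2 + ν) * δ := by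
        refine (norm_add_le _ _).trans ?_
        have b2 := norm_sub_le (Fn n s - F s) (ν • (z n s - y s))
        rw [norm_smul, Real.norm_eq_abs, abs_of_pos hν] at b2
        have b3 := a1 s hs'
        have b4 := a2 s hs'
        have b5 := a3 s hs'
        have b6 : ν * ‖z n s - y s‖ ≤ ν * δ := by gcongr
        linarith
      calc ‖(Fn n s - F s) - ν • (z n s - y s) + (m (u n s) - m (v s))‖ * ‖p.2‖
          ≤ ((2 + ν) * δ) * (‖p.2‖ + 1) := by
            refine mul_le_mul b1 (by linarith) (norm_nonneg _) (by positivity)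
        _ = ε := by rw [hδ]; field_simp
    have l3 := (l1.sub l2).abs
    set G : ℝ := (Φ + 1) + ν * R + C * R ^ 2 with hG
    have hG0 : 0 ≤ G := by positivity
    have hbd : ∀ ε : ℝ, 0 < ε → |⟪v t - v 0, p.1⟫_ℝ
        - ∫ s in (0 : ℝ)..t, ⟪F s - ν • y s + m (v s), p.2⟫_ℝ| ≤ (Y * T + T * G) * ε := by
      intro ε hε
      refine le_of_tendsto l3 ?_
      filter_upwards [Cv.lower p hp ε hε, hF 1 one_pos] with n hn hF1
      obtain ⟨q, hq, k1, k2⟩ := hn
      have e1 := (S n).weak q hq t ht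
      have i1 : ∀ x : K, IntervalIntegrable (fun s => ⟪Fn n s - ν • z n s + m (u n s), x⟫_ℝ)
          volume 0 t := by
        intro x
        refine ContinuousOn.intervalIntegrable ?_
        rw [uIcc_of_le ht.1]
        exact ((hgn n).mono hst).inner continuousOn_const
      have e2 : ⟪u n t - u n 0, p.1⟫_ℝ
          - ∫ s in (0 : ℝ)..t, ⟪Fn n s - ν • z n s + m (u n s), p.2⟫_ℝ
          = (∫ s in (0 : ℝ)..t, ⟪Fn n s - ν • z n s + m (u n s), q.2 - p.2⟫_ℝ)
            - ⟪u n t - u n 0, q.1 - p.1⟫_ℝ := by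
        have e3 : (∫ s in (0 : ℝ)..t, ⟪Fn n s - ν • z n s + m (u n s), q.2 - p.2⟫_ℝ)
            = (∫ s in (0 : ℝ)..t, ⟪Fn n s - ν • z n s + m (u n s), q.2⟫_ℝ)
              - ∫ s in (0 : ℝ)..t, ⟪Fn n s - ν • z n s + m (u n s), p.2⟫_ℝ := by
          rw [← intervalIntegral.integral_sub (i1 _) (i1 _)]
          refine intervalIntegral.integral_congr fun s _ => ?_
          simp only [inner_sub_right]
        rw [e3, ← e1, inner_sub_right (u n t - u n 0)]
        ring
      rw [e2]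
      have e4 : |∫ s in (0 : ℝ)..t, ⟪Fn n s - ν • z n s + m (u n s), q.2 - p.2⟫_ℝ|
          ≤ T * G * ε := by
        have := intervalIntegral.norm_integral_le_of_norm_le_const (a := 0) (b := t)
          (f := fun s => ⟪Fn n s - ν • z n s + m (u n s), q.2 - p.2⟫_ℝ) (C := G * ε) (by
          intro s hs
          rw [uIoc_of_le ht.1] at hs
          have hs' : s ∈ Icc 0 T := hst (Ioc_subset_Icc_self hs)
          rw [Real.norm_eq_abs]
          refine (abs_real_inner_le_norm _ _).trans ?_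
          have b1 : ‖Fn n s - ν • z n s + m (u n s)‖ ≤ G := by
            refine (norm_add_le _ _).trans ?_
            have b2 := norm_sub_le (Fn n s) (ν • z n s)
            rw [norm_smul, Real.norm_eq_abs, abs_of_pos hν] at b2
            have b3 : ‖m (u n s)‖ ≤ C * ‖z n s‖ ^ 2 := norm_m_le Fr (hV n ((S n).mem s hs'))
            have b4 := hz n s hs'
            have b5 : C * ‖z n s‖ ^ 2 ≤ C * R ^ 2 := by gcongr
            have b6 : ν * ‖z n s‖ ≤ ν * R := by gcongr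
            have b7 : ‖Fn n s‖ ≤ Φ + 1 := by
              have c1 := hF1 s hs'
              have c2 := hΦ s hs'
              have c3 := norm_sub_norm_le (Fn n s) (F s)
              linarith
            rw [hG]
            linarith
          exact mul_le_mul b1 k2 (norm_nonneg _) hG0)
        rw [Real.norm_eq_abs, sub_zero, abs_of_nonneg ht.1] at this
        refine this.trans ?_
        have : G * ε * t ≤ G * ε * T := by
          have := ht.2
          gcongr
        linarith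
      have e5 : |⟪u n t - u n 0, q.1 - p.1⟫_ℝ| ≤ Y * T * ε := by
        refine (abs_real_inner_le_norm _ _).trans ?_
        have b1 := lipu n t ht 0 h0T
        rw [sub_zero, abs_of_nonneg ht.1] at b1
        have b2 : Y * t ≤ Y * T := by
          have := ht.2
          gcongr
        exact mul_le_mul (b1.trans b2) k1 (norm_nonneg _) (by positivity)
      have e6 := abs_sub (∫ s in (0 : ℝ)..t, ⟪Fn n s - ν • z n s + m (u n s), q.2 - p.2⟫_ℝ)
        ⟪u n t - u n 0, q.1 - p.1⟫_ℝ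
      linarith
    have hzero : |⟪v t - v 0, p.1⟫_ℝ
        - ∫ s in (0 : ℝ)..t, ⟪F s - ν • y s + m (v s), p.2⟫_ℝ| ≤ 0 := by
      refine le_of_forall_pos_le_add fun ε hε => ?_
      have h3 := hbd (ε / (Y * T + T * G + 1)) (by positivity)
      refine h3.trans ?_
      rw [zero_add, mul_div_assoc', div_le_iff₀ (by positivity)]
      have : 0 ≤ Y * T + T * G := by positivity
      nlinarith
    have := abs_nonpos_iff.mp hzero
    linarith
  refine ⟨v, v1, y, y1, str_of_weak (frame_sub Fr hV0 hV0c) hT hFc memV ?_ ⟨Y, ?_⟩ hv1 hy1 hv1'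
    hy1' weak, ?_⟩
  · filter_upwards [hmem1] with s hs using hs.1
  · filter_upwards [hmem1] with s hs using hs.2
  · intro ε hε
    filter_upwards [Uu ε hε, Uz ε hε] with n k1 k2 t ht
    exact ⟨k1 t ht, k2 t ht⟩

end Pool.Agent.X75C
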