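import Pool.Agent.X75C.Exh
import Pool.Agent.Y303.RA.Conc

/-!
Continuity of the peak of the enstrophy under Mosco convergence of the domains.
-/

set_option autoImplicit false
set_option linter.unusedSectionVars false

open MeasureTheory Set Filter Topology
open scoped InnerProductSpace NNReal ENNReal ContDiff

namespace Pool.Agent.X75C

open H772R2.NS H772R2.NS.Pub
open H772R2.NSR (Frame exists_frame exists_pair grad_unique exists_weak_limit mem_of_weak_limit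
  rellich_W prim_cont)
open H772R2.NSG (ii_of_int)
open Pool.Agent.Y303.RA (Hom hom_tensL)
open Pool.Agent.W795.TQ

theorem fh_map {K K' : Type} [NormedAddCommGroup K] [InnerProductSpace ℝ K] [CompleteSpace K]
    [NormedAddCommGroup K'] [InnerProductSpace ℝ K'] [CompleteSpace K'] (L : K →L[ℝ] K')
    {T : ℝ} {F F1 : ℝ → K} (h : FH T F F1) : FH T (fun t => L (F t)) (fun t => L (F1 t)) := by
  refine ⟨L.comp_memLp' h.memLp, fun a b ha hab hb => ?_⟩
  have hi : IntervalIntegrable F1 volume a b :=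
    ii_of_int (h.memLp.integrable (by norm_num)) ha hab hb
  rw [L.intervalIntegral_comp_comm hi, ← h.prim a b ha hab hb, map_sub]

variable {D : ℕ → Set E3} {Ω B : Set E3} {ν T M N : ℝ} {Φ Φ' : ℕ → ℝ → L2M univ}
  {Φ0 : ℝ → L2M univ} {F : ∀ n, ℝ → L2M (D n)} {F0 : ℝ → L2M Ω} {x : ∀ n, L2V (D n)}
  {y : ∀ n, L2M (D n)} {g : ∀ n, L2V (D n)} {x0 : L2V Ω}

theorem setup_of (hD : ∀ n, IsOpen (D n)) (hΩ : IsOpen Ω) (hB : IsOpen B)
    (hb : Bornology.IsBounded B) (hDB : ∀ n, D n ⊆ B) (hΩB : Ω ⊆ B) (Mo : Mosco D Ω)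
    (hν : 0 < ν) (hT : 0 < T) (hΦ : ∀ n, FH T (Φ n) (Φ' n))
    (hΦM : ∀ n, (∫ s in (0 : ℝ)..T, ‖Φ' n s‖ ^ 2) ≤ N) (hΦ0 : ContinuousOn Φ0 (Icc 0 T))
    (hlim : ∀ ε : ℝ, 0 < ε → ∀ᶠ n in atTop, ∀ t ∈ Icc 0 T, ‖Φ n t - Φ0 t‖ ≤ ε)
    (hF : ∀ n, ∀ t ∈ Icc 0 T, F n t =ᵐ[volume.restrict (D n)] Φ n t)
    (hxy : ∀ n, (x n, y n) ∈ graphW (D n)) (hy : ∀ n, ‖y n‖ ≤ M) (hg : ∀ n, ‖g n‖ ≤ M)
    (hc : ∀ n, ∀ p ∈ graphW (D n), ⟪F n 0 - ν • y n + tensL (x n), p.2⟫_ℝ = ⟪g n, p.1⟫_ℝ)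
    (hx : Tendsto (fun n => dst (D := D n) (Ω := Ω) (E := R3) (x n) x0) atTop (𝓝 0)) :
    ∃ C, Frame (graphW B) (tensL (Ω := B)) C ∧
      Setup (graphW B) (fun n => WD (hD n).measurableSet (hDB n)) (WD hΩ.measurableSet hΩB)
      (tensL (Ω := B)) C ν T (fun n t => rs M3 hB.measurableSet (subset_univ B) (Φ n t))
      (fun n t => rs M3 hB.measurableSet (subset_univ B) (Φ' n t))
      (fun t => rs M3 hB.measurableSet (subset_univ B) (Φ0 t))
      (fun n => ext E3 (hD n).measurableSet (hDB n) (x n))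
      (fun n => ext E3 (hD n).measurableSet (hDB n) (g n))
      (fun n => ext M3 (hD n).measurableSet (hDB n) (y n))
      (ext E3 hΩ.measurableSet hΩB x0) M N := by
  obtain ⟨C, Fr⟩ := exists_frame hB hb
  have hBm := hB.measurableSet
  refine ⟨C, Fr, Fr, hom_tensL hBm, rellich_W hB hb, hν, hT, fun n => WD_le _ _,
    fun n => WD_closed _ _, WD_le _ _, WD_closed _ _,
    fun U hU => conv_of hD hΩ hB hb hDB hΩB Mo U hU, fun n => fh_map _ (hΦ n), fun n => ?_, ?_,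
    fun ε hε => ?_, fun n => ?_, fun n => ?_, fun n => ?_, fun n => ?_, ?_⟩
  · refine le_trans ?_ (hΦM n)
    have h2 : Integrable (fun s => ‖Φ' n s‖ ^ 2) (volume.restrict (Ioc 0 T)) :=
      (memLp_two_iff_integrable_sq_norm (hΦ n).memLp.aestronglyMeasurable).mp (hΦ n).memLp
    have h3 := fh_map (rs M3 hBm (subset_univ B)) (hΦ n)
    have h4 : Integrable (fun s => ‖rs M3 hBm (subset_univ B) (Φ' n s)‖ ^ 2)
        (volume.restrict (Ioc 0 T)) :=
      (memLp_two_iff_integrable_sq_norm h3.memLp.aestronglyMeasurable).mp h3.memLp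
    refine intervalIntegral.integral_mono_on hT.le (ii_of_int h4 le_rfl hT.le le_rfl)
      (ii_of_int h2 le_rfl hT.le le_rfl) fun s _ => ?_
    have := rs_le hBm (subset_univ B) (Φ' n s)
    gcongr
  · exact (rs M3 hBm (subset_univ B)).continuous.comp_continuousOn hΦ0
  · filter_upwards [hlim ε hε] with n hn t ht
    rw [← map_sub]
    exact (rs_le _ _ _).trans (hn t ht)
  · exact (mem_WD _ _).mpr ⟨_, hxy n, rfl, rfl⟩
  · rw [(ext M3 (hD n).measurableSet (hDB n)).norm_map]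
    exact hy n
  · rw [(ext E3 (hD n).measurableSet (hDB n)).norm_map]
    exact hg n
  · intro p hp
    obtain ⟨q, hq, e1, e2⟩ := (mem_WD _ _).mp hp
    have e3 := tensL_ext (hD n).measurableSet hBm (hDB n) (hxy n)
    simp only at e3
    rw [← e1, ← e2, e3, (ext E3 (hD n).measurableSet (hDB n)).inner_map_map, ← hc n q hq,
      inner_add_left, inner_sub_left, inner_add_left, inner_sub_left,
      real_inner_smul_left, real_inner_smul_left,
      (ext M3 (hD n).measurableSet (hDB n)).inner_map_map,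
      (ext M3 (hD n).measurableSet (hDB n)).inner_map_map,
      pair (hD n).measurableSet hBm (hDB n) (subset_univ B) (hF n 0 ⟨le_rfl, hT.le⟩)]
  · rw [tendsto_iff_edist_tendsto_0]
    refine hx.congr fun n => ?_
    rw [edist_eq_enorm_sub]
    exact dstV (hD n).measurableSet hΩ.measurableSet hBm (hDB n) hΩB (x n) x0

/-- the compatibility condition in terms of test fields -/
theorem compat_pub {D : Set E3} (hD : IsOpen D) {ν : ℝ} {x g : L2V D} {y F : L2M D}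
    (hxy : (x, y) ∈ graphW D)
    (hc : ∀ φ : E3 → E3, Pub.IsTest D φ → Pub.rhs (Ω := D) ν x y F φ
      = ∫ z in (show Set R3 from D), ⟪L2.fn (Ω := D) (E := R3) g z, (φ : R3 → R3) z⟫_ℝ) :
    ∀ p ∈ graphW D, ⟪F - ν • y + tensL x, p.2⟫_ℝ = ⟪g, p.1⟫_ℝ := by
  refine H772R2.NSR.compat_ext ?_
  rintro p ⟨φ, k1, k2, k3⟩
  rw [← H772R2.NSR.pub_rhs hD.measurableSet ν F hxy k3, ← H772R2.NSR.pub_inner (Ω := D) g k2]
  exact hc φ ((isTest_iff φ).mpr k1)

theorem mid (hloc : S_loc) (huni : S_uni) (hD : ∀ n, IsOpen (D n)) (hΩ : IsOpen Ω)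
    (hB : IsOpen B)
    (hb : Bornology.IsBounded B) (hDB : ∀ n, D n ⊆ B) (hΩB : Ω ⊆ B) (Mo : Mosco D Ω)
    (hν : 0 < ν) (hT : 0 < T) (hΦ : ∀ n, FH T (Φ n) (Φ' n))
    (hΦM : ∀ n, (∫ s in (0 : ℝ)..T, ‖Φ' n s‖ ^ 2) ≤ N) (hΦ0 : ContinuousOn Φ0 (Icc 0 T))
    (hlim : ∀ ε : ℝ, 0 < ε → ∀ᶠ n in atTop, ∀ t ∈ Icc 0 T, ‖Φ n t - Φ0 t‖ ≤ ε)
    (hF : ∀ n, ∀ t ∈ Icc 0 T, F n t =ᵐ[volume.restrict (D n)] Φ n t)
    (hF0 : ∀ t ∈ Icc 0 T, F0 t =ᵐ[volume.restrict Ω] Φ0 t)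
    (hxy : ∀ n, (x n, y n) ∈ graphW (D n)) (hy : ∀ n, ‖y n‖ ≤ M) (hg : ∀ n, ‖g n‖ ≤ M)
    (hc : ∀ n, ∀ p ∈ graphW (D n), ⟪F n 0 - ν • y n + tensL (x n), p.2⟫_ℝ = ⟪g n, p.1⟫_ℝ)
    (hx : Tendsto (fun n => dst (D := D n) (Ω := Ω) (E := R3) (x n) x0) atTop (𝓝 0)) :
    Tendsto (fun n => peak (D n) ν T (F n) (x n)) atTop (𝓝 (peak Ω ν T F0 x0)) ∧
      ∀ (u u' : ℝ → L2V Ω) (G G' : ℝ → L2M Ω), IsStrong Ω ν T F0 u u' G G' → u 0 = x0 →
        ∀ ε : ℝ≥0∞, 0 < ε → ∀ᶠ n in atTop,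
          (∃ (v v' : ℝ → L2V (D n)) (J J' : ℝ → L2M (D n)), IsStrong (D n) ν T (F n) v v' J J' ∧
            v 0 = x n) ∧
          ∀ (v v' : ℝ → L2V (D n)) (J J' : ℝ → L2M (D n)), IsStrong (D n) ν T (F n) v v' J J' →
            v 0 = x n → ∀ t ∈ Icc 0 T, dst (D := D n) (Ω := Ω) (E := R3) (v t) (u t) ≤ ε ∧
              dst (D := D n) (Ω := Ω) (E := Mat) (J t) (G t) ≤ ε := by
  obtain ⟨C, Fr, S⟩ := setup_of hD hΩ hB hb hDB hΩB Mo hν hT hΦ hΦM hΦ0 hlim hF hxy hy hg hc hx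
  have hBm := hB.measurableSet
  -- the frames of the domains
  have hfn : ∀ n, ∃ Cn, Frame (graphW (D n)) (tensL (Ω := D n)) Cn := fun n =>
    exists_frame (hD n) (hb.subset (hDB n))
  choose Cn Frn using hfn
  obtain ⟨C0, Fr0⟩ := exists_frame hΩ (hb.subset hΩB)
  -- continuity of the forces
  have hFc : ∀ n, ContinuousOn (F n) (Icc 0 T) := by
    intro n
    have h1 : ContinuousOn (fun t => rs M3 (hD n).measurableSet (subset_univ _) (Φ n t))
        (Icc 0 T) := (rs M3 (hD n).measurableSet (subset_univ _)).continuous.comp_continuousOn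
      (prim_cont (hΦ n).memLp (hΦ n).prim)
    exact h1.congr fun t ht => rs_eq _ _ (hF n t ht)
  have hF0c : ContinuousOn F0 (Icc 0 T) := by
    have h1 : ContinuousOn (fun t => rs M3 hΩ.measurableSet (subset_univ _) (Φ0 t))
        (Icc 0 T) := (rs M3 hΩ.measurableSet (subset_univ _)).continuous.comp_continuousOn hΦ0
    exact h1.congr fun t ht => rs_eq _ _ (hF0 t ht)
  have embn := fun n => emb (hD n).measurableSet hBm (hDB n)
  have emb0 := emb hΩ.measurableSet hBm hΩB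
  have pairn : ∀ n, ∀ t ∈ Icc 0 T, ∀ p ∈ graphW (D n),
      ⟪rs M3 hBm (subset_univ B) (Φ n t), ext M3 (hD n).measurableSet (hDB n) p.2⟫_ℝ
        = ⟪F n t, p.2⟫_ℝ := fun n t ht p _ =>
    pair (hD n).measurableSet hBm (hDB n) (subset_univ B) (hF n t ht) p.2
  have pair0 : ∀ t ∈ Icc 0 T, ∀ p ∈ graphW Ω,
      ⟪rs M3 hBm (subset_univ B) (Φ0 t), ext M3 hΩ.measurableSet hΩB p.2⟫_ℝ
        = ⟪F0 t, p.2⟫_ℝ := fun t ht p _ =>
    pair hΩ.measurableSet hBm hΩB (subset_univ B) (hF0 t ht) p.2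
  constructor
  · have h1 := S.peak hloc huni
    have e0 : peak Ω ν T F0 x0 = pk (WD hΩ.measurableSet hΩB) (tensL (Ω := B)) ν T
        (fun t => rs M3 hBm (subset_univ B) (Φ0 t)) (ext E3 hΩ.measurableSet hΩB x0) :=
      (peak_eq hΩ hT hF0c Fr0 x0).trans (emb0.pk Fr0 hT hF0c pair0 x0).symm
    have en : ∀ n, peak (D n) ν T (F n) (x n) = pk (WD (hD n).measurableSet (hDB n))
        (tensL (Ω := B)) ν T (fun t => rs M3 hBm (subset_univ B) (Φ n t))
        (ext E3 (hD n).measurableSet (hDB n) (x n)) := fun n =>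
      (peak_eq (hD n) hT (hFc n) (Frn n) (x n)).trans
        ((embn n).pk (Frn n) hT (hFc n) (pairn n) (x n)).symm
    rw [e0]
    exact h1.congr fun n => (en n).symm
  · intro u u' G G' hS hu0 ε hε
    have S0 := emb0.up pair0 (str_of_strong hΩ hT hF0c Fr0 hS)
    by_cases hεt : ε = ⊤
    · have h1 := S.stab hloc huni S0 (by rw [hu0]) (ε := 1) one_pos
      filter_upwards [h1] with n hn
      obtain ⟨⟨v, v1, w, w1, k1, k2⟩, -⟩ := hn
      obtain ⟨v', v1', w', w1', k3, k4⟩ := (embn n).down (Frn n) hT (hFc n) (pairn n) k1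
      refine ⟨⟨v', v1', w', w1', strong_of_str (hD n) hT k3 (fun _ _ => rfl), ?_⟩, ?_⟩
      · apply (ext E3 (hD n).measurableSet (hDB n)).injective
        rw [(k4 0 ⟨le_rfl, hT.le⟩).1, k2]
      · intro _ _ _ _ _ _ _ _
        rw [hεt]
        exact ⟨le_top, le_top⟩
    · have hε' : 0 < ε.toReal := ENNReal.toReal_pos hε.ne' hεt
      have h1 := S.stab hloc huni S0 (by rw [hu0]) (ε := ε.toReal) hε'
      filter_upwards [h1] with n hn
      obtain ⟨⟨v, v1, w, w1, k1, k2⟩, hn2⟩ := hn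
      obtain ⟨v', v1', w', w1', k3, k4⟩ := (embn n).down (Frn n) hT (hFc n) (pairn n) k1
      refine ⟨⟨v', v1', w', w1', strong_of_str (hD n) hT k3 (fun _ _ => rfl), ?_⟩, ?_⟩
      · apply (ext E3 (hD n).measurableSet (hDB n)).injective
        rw [(k4 0 ⟨le_rfl, hT.le⟩).1, k2]
      · intro a a' b b' hab ha0 t ht
        have S1 := (embn n).up (pairn n) (str_of_strong (hD n) hT (hFc n) (Frn n) hab)
        have h2 := hn2 _ _ _ _ S1 (by rw [ha0]) t ht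
        have hconv : ∀ {Y : Type} [NormedAddCommGroup Y] (r : Y), ‖r‖ ≤ ε.toReal → ‖r‖ₑ ≤ ε := by
          intro Y _ r hr
          rw [← ofReal_norm, ← ENNReal.ofReal_toReal hεt]
          exact ENNReal.ofReal_le_ofReal hr
        constructor
        · refine (dstV (hD n).measurableSet hΩ.measurableSet hBm (hDB n) hΩB (a t) (u t)).le.trans ?_
          exact hconv _ h2.1
        · refine (dstM (hD n).measurableSet hΩ.measurableSet hBm (hDB n) hΩB (b t) (G t)).le.trans ?_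
          exact hconv _ h2.2

end Pool.Agent.X75C
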