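import Pool.Agent.X75C.Dst

/-!
Mosco convergence of domains in terms of the internal definitions.
-/

set_option autoImplicit false
set_option linter.unusedSectionVars false

open MeasureTheory Set Filter Topology
open scoped InnerProductSpace NNReal ENNReal ContDiff

namespace Pool.Agent.X75C

open H772R2.NS H772R2.NS.Pub
open H772R2.NSR (Frame exists_frame exists_pair grad_unique exists_weak_limit mem_of_weak_limit)
open Pool.Agent.W795.TQ

variable {A B D Ω : Set E3}

theorem dstV (hD : MeasurableSet D) (hΩ : MeasurableSet Ω) (hB : MeasurableSet B) (h1 : D ⊆ B)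
    (h2 : Ω ⊆ B) (v : L2V D) (w : L2V Ω) :
    dst (D := D) (Ω := Ω) (E := R3) v w
      = ‖ext E3 hD h1 v - ext E3 hΩ h2 w‖ₑ := eLp_eq hD hΩ hB h1 h2 v w

theorem dstM (hD : MeasurableSet D) (hΩ : MeasurableSet Ω) (hB : MeasurableSet B) (h1 : D ⊆ B)
    (h2 : Ω ⊆ B) (v : L2M D) (w : L2M Ω) :
    dst (D := D) (Ω := Ω) (E := Mat) v w
      = ‖ext M3 hD h1 v - ext M3 hΩ h2 w‖ₑ := eLp_eq hD hΩ hB h1 h2 v w

/-- the distance to an element of `L²(ℝ³)` supported in `B` -/
theorem dstU (hD : MeasurableSet D) (hB : MeasurableSet B) (h1 : D ⊆ B) (v : L2V D) (b : L2V B) :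
    dst (D := D) (Ω := univ) (E := R3) v
      (ext E3 hB (subset_univ B) b) = ‖ext E3 hD h1 v - b‖ₑ := by
  have e := dstV hD MeasurableSet.univ MeasurableSet.univ (subset_univ D) Subset.rfl v
    (ext E3 hB (subset_univ B) b)
  refine e.trans ?_
  rw [ext_comp hB MeasurableSet.univ (subset_univ B) Subset.rfl b,
    ← ext_comp hD hB h1 (subset_univ B), ← map_sub]
  exact (ext E3 hB (subset_univ B)).enorm_map _

theorem enorm_le_of {F : Type} [NormedAddCommGroup F] {x : F} {ε : ℝ}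
    (h : ‖x‖ₑ ≤ ENNReal.ofReal ε) (hε : 0 ≤ ε) : ‖x‖ ≤ ε := by
  rw [← ofReal_norm] at h
  exact (ENNReal.ofReal_le_ofReal_iff hε).mp h

theorem conv_of {D : ℕ → Set E3} (hD : ∀ n, IsOpen (D n)) (hΩ : IsOpen Ω) (hB : IsOpen B)
    (hb : Bornology.IsBounded B) (hDB : ∀ n, D n ⊆ B) (hΩB : Ω ⊆ B)
    (M : Mosco D Ω) (U : Ultrafilter ℕ)
    (hU : (U : Filter ℕ) ≤ atTop) :
    Conv (fun n => WD (hD n).measurableSet (hDB n)) (WD hΩ.measurableSet hΩB)
      (U : Filter ℕ) := by
  obtain ⟨C, Fr⟩ := exists_frame hB hb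
  have hBm := hB.measurableSet
  constructor
  · intro p hp ε hε
    obtain ⟨q, hq, e1, e2⟩ := (mem_WD hΩ.measurableSet hΩB).mp hp
    have h1 := M.lower q (mem_pub.mp hq) (ENNReal.ofReal ε) (by simpa using hε)
    filter_upwards [hU h1] with n hn
    obtain ⟨r, hr, k1, k2⟩ := hn
    have k1' : ‖ext E3 (hD n).measurableSet (hDB n) r.1 - ext E3 hΩ.measurableSet hΩB q.1‖ₑ
        ≤ ENNReal.ofReal ε :=
      (dstV (hD n).measurableSet hΩ.measurableSet hBm (hDB n) hΩB r.1 q.1).symm.le.trans k1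
    have k2' : ‖ext M3 (hD n).measurableSet (hDB n) r.2 - ext M3 hΩ.measurableSet hΩB q.2‖ₑ
        ≤ ENNReal.ofReal ε :=
      (dstM (hD n).measurableSet hΩ.measurableSet hBm (hDB n) hΩB r.2 q.2).symm.le.trans k2
    refine ⟨ext2 (hD n).measurableSet (hDB n) r,
      (mem_WD (hD n).measurableSet (hDB n)).mpr ⟨r, mem_pub.mpr hr, rfl, rfl⟩, ?_, ?_⟩
    · rw [← e1]
      exact enorm_le_of k1' hε.le
    · rw [← e2]
      exact enorm_le_of k2' hε.le
  · intro p p0 R h1 h2 h3 h4
    -- the pair of limits is in the graph of the big domain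
    have hmem : (p0.1, p0.2) ∈ graphW B := mem_of_weak_limit (graphW B) Fr.closedW (U : Filter ℕ)
      (fun n => (p n).1) (fun n => (p n).2) p0.1 p0.2
      (Eventually.of_forall fun n => WD_le _ _ (h1 n)) (fun y => h3.inner tendsto_const_nhds) h4
    -- a subsequence
    have hfr : ∀ j : ℕ, ∃ᶠ n in atTop, ‖(p n).1 - p0.1‖ < 1 / ((j : ℝ) + 1) := by
      intro j
      have h5 : ∀ᶠ n in (U : Filter ℕ), ‖(p n).1 - p0.1‖ < 1 / ((j : ℝ) + 1) := by
        have := (tendsto_iff_norm_sub_tendsto_zero.mp h3).eventually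
          (gt_mem_nhds (show (0 : ℝ) < 1 / ((j : ℝ) + 1) by positivity))
        exact this
      exact h5.frequently.filter_mono hU
    obtain ⟨k, hk, hkP⟩ := extraction_forall_of_frequently hfr
    have hq : ∀ j, ∃ q ∈ graphW (D (k j)), ext E3 (hD (k j)).measurableSet (hDB (k j)) q.1
        = (p (k j)).1 ∧ ext M3 (hD (k j)).measurableSet (hDB (k j)) q.2 = (p (k j)).2 := fun j =>
      (mem_WD _ _).mp (h1 (k j))
    choose q hq1 hq2 hq3 using hq
    obtain ⟨r, hr, hr2⟩ := M.upper k hk (fun j => q j) (fun j => mem_pub.mp (hq1 j)) ⟨R, fun j => by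
      have := h2 (k j)
      rw [← hq3 j, (ext M3 (hD (k j)).measurableSet (hDB (k j))).norm_map] at this
      exact this⟩ (ext E3 hBm (subset_univ B) p0.1) (by
      have e : ∀ j, dst (D := (D (k j))) (Ω := univ) (E := R3)
          (q j).1 (ext E3 hBm (subset_univ B) p0.1) = ‖(p (k j)).1 - p0.1‖ₑ := by
        intro j
        rw [dstU (hD (k j)).measurableSet hBm (hDB (k j)), hq2]
      have h5 : Tendsto (fun j => ‖(p (k j)).1 - p0.1‖ₑ) atTop (𝓝 0) := by
        have h6 : Tendsto (fun j : ℕ => ENNReal.ofReal (1 / ((j : ℝ) + 1))) atTop (𝓝 0) := by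
          rw [← ENNReal.ofReal_zero]
          exact (ENNReal.continuous_ofReal.tendsto 0).comp tendsto_one_div_add_atTop_nhds_zero_nat
        refine tendsto_of_tendsto_of_tendsto_of_le_of_le tendsto_const_nhds h6
          (fun _ => bot_le) fun j => ?_
        simp only
        rw [← ofReal_norm]
        exact ENNReal.ofReal_le_ofReal (hkP j).le
      exact h5.congr fun j => (e j).symm)
    have hr' : r ∈ graphW Ω := mem_pub.mpr hr
    have e1 : ext E3 hΩ.measurableSet hΩB r.1 = p0.1 := by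
      have h5 : ‖ext E3 hΩ.measurableSet hΩB r.1 - p0.1‖ₑ = 0 :=
        (dstU hΩ.measurableSet hBm hΩB r.1 p0.1).symm.trans hr2
      rw [enorm_eq_zero] at h5
      exact sub_eq_zero.mp h5
    have e2 : ext M3 hΩ.measurableSet hΩB r.2 = p0.2 := by
      have h5 : (ext E3 hΩ.measurableSet hΩB r.1, ext M3 hΩ.measurableSet hΩB r.2) ∈ graphW B :=
        ext_mem hΩ.measurableSet hΩB hr'
      rw [e1] at h5
      exact grad_unique Fr h5 hmem
    exact (mem_WD _ _).mpr ⟨r, hr', e1, e2⟩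

end Pool.Agent.X75C
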