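import Pool.Agent.H772R2.NSR.PubR

/-!
Public definitions: the distance of extensions by zero, the peak of the enstrophy, convergence of
domains in the sense of Mosco.
-/

set_option autoImplicit false

open MeasureTheory Set Filter Topology
open scoped InnerProductSpace ENNReal ContDiff

namespace Pool.Agent.X75C

open H772R2.NS.Pub

/-- The distance in `L²(ℝ³)` of the extensions by zero of `v ∈ L²(D)` and `w ∈ L²(Ω)`. -/
noncomputable def dst {D Ω : Set R3} {E : Type} [NormedAddCommGroup E] (v : L2 D E)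
    (w : L2 Ω E) : ℝ≥0∞ :=
  eLpNorm (fun x => D.indicator v.fn x - Ω.indicator w.fn x) 2 (volume : Measure R3)

/-- The restriction to `D` of `v ∈ L²(ℝ³)`. -/
noncomputable def restr (D : Set R3) {E : Type} [NormedAddCommGroup E] (v : L2 univ E) : L2 D E :=
  MemLp.toLp v.fn ((Lp.memLp (show Lp E 2 ((volume : Measure R3).restrict univ) from
    v)).mono_measure (Measure.restrict_mono (subset_univ D) le_rfl))

/-- `x ∈ H¹_{0,σ}(D)` is an initial velocity with the bounds `‖∇x‖ ≤ M` and `‖g‖ ≤ M` in `L²(D)`,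
where `g` is an initial acceleration: the right-hand side `P((νΔx - (x·∇)x) + f(0))` of the
equations, the force `f(0)` being given by `F`. -/
def Adm (D : Set R3) (ν M : ℝ) (F : L2 D Mat) (x : L2 D R3) : Prop :=
  ∃ (y : L2 D Mat) (g : L2 D R3), (x, y) ∈ H1graph D ∧ ‖y‖ ≤ M ∧ ‖g‖ ≤ M ∧
    ∀ φ, IsTest D φ → rhs ν x y F φ = ∫ z in D, ⟪g.fn z, φ z⟫_ℝ

/-- The peak `max_{[0,T]} ‖∇u(t)‖` of the square root of the enstrophy of the strong solution `u`
on `[0,T]` of the Navier-Stokes equations in `Ω` with viscosity `ν`, zero boundary values, force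
given by `F` and the initial velocity `x`; it is `∞` if there is no strong solution on `[0,T]`.
(The strong solution is unique, the infimum only selects it.) -/
noncomputable def peak (Ω : Set R3) (ν T : ℝ) (F : ℝ → L2 Ω Mat) (x : L2 Ω R3) : ℝ≥0∞ :=
  sInf {P | ∃ (u u' : ℝ → L2 Ω R3) (G G' : ℝ → L2 Ω Mat), IsStrong Ω ν T F u u' G G' ∧ u 0 = x ∧
    P = ⨆ t ∈ Icc 0 T, ‖G t‖ₑ}

/-- The domains `D n` converge to `Ω` in the sense of Mosco, for the spaces `H¹_{0,σ}`, the fields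
being extended by zero:
* every element of `H¹_{0,σ}(Ω)` is the limit in `H¹` of elements of `H¹_{0,σ}(D n)`;
* the limit in `L²(ℝ³)` of a sequence of elements of `H¹_{0,σ}(D (k n))`, bounded in `H¹`, where
  `k` is a subsequence, is in `H¹_{0,σ}(Ω)`. -/
structure Mosco (D : ℕ → Set R3) (Ω : Set R3) : Prop where
  lower : ∀ p ∈ H1graph Ω, ∀ ε : ℝ≥0∞, 0 < ε → ∀ᶠ n in atTop, ∃ q ∈ H1graph (D n),
    dst q.1 p.1 ≤ ε ∧ dst q.2 p.2 ≤ ε
  upper : ∀ k : ℕ → ℕ, StrictMono k → ∀ p : ∀ n, L2 (D (k n)) R3 × L2 (D (k n)) Mat,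
    (∀ n, p n ∈ H1graph (D (k n))) → (∃ M : ℝ, ∀ n, ‖(p n).2‖ ≤ M) → ∀ v : L2 univ R3,
    Tendsto (fun n => dst (p n).1 v) atTop (𝓝 0) → ∃ q ∈ H1graph Ω, dst q.1 v = 0

/-- A set of domains is compact for Mosco convergence if every sequence of elements has a
subsequence converging to an element. -/
def MoscoCompact (𝒟 : Set (Set R3)) : Prop :=
  ∀ D : ℕ → Set R3, (∀ n, D n ∈ 𝒟) → ∃ k : ℕ → ℕ, StrictMono k ∧ ∃ Ω ∈ 𝒟,
    Mosco (fun n => D (k n)) Ω

/-- The open sets `D` with `B(0, r) ⊆ D ⊆ B(0, R)` which are star-shaped with respect to every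
point of `B(0, r)`, for example all convex open sets between the two balls. -/
def starBall (r R : ℝ) : Set (Set R3) :=
  {D | IsOpen D ∧ Metric.ball 0 r ⊆ D ∧ D ⊆ Metric.ball 0 R ∧
    ∀ c ∈ Metric.ball (0 : R3) r, ∀ x ∈ D, ∀ θ ∈ Icc (0 : ℝ) 1, (1 - θ) • c + θ • x ∈ D}

end Pool.Agent.X75C
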