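import Pool.Agent.X75C.Dil

/-!
A criterion for Mosco convergence.
-/

set_option autoImplicit false
set_option linter.unusedSectionVars false

open MeasureTheory Set Filter Topology
open scoped InnerProductSpace NNReal ENNReal ContDiff

namespace Pool.Agent.X75C

open H772R2.NS H772R2.NS.Pub
open H772R2.NSR (Frame exists_frame exists_pair grad_unique exists_weak_limit mem_of_weak_limit)
open Pool.Agent.W795.TQ

variable {D : ℕ → Set E3} {Ω : Set E3}

theorem lower_of (hD : ∀ n, IsOpen (D n)) (hΩ : IsOpen Ω)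
    (h1 : ∀ K : Set E3, IsCompact K → K ⊆ Ω → ∀ᶠ n in atTop, K ⊆ D n) {p : L2V Ω × L2M Ω}
    (hp : p ∈ graphW Ω) {ε : ℝ≥0∞} (hε : 0 < ε) :
    ∀ᶠ n in atTop, ∃ q ∈ graphW (D n), dst (D := D n) (Ω := Ω) (E := R3) q.1 p.1 ≤ ε ∧
      dst (D := D n) (Ω := Ω) (E := Mat) q.2 p.2 ≤ ε := by
  have hΩm := hΩ.measurableSet
  have hcl : p ∈ closure (preW Ω : Set (L2V Ω × L2M Ω)) := by
    have := hp
    unfold graphW at this
    rwa [← SetLike.mem_coe, Submodule.topologicalClosure_coe] at this
  obtain ⟨r, ⟨φ, k1, k2, k3⟩, hr⟩ := EMetric.mem_closure_iff.mp hcl ε hε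
  filter_upwards [h1 _ k1.compact k1.supp] with n hn
  have hφ : H772R2.NS.IsTest (D n) φ := ⟨k1.smooth, k1.compact, hn, k1.divfree⟩
  obtain ⟨q, hq, q1, q2⟩ := exists_pair (Ω := D n) hφ
  have hDm := (hD n).measurableSet
  have e1 : ext E3 hDm (subset_univ _) q.1 = ext E3 hΩm (subset_univ _) r.1 := by
    apply Lp.ext
    exact (ext_cls hDm (subset_univ _) q1 fun x hx => test_zero hφ hx).trans
      (ext_cls hΩm (subset_univ _) k2 fun x hx => test_zero k1 hx).symm
  have e2 : ext M3 hDm (subset_univ _) q.2 = ext M3 hΩm (subset_univ _) r.2 := by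
    apply Lp.ext
    exact (ext_cls hDm (subset_univ _) q2 fun x hx => test_jac_zero hφ hx).trans
      (ext_cls hΩm (subset_univ _) k3 fun x hx => test_jac_zero k1 hx).symm
  rw [edist_comm, Prod.edist_eq, max_lt_iff, edist_eq_enorm_sub, edist_eq_enorm_sub] at hr
  refine ⟨q, hq, ?_, ?_⟩
  · refine (dstV hDm hΩm MeasurableSet.univ (subset_univ _) (subset_univ _) q.1 p.1).le.trans ?_
    rw [e1, ← map_sub, (ext E3 hΩm (subset_univ Ω)).enorm_map]
    exact hr.1.le
  · refine (dstM hDm hΩm MeasurableSet.univ (subset_univ _) (subset_univ _) q.2 p.2).le.trans ?_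
    rw [e2, ← map_sub, (ext M3 hΩm (subset_univ Ω)).enorm_map]
    exact hr.2.le

/-- the derivative of a dilated field -/
theorem jac_dil {φ : E3 → E3} (h : ContDiff ℝ ∞ φ) (c : ℝ) (x : E3) :
    H772R2.NS.jac (fun y => φ (c • y)) x = c • H772R2.NS.jac φ (c • x) := by
  have hd : DifferentiableAt ℝ φ (c • x) := (h.differentiable (by simp)) _
  have h1 : HasFDerivAt (fun y : E3 => c • y) (c • ContinuousLinearMap.id ℝ E3) x :=
    (hasFDerivAt_id x).const_smul c
  have h2 : HasFDerivAt (fun y => φ (c • y))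
      ((fderiv ℝ φ (c • x)).comp (c • ContinuousLinearMap.id ℝ E3)) x :=
    hd.hasFDerivAt.comp x h1
  ext p
  rw [PiLp.smul_apply, jac_apply, jac_apply, h2.fderiv]
  simp

/-- dilated test fields -/
theorem test_dil {A B : Set E3} {φ : E3 → E3} (h : H772R2.NS.IsTest A φ) {c : ℝ} (hc : 0 < c)
    (hAB : ∀ x, c • x ∈ A → x ∈ B) : H772R2.NS.IsTest B (fun x => φ (c • x)) := by
  have hc0 : c ≠ 0 := hc.ne'
  have hts : tsupport (fun x => φ (c • x)) = (fun x => c • x) ⁻¹' tsupport φ :=
    tsupport_comp_eq_preimage φ (Homeomorph.smulOfNeZero c hc0)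
  refine ⟨h.smooth.comp (contDiff_const_smul c), ?_, ?_, fun x => ?_⟩
  · exact h.compact.comp_homeomorph (Homeomorph.smulOfNeZero c hc0)
  · rw [hts]
    intro x hx
    exact hAB x (h.supp hx)
  · have h1 := h.divfree (c • x)
    have h2 : ∀ i, H772R2.NS.jac (fun y => φ (c • y)) x (i, i)
        = c * H772R2.NS.jac φ (c • x) (i, i) := by
      intro i
      rw [jac_dil h.smooth, PiLp.smul_apply, smul_eq_mul]
    simp_rw [h2]
    rw [← Finset.mul_sum, h1, mul_zero]

theorem memLp_univ' {F : Type} [NormedAddCommGroup F] {f : E3 → F}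
    (h : MemLp f 2 ((volume : Measure E3).restrict univ)) : MemLp f 2 (volume : Measure E3) := by
  rwa [Measure.restrict_univ] at h

theorem eLp_univ {F : Type} [NormedAddCommGroup F] (f : E3 → F) :
    eLpNorm f 2 ((volume : Measure E3).restrict univ) = eLpNorm f 2 (volume : Measure E3) := by
  rw [Measure.restrict_univ]

theorem ae_univ {F : Type} {f g : E3 → F} (h : f =ᵐ[(volume : Measure E3).restrict univ] g) :
    f =ᵐ[(volume : Measure E3)] g := by
  rwa [Measure.restrict_univ] at h

theorem memLp_univ {F : Type} [NormedAddCommGroup F] (v : Lp F 2 ((volume : Measure E3).restrict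
    univ)) : MemLp v 2 (volume : Measure E3) := memLp_univ' (Lp.memLp v)

/-- the criterion -/
theorem mosco_star (hD : ∀ n, IsOpen (D n)) (hΩ : IsOpen Ω)
    (h1 : ∀ K : Set E3, IsCompact K → K ⊆ Ω → ∀ᶠ n in atTop, K ⊆ D n)
    (h2 : ∀ c : ℝ, 1 < c → ∀ᶠ n in atTop, ∀ x, c • x ∈ D n → x ∈ Ω) : Mosco D Ω := by
  have hΩm := hΩ.measurableSet
  constructor
  · rintro (p : L2V Ω × L2M Ω) hp ε hε
    filter_upwards [lower_of hD hΩ h1 (mem_pub.mpr hp) hε] with n hn
    obtain ⟨q, hq, hq1, hq2⟩ := hn
    exact ⟨q, mem_pub.mp hq, hq1, hq2⟩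
  · rintro k hk (p : ∀ n, L2V (D (k n)) × L2M (D (k n))) hp ⟨M, hM⟩ (v : L2V univ) hv
    have hp' : ∀ n, p n ∈ graphW (D (k n)) := fun n => mem_pub.mpr (hp n)
    have hDm : ∀ n, MeasurableSet (D (k n)) := fun n => (hD (k n)).measurableSet
    have hv' : Tendsto (fun n => ‖ext E3 (hDm n) (subset_univ _) (p n).1 - v‖ₑ) atTop (𝓝 0) := by
      refine hv.congr fun n => ?_
      refine (dstV (hDm n) MeasurableSet.univ MeasurableSet.univ
        (subset_univ _) Subset.rfl (p n).1 v).trans ?_
      rw [ext_self]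
    set c : ℕ → ℝ := fun j => 1 + 1 / ((j : ℝ) + 1) with hc
    have hc1 : ∀ j, 1 < c j := fun j => by
      have : (0 : ℝ) < 1 / ((j : ℝ) + 1) := by positivity
      simp only [hc]; linarith
    have hc2 : ∀ j, c j ≤ 2 := fun j => by
      have : 1 / ((j : ℝ) + 1) ≤ 1 := by
        rw [div_le_one (by positivity)]
        have : (0 : ℝ) ≤ j := Nat.cast_nonneg j
        linarith
      simp only [hc]; linarith
    have hclim : Tendsto c atTop (𝓝 1) := by
      have := (tendsto_one_div_add_atTop_nhds_zero_nat (𝕜 := ℝ)).const_add 1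
      simpa only [add_zero] using this
    -- a test field in a dilated domain
    have hex : ∀ j : ℕ, ∃ (n : ℕ) (φ : E3 → E3), (∀ x, c j • x ∈ D (k n) → x ∈ Ω) ∧
        H772R2.NS.IsTest (D (k n)) φ ∧
        eLpNorm (fun x => φ x - v x) 2 (volume : Measure E3) ≤
          2 * ENNReal.ofReal (1 / ((j : ℝ) + 1)) ∧
        eLpNorm (H772R2.NS.jac φ) 2 (volume : Measure E3) ≤ ENNReal.ofReal (|M| + 1) := by
      intro j
      have hj : (0 : ℝ≥0∞) < ENNReal.ofReal (1 / ((j : ℝ) + 1)) := by
        rw [ENNReal.ofReal_pos]; positivity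
      obtain ⟨n, hn1, hn2⟩ := ((hk.tendsto_atTop.eventually (h2 (c j) (hc1 j))).and
        ((ENNReal.tendsto_nhds_zero.mp hv') _ hj)).exists
      have hcl : p n ∈ closure (preW (D (k n)) : Set (L2V (D (k n)) × L2M (D (k n)))) := by
        have := hp' n
        unfold graphW at this
        rwa [← SetLike.mem_coe, Submodule.topologicalClosure_coe] at this
      have hj1 : ENNReal.ofReal (1 / ((j : ℝ) + 1)) ≤ 1 := by
        rw [ENNReal.ofReal_le_one, div_le_one (by positivity)]
        have : (0 : ℝ) ≤ j := Nat.cast_nonneg j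
        linarith
      obtain ⟨r, ⟨φ, k1, k2, k3⟩, hr⟩ := EMetric.mem_closure_iff.mp hcl _ hj
      rw [Prod.edist_eq, max_lt_iff, edist_eq_enorm_sub, edist_eq_enorm_sub] at hr
      refine ⟨n, φ, hn1, k1, ?_, ?_⟩
      · have e1 : (ext E3 (hDm n) (subset_univ _) r.1 : E3 → E3)
            =ᵐ[(volume : Measure E3).restrict univ] φ :=
          ext_cls (hDm n) (subset_univ _) k2 fun x hx => test_zero k1 hx
        have e2 : eLpNorm (fun x => φ x - v x) 2 (volume : Measure E3)
            = ‖ext E3 (hDm n) (subset_univ _) r.1 - v‖ₑ := by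
          rw [Lp.enorm_def, eLp_univ]
          refine eLpNorm_congr_ae ?_
          have e3 := ae_univ (Lp.coeFn_sub (ext E3 (hDm n) (subset_univ _) r.1) v)
          filter_upwards [ae_univ e1, e3] with x a1 a2
          rw [a2, Pi.sub_apply, a1]
        rw [e2]
        have e4 : ext E3 (hDm n) (subset_univ _) r.1 - v
            = (ext E3 (hDm n) (subset_univ _) (p n).1 - v)
              - ext E3 (hDm n) (subset_univ _) ((p n).1 - r.1) := by
          rw [map_sub]; abel
        rw [e4]
        refine enorm_sub_le.trans ?_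
        rw [(ext E3 (hDm n) (subset_univ _)).enorm_map, two_mul]
        exact add_le_add hn2 hr.1.le
      · have e1 : eLpNorm (H772R2.NS.jac φ) 2 (volume : Measure E3) = ‖r.2‖ₑ := by
          rw [← k1.eLpNorm_jac_restrict (hDm n), Lp.enorm_def]
          exact (eLpNorm_congr_ae k3).symm
        rw [e1]
        have e2 : r.2 = (p n).2 - ((p n).2 - r.2) := by abel
        have e3 : ‖r.2‖ₑ ≤ ‖(p n).2‖ₑ + ‖(p n).2 - r.2‖ₑ := by
          calc ‖r.2‖ₑ = ‖(p n).2 - ((p n).2 - r.2)‖ₑ := by rw [← e2]
            _ ≤ _ := enorm_sub_le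
        refine e3.trans ?_
        rw [ENNReal.ofReal_add (abs_nonneg M) zero_le_one, ENNReal.ofReal_one]
        refine add_le_add ?_ (hr.2.le.trans hj1)
        rw [← ofReal_norm]
        exact ENNReal.ofReal_le_ofReal ((hM n).trans (le_abs_self M))
    choose n φ f1 f2 f3 f4 using hex
    have hψ : ∀ j, H772R2.NS.IsTest Ω (fun x => φ j (c j • x)) := fun j =>
      test_dil (f2 j) (by linarith [hc1 j]) (f1 j)
    have hs : ∀ j, ∃ s ∈ graphW Ω, s.1 =ᵐ[volume.restrict Ω] (fun x => φ j (c j • x)) ∧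
        s.2 =ᵐ[volume.restrict Ω] H772R2.NS.jac (fun x => φ j (c j • x)) := fun j =>
      exists_pair (Ω := Ω) (hψ j)
    choose s s1 s2 s3 using hs
    obtain ⟨q, hq, hqv⟩ := upper_sub (D := fun _ => Ω) (fun _ => hΩ) hΩ (fun _ => Subset.rfl) s s1
      (M := 2 * (|M| + 1)) (by
      intro j
      have e1 : ‖(s j).2‖ₑ ≤ ENNReal.ofReal (2 * (|M| + 1)) := by
        rw [Lp.enorm_def, eLpNorm_congr_ae (s3 j)]
        refine (eLpNorm_mono_measure _ Measure.restrict_le_self).trans ?_
        have e2 : H772R2.NS.jac (fun x => φ j (c j • x))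
            = c j • fun x => H772R2.NS.jac (φ j) (c j • x) := by
          funext x
          exact jac_dil (f2 j).smooth (c j) x
        rw [e2, eLpNorm_const_smul, ENNReal.ofReal_mul (by norm_num)]
        have e3 : ‖c j‖ₑ ≤ ENNReal.ofReal 2 := by
          rw [← ofReal_norm, Real.norm_eq_abs, abs_of_pos (by linarith [hc1 j])]
          exact ENNReal.ofReal_le_ofReal (hc2 j)
        exact mul_le_mul' e3 ((dil_le (hc1 j).le
          (continuous_jac (f2 j).smooth).aestronglyMeasurable).trans (f4 j))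
      exact enorm_le_of e1 (by positivity)) v (by
      -- convergence
      have hvL : MemLp v 2 (volume : Measure E3) := memLp_univ v
      have hd := dil_tendsto hvL (fun j => (hc1 j).le) hclim
      have hbound : ∀ j, ‖ext E3 hΩm (subset_univ Ω) (s j).1 - v‖ₑ
          ≤ 2 * ENNReal.ofReal (1 / ((j : ℝ) + 1))
            + eLpNorm (fun x => v (c j • x) - v x) 2 (volume : Measure E3) := by
        intro j
        have e1 : (ext E3 hΩm (subset_univ Ω) (s j).1 : E3 → E3)
            =ᵐ[(volume : Measure E3).restrict univ] fun x => φ j (c j • x) :=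
          ext_cls hΩm (subset_univ _) (s2 j) fun x hx => test_zero (hψ j) hx
        have e2 : ‖ext E3 hΩm (subset_univ Ω) (s j).1 - v‖ₑ
            = eLpNorm (fun x => φ j (c j • x) - v x) 2 (volume : Measure E3) := by
          rw [Lp.enorm_def, eLp_univ]
          refine eLpNorm_congr_ae ?_
          have e3 := ae_univ (Lp.coeFn_sub (ext E3 hΩm (subset_univ Ω) (s j).1) v)
          filter_upwards [ae_univ e1, e3] with x a1 a2
          rw [a2, Pi.sub_apply, a1]
        have hφm : AEStronglyMeasurable (φ j) (volume : Measure E3) :=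
          (f2 j).smooth.continuous.aestronglyMeasurable
        have hm1 : AEStronglyMeasurable (fun x => φ j x - v x) (volume : Measure E3) :=
          hφm.sub hvL.aestronglyMeasurable
        have e3 : (fun x => φ j (c j • x) - v x)
            = (fun x => φ j (c j • x) - v (c j • x)) + fun x => v (c j • x) - v x := by
          funext x
          simp only [Pi.add_apply]
          abel
        rw [e2, e3]
        refine (eLpNorm_add_le (dil_meas (hc1 j).le hm1)
          ((dil_meas (hc1 j).le hvL.aestronglyMeasurable).sub hvL.aestronglyMeasurable)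
          (by norm_num)).trans ?_
        exact add_le_add ((dil_le (hc1 j).le hm1).trans (f3 j)) le_rfl
      have h0 : Tendsto (fun j : ℕ => 2 * ENNReal.ofReal (1 / ((j : ℝ) + 1))
          + eLpNorm (fun x => v (c j • x) - v x) 2 (volume : Measure E3)) atTop (𝓝 0) := by
        have h6 : Tendsto (fun j : ℕ => ENNReal.ofReal (1 / ((j : ℝ) + 1))) atTop (𝓝 0) := by
          rw [← ENNReal.ofReal_zero]
          exact (ENNReal.continuous_ofReal.tendsto 0).comp tendsto_one_div_add_atTop_nhds_zero_nat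
        have h7 := ENNReal.Tendsto.const_mul (a := 2) h6 (Or.inr (by norm_num))
        rw [mul_zero] at h7
        have h8 := h7.add hd
        rwa [add_zero] at h8
      exact tendsto_of_tendsto_of_tendsto_of_le_of_le tendsto_const_nhds h0
        (fun _ => bot_le) hbound)
    refine ⟨q, mem_pub.mp hq, ?_⟩
    refine (dstV hΩm MeasurableSet.univ MeasurableSet.univ
      (subset_univ _) Subset.rfl q.1 v).trans ?_
    rw [ext_self, hqv, sub_self, enorm_zero]

end Pool.Agent.X75C
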