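import Pool.Agent.Y303.NF.Sym
import Pool.Agent.Y303.RA.Boot

/-!
Strong solutions in closed subspaces of a frame.
-/

set_option autoImplicit false
set_option linter.unusedSectionVars false

open MeasureTheory Set Filter Topology
open scoped InnerProductSpace

namespace Pool.Agent.X75C

open Pool.Agent.Y303.RA
open Pool.Agent.W795.TQ
open Pool.Agent.W790.TQ (toSt sq_prim)
open H772R2.NSR (Frame prim_cont memLp_ii ae_deriv_of_prim grad_unique hasDerivAt_prim)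
open H772R2.NSG (St LH ii_of_int int_inner norm_m_le mem_cont)

variable {H K : Type} [NormedAddCommGroup H] [InnerProductSpace ℝ H] [CompleteSpace H]
  [NormedAddCommGroup K] [InnerProductSpace ℝ K] [CompleteSpace K]
  {W V : Submodule ℝ (H × K)} {m : H → K} {C ν T τ : ℝ} {F F1 : ℝ → K} {u u1 : ℝ → H}
  {z z1 : ℝ → K}

/-- a closed subspace of a frame is a frame -/
theorem frame_sub (Fr : Frame W m C) (hV : V ≤ W) (hc : IsClosed (V : Set (H × K))) :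
    Frame V m C :=
  ⟨Fr.C0, hc, fun p hp => Fr.uniq p (hV hp), fun p hp => Fr.poinc p (hV hp),
    fun p hp => Fr.ortho p (hV hp), fun p hp q hq => Fr.anti p (hV hp) q (hV hq),
    fun p hp => Fr.quart p (hV hp), fun p hp q hq => Fr.lips p (hV hp) q (hV hq)⟩

theorem hom_sub (hm : Hom W m) (hV : V ≤ W) : Hom V m := fun p hp a => hm p (hV hp) a

theorem tb_sub (hW : ∀ R : ℝ, TotallyBounded {v : H | ∃ z, (v, z) ∈ W ∧ ‖z‖ ≤ R}) (hV : V ≤ W)
    (R : ℝ) : TotallyBounded {v : H | ∃ z, (v, z) ∈ V ∧ ‖z‖ ≤ R} := by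
  refine (hW R).subset ?_
  rintro v ⟨z, h1, h2⟩
  exact ⟨z, hV h1, h2⟩

/-- continuity of the nonlinear term along a path in `W` -/
theorem mc_of (Fr : Frame W m C) (mem : ∀ t ∈ Icc 0 T, (u t, z t) ∈ W)
    (huc : ContinuousOn u (Icc 0 T)) (hzc : ContinuousOn z (Icc 0 T)) :
    ContinuousOn (fun s => m (u s)) (Icc 0 T) := by
  intro x hx
  exact m_tendsto Fr (l := 𝓝[Icc 0 T] x) (p := fun y => (u y, z y)) (q := (u x, z x)) (by
    filter_upwards [self_mem_nhdsWithin] with y hy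
    exact mem y hy) (mem x hx) (huc x hx) (hzc x hx)

/-- the equation at almost all times -/
theorem dw_of (Fr : Frame W m C) (hT : 0 < T) (hFc : ContinuousOn F (Icc 0 T))
    (mem : ∀ t ∈ Icc 0 T, (u t, z t) ∈ W) (u1m : MemLp u1 2 (volume.restrict (Ioc 0 T)))
    (z1m : MemLp z1 2 (volume.restrict (Ioc 0 T)))
    (pu : ∀ a b, 0 ≤ a → a ≤ b → b ≤ T → u b - u a = ∫ s in a..b, u1 s)
    (pz : ∀ a b, 0 ≤ a → a ≤ b → b ≤ T → z b - z a = ∫ s in a..b, z1 s)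
    (weak : ∀ p ∈ W, ∀ t ∈ Icc 0 T, ⟪u t - u 0, p.1⟫_ℝ
      = ∫ s in (0 : ℝ)..t, ⟪F s - ν • z s + m (u s), p.2⟫_ℝ) :
    ∀ᵐ s ∂(volume.restrict (Ioc 0 T)), ∀ p ∈ W,
      ⟪u1 s, p.1⟫_ℝ = ⟪F s - ν • z s + m (u s), p.2⟫_ℝ := by
  have huc : ContinuousOn u (Icc 0 T) := prim_cont u1m pu
  have hzc : ContinuousOn z (Icc 0 T) := prim_cont z1m pz
  have hmc := mc_of Fr mem huc hzc
  have hgc : ContinuousOn (fun s => F s - ν • z s + m (u s)) (Icc 0 T) :=
    (hFc.sub (hzc.const_smul ν)).add hmc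
  have hne : ∀ᵐ s ∂(volume.restrict (Ioc 0 T)), s ≠ T := by
    refine ae_restrict_of_ae ?_
    simp [ae_iff, measure_singleton]
  filter_upwards [ae_deriv_of_prim hT (memLp_ii hT.le u1m) pu,
    ae_restrict_mem measurableSet_Ioc, hne] with s hd hs hsT p hp
  have hs' : s ∈ Ioo 0 T := ⟨hs.1, lt_of_le_of_ne hs.2 hsT⟩
  have h1 : HasDerivAt (fun t => ⟪u t, p.1⟫_ℝ) ⟪u1 s, p.1⟫_ℝ s := by
    have := hd.inner ℝ (hasDerivAt_const s p.1)
    simpa using this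
  have h2 : HasDerivAt (fun t => ⟪u 0, p.1⟫_ℝ + ∫ r in (0 : ℝ)..t,
      ⟪F r - ν • z r + m (u r), p.2⟫_ℝ) ⟪F s - ν • z s + m (u s), p.2⟫_ℝ s :=
    (hasDerivAt_prim (β := fun r => ⟪F r - ν • z r + m (u r), p.2⟫_ℝ)
      (hgc.inner continuousOn_const) hs').const_add _
  refine h1.unique (h2.congr_of_eventuallyEq ?_)
  filter_upwards [Icc_mem_nhds hs'.1 hs'.2] with t ht
  rw [← weak p hp t ht, inner_sub_left]
  ring

/-- the energy equality follows from the weak form -/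
theorem str_of_weak (Fr : Frame W m C) (hT : 0 < T) (hFc : ContinuousOn F (Icc 0 T))
    (mem : ∀ t ∈ Icc 0 T, (u t, z t) ∈ W)
    (mem1 : ∀ᵐ s ∂(volume.restrict (Ioc 0 T)), (u1 s, z1 s) ∈ W)
    (bd : ∃ c, ∀ᵐ s ∂(volume.restrict (Ioc 0 T)), ‖u1 s‖ ≤ c)
    (u1m : MemLp u1 2 (volume.restrict (Ioc 0 T)))
    (z1m : MemLp z1 2 (volume.restrict (Ioc 0 T)))
    (pu : ∀ a b, 0 ≤ a → a ≤ b → b ≤ T → u b - u a = ∫ s in a..b, u1 s)
    (pz : ∀ a b, 0 ≤ a → a ≤ b → b ≤ T → z b - z a = ∫ s in a..b, z1 s)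
    (weak : ∀ p ∈ W, ∀ t ∈ Icc 0 T, ⟪u t - u 0, p.1⟫_ℝ
      = ∫ s in (0 : ℝ)..t, ⟪F s - ν • z s + m (u s), p.2⟫_ℝ) :
    Str W m ν T F u u1 z z1 := by
  have hzc : ContinuousOn z (Icc 0 T) := prim_cont z1m pz
  refine ⟨mem, mem1, bd, u1m, z1m, pu, pz, weak, fun t ht => ?_⟩
  have hdw := dw_of Fr hT hFc mem u1m z1m pu pz weak
  have e1 := sq_prim u1m pu le_rfl ht.1 ht.2
  have e2 : ∫ s in (0 : ℝ)..t, 2 * ⟪u1 s, u s⟫_ℝ
      = ∫ s in (0 : ℝ)..t, (2 * ⟪F s, z s⟫_ℝ - 2 * ν * ‖z s‖ ^ 2) := by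
    rw [intervalIntegral.integral_of_le ht.1, intervalIntegral.integral_of_le ht.1]
    refine integral_congr_ae ?_
    filter_upwards [ae_mono (Measure.restrict_mono (Ioc_subset_Ioc_right ht.2) le_rfl) hdw,
      ae_restrict_mem measurableSet_Ioc] with s hs hsI
    have hsT : s ∈ Icc 0 T := ⟨hsI.1.le, hsI.2.trans ht.2⟩
    have h1 := hs _ (mem s hsT)
    have h2 := Fr.ortho _ (mem s hsT)
    simp only at h1 h2
    rw [h1, inner_add_left, inner_sub_left, real_inner_smul_left, real_inner_self_eq_norm_sq, h2]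
    ring
  have hFz : ContinuousOn (fun s => ⟪F s, z s⟫_ℝ) (Icc 0 T) := hFc.inner hzc
  have hz2 : ContinuousOn (fun s => ‖z s‖ ^ 2) (Icc 0 T) := hzc.norm.pow 2
  have i1 : IntervalIntegrable (fun s => ⟪F s, z s⟫_ℝ) volume 0 t := by
    refine ContinuousOn.intervalIntegrable ?_
    rw [uIcc_of_le ht.1]
    exact hFz.mono (Icc_subset_Icc_right ht.2)
  have i2 : IntervalIntegrable (fun s => ‖z s‖ ^ 2) volume 0 t := by
    refine ContinuousOn.intervalIntegrable ?_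
    rw [uIcc_of_le ht.1]
    exact hz2.mono (Icc_subset_Icc_right ht.2)
  rw [e2, intervalIntegral.integral_sub (i1.const_mul 2) (i2.const_mul (2 * ν)),
    intervalIntegral.integral_const_mul, intervalIntegral.integral_const_mul] at e1
  linarith

end Pool.Agent.X75C
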