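import Pool.Agent.X75C.Ext
import Pool.Agent.X75C.PubDef
import Pool.Agent.W795.TQ.DPub

/-!
Strong solutions in the sense of the public definition.
-/

set_option autoImplicit false
set_option linter.unusedSectionVars false

open MeasureTheory Set Filter Topology
open scoped InnerProductSpace NNReal ENNReal ContDiff

namespace Pool.Agent.X75C

open H772R2.NS H772R2.NS.Pub
open H772R2.NSR (Frame exists_frame exists_pair grad_unique prim_cont pub_inner pub_rhs)
open H772R2.NSG (ii_of_int norm_m_le)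
open Pool.Agent.W795.TQ

theorem str_of_strong {Ω : Set E3} (hΩ : IsOpen Ω) {ν T C : ℝ} (hT : 0 < T) {F : ℝ → L2M Ω}
    (hF : ContinuousOn F (Icc 0 T)) (Fr : Frame (graphW Ω) (tensL (Ω := Ω)) C)
    {u u1 : ℝ → L2V Ω} {z z1 : ℝ → L2M Ω}
    (S : IsStrong (show Set R3 from Ω) ν T F u u1 z z1) :
    Str (graphW Ω) tensL ν T F u u1 z z1 := by
  have hm : MeasurableSet Ω := hΩ.measurableSet
  have hmem : ∀ t ∈ Icc 0 T, (u t, z t) ∈ graphW Ω := fun t ht => mem_pub.mpr (S.grad t ht)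
  have huc : ContinuousOn u (Icc 0 T) := prim_cont S.hu.memLp S.hu.prim
  have hzc : ContinuousOn z (Icc 0 T) := prim_cont S.hG.memLp S.hG.prim
  have hmc : ContinuousOn (fun s => tensL (u s)) (Icc 0 T) := mc_of Fr hmem huc hzc
  have hgc : ContinuousOn (fun s => F s - ν • z s + tensL (u s)) (Icc 0 T) :=
    (hF.sub (hzc.const_smul ν)).add hmc
  refine str_of_weak Fr hT hF hmem ?_ S.bdd S.hu.memLp S.hG.memLp S.hu.prim S.hG.prim ?_
  · filter_upwards [S.gradDeriv] with t ht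
    exact mem_pub.mpr ht
  · intro p hp t ht
    have hGt : Integrable (fun s => F s - ν • z s + tensL (u s)) (volume.restrict (Ioc 0 t)) :=
      ((hgc.mono (Icc_subset_Icc_right ht.2)).integrableOn_Icc).mono_set Ioc_subset_Icc_self
    set I : L2M Ω := ∫ s in (0 : ℝ)..t, (F s - ν • z s + tensL (u s)) with hI
    have hint : ∀ q : L2V Ω × L2M Ω, ∫ s in (0 : ℝ)..t, ⟪F s - ν • z s + tensL (u s), q.2⟫_ℝ
        = ⟪I, q.2⟫_ℝ := by
      intro q
      rw [hI, intervalIntegral.integral_of_le ht.1, intervalIntegral.integral_of_le ht.1]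
      have := integral_inner (𝕜 := ℝ) hGt q.2
      rw [real_inner_comm, ← this]
      exact integral_congr_ae (Eventually.of_forall fun s => real_inner_comm _ _)
    have key := graphW_induction (fun q : L2V Ω × L2M Ω => ⟪u t - u 0, q.1⟫_ℝ - ⟪I, q.2⟫_ℝ)
      (by fun_prop) (by
      rintro q ⟨φ, k1, k2, k3⟩
      have e := S.eqn φ ((isTest_iff φ).mpr k1) t ht
      have e1 := pub_inner (Ω := Ω) (u t) k2
      have e2 := pub_inner (Ω := Ω) (u 0) k2
      have e3 : ∫ s in (0 : ℝ)..t, Pub.rhs (Ω := Ω) ν (u s) (z s) (F s) φ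
          = ∫ s in (0 : ℝ)..t, ⟪F s - ν • z s + tensL (u s), q.2⟫_ℝ := by
        refine intervalIntegral.integral_congr fun s hs => ?_
        rw [uIcc_of_le ht.1] at hs
        exact pub_rhs hm ν (F s) (hmem s ⟨hs.1, hs.2.trans ht.2⟩) k3
      have h2 : ⟪u t - u 0, q.1⟫_ℝ = ⟪u t, q.1⟫_ℝ - ⟪u 0, q.1⟫_ℝ := inner_sub_left _ _ _
      have e' := ((congrArg₂ (· - ·) e1 e2).symm.trans e).trans (e3.trans (hint q))
      show ⟪u t - u 0, q.1⟫_ℝ - ⟪I, q.2⟫_ℝ = 0
      rw [h2]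
      exact sub_eq_zero.mpr e') hp
    have key' : ⟪u t - u 0, p.1⟫_ℝ = ⟪I, p.2⟫_ℝ := sub_eq_zero.mp key
    rw [key', ← hint p]

/-- the peak in terms of the internal definition -/
theorem peak_eq {Ω : Set E3} (hΩ : IsOpen Ω) {ν T C : ℝ} (hT : 0 < T) {F : ℝ → L2M Ω}
    (hF : ContinuousOn F (Icc 0 T)) (Fr : Frame (graphW Ω) (tensL (Ω := Ω)) C) (x : L2V Ω) :
    peak (show Set R3 from Ω) ν T F x = pk (graphW Ω) (tensL (Ω := Ω)) ν T F x := by
  unfold peak pk
  congr 1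
  ext P
  constructor
  · rintro ⟨u, u', G, G', S, h0, h1⟩
    exact ⟨u, u', G, G', str_of_strong hΩ hT hF Fr S, h0, h1⟩
  · rintro ⟨u, u', G, G', S, h0, h1⟩
    exact ⟨u, u', G, G', strong_of_str hΩ hT S (fun _ _ => rfl), h0, h1⟩

end Pool.Agent.X75C
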